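import Pool.Agent.Lib.MP_dba3a1_an.RL.Spec

/-!
# MP_dba3a1_an, RealLinear, module AB1: the norm estimate (helper86)
-/

set_option autoImplicit false

namespace Pool.Agent.Lib.MPdba3a1.RL

universe u v

namespace AB1M

section one

variable {A : Type u} [CStarAlgebra A]

theorem norm_pr {p : A} (hp : Pr p) : ‖p‖ = 0 ∨ ‖p‖ = 1 := by
  have h : ‖p‖ = ‖p‖ * ‖p‖ := by
    conv_lhs => rw [← hp.1]
    conv_lhs => enter [1, 1]; rw [← hp.2]
    exact CStarRing.norm_star_mul_self
  by_cases h0 : ‖p‖ = 0
  · exact Or.inl h0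
  · right
    have h1 : ‖p‖ * (‖p‖ - 1) = 0 := by rw [mul_sub, mul_one, ← h, sub_self]
    rcases mul_eq_zero.1 h1 with h2 | h2
    · exact absurd h2 h0
    · linarith

theorem norm_pr_le {p : A} (hp : Pr p) : ‖p‖ ≤ 1 := by
  rcases norm_pr hp with h | h
  · rw [h]; norm_num
  · rw [h]

theorem pr_mem {p : A} (hp : Pr p) : p ∈ projMonoid A := proj_mem hp.1 hp.2

theorem pr_compl {p : A} (hp : Pr p) : Pr (1 - p) := by
  refine ⟨?_, ?_⟩
  · rw [sub_mul, one_mul, mul_sub, mul_one, hp.1, sub_self, sub_zero]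
  · rw [star_sub, star_one, hp.2]

theorem com {g : A} (hc : ∀ x y, g * x * y = g * y * x) {p q : A} (hp : g * p = p)
    (hq : g * q = q) : p * q = q * p := by
  have := hc p q
  rwa [hp, hq] at this

theorem pr_mul {p q : A} (hp : Pr p) (hq : Pr q) (h : p * q = q * p) : Pr (p * q) := by
  refine ⟨?_, ?_⟩
  · calc p * q * (p * q) = p * (q * p) * q := by simp only [mul_assoc]
      _ = p * (p * q) * q := by rw [h]
      _ = (p * p) * (q * q) := by simp only [mul_assoc]
      _ = p * q := by rw [hp.1, hq.1]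
  · rw [star_mul, hp.2, hq.2, h]

end one

end AB1M

open AB1M in
theorem specAB1 (hORT : SpecORT.{v}) : SpecAB1.{u, v} := by
  intro A B _ _ F hF g hg _ hgc s
  classical
  induction s using Finset.induction_on with
  | empty =>
    intro _ c c₀ a ha _
    simp only [Finset.sum_empty, add_zero, smul_mul_assoc, one_mul, norm_smul]
    refine mul_le_mul_of_nonneg_left ?_ (norm_nonneg _)
    rcases norm_pr ha with h | h
    · have h0 : a = 0 := norm_eq_zero.1 h
      rw [h0, hF.zero]
      simp
    · rw [h]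
      exact hF.nrm a (pr_mem ha)
  | insert p s hps ih =>
    intro hs c c₀ a ha hga
    obtain ⟨hp, hgp⟩ := hs p (Finset.mem_insert_self p s)
    have hs' : ∀ q ∈ s, Pr q ∧ g * q = q := fun q hq => hs q (Finset.mem_insert_of_mem hq)
    rw [Finset.sum_insert hps, Finset.sum_insert hps]
    have hpa : p * a = a * p := com hgc hgp hga
    have ha1 : Pr (p * a) := pr_mul hp ha hpa
    have hq : Pr (1 - p) := pr_compl hp
    have hqa : (1 - p) * a = a * (1 - p) := by
      rw [sub_mul, mul_sub, one_mul, mul_one, hpa]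
    have ha2 : Pr ((1 - p) * a) := pr_mul hq ha hqa
    have hg1 : g * (p * a) = p * a := by rw [← mul_assoc, hgp]
    have hg2 : g * ((1 - p) * a) = (1 - p) * a := by
      rw [sub_mul, one_mul, mul_sub, hga, hg1]
    have i1 := ih hs' c (c₀ + c p) (p * a) ha1 hg1
    have i2 := ih hs' c c₀ ((1 - p) * a) ha2 hg2
    have e1 : F (p * a) = F p * F a := hF.mul p (pr_mem hp) a (pr_mem ha)
    have e2 : F ((1 - p) * a) = F a - F (p * a) := by
      rw [hF.mul (1 - p) (pr_mem hq) a (pr_mem ha), hF.compl p hp, sub_mul, one_mul, e1]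
    have epp : F p * F (p * a) = F (p * a) := by
      rw [← hF.mul p (pr_mem hp) (p * a) (pr_mem ha1), ← mul_assoc, hp.1]
    have s1 : star (F (p * a)) = F (p * a) := by
      rw [← hF.star _ (pr_mem ha1), ha1.2]
    have s2 : star (F ((1 - p) * a)) = F ((1 - p) * a) := by
      rw [← hF.star _ (pr_mem ha2), ha2.2]
    have h12 : F (p * a) * F ((1 - p) * a) = 0 := by
      rw [← hF.mul _ (pr_mem ha1) _ (pr_mem ha2)]
      have : p * a * ((1 - p) * a) = 0 := by
        rw [sub_mul, one_mul, mul_sub, ha1.1, mul_assoc, ha.1, sub_self]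
      rw [this, hF.zero]
    -- the sums
    set z : B := ∑ q ∈ s, c q • F q with hz
    set x : A := ∑ q ∈ s, c q • q with hx
    have hzc : z * F (p * a) = F (p * a) * z := by
      rw [hz, Finset.sum_mul, Finset.mul_sum]
      refine Finset.sum_congr rfl fun q hqs => ?_
      obtain ⟨hq1, hq2⟩ := hs' q hqs
      rw [smul_mul_assoc, mul_smul_comm, ← hF.mul q (pr_mem hq1) _ (pr_mem ha1),
        ← hF.mul _ (pr_mem ha1) q (pr_mem hq1), com hgc hq2 hg1]
    set X : B := ((c₀ + c p) • (1 : B) + z) * F (p * a) with hX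
    set Y : B := (c₀ • (1 : B) + z) * F ((1 - p) * a) with hY
    have hX' : X = F (p * a) * ((c₀ + c p) • (1 : B) + z) := by
      rw [hX, add_mul, mul_add, hzc, smul_mul_assoc, mul_smul_comm, one_mul, mul_one]
    have hzc' : F (p * a) * (c₀ • (1 : B) + z) = (c₀ • (1 : B) + z) * F (p * a) := by
      rw [add_mul, mul_add, hzc, smul_mul_assoc, mul_smul_comm, one_mul, mul_one]
    have o1 : star X * Y = 0 := by
      rw [hX', star_mul, s1, hY, mul_assoc, ← mul_assoc (F (p * a)), hzc', mul_assoc, h12,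
        mul_zero, mul_zero]
    have o2 : X * star Y = 0 := by
      rw [hX, hY, star_mul, s2, mul_assoc, ← mul_assoc (F (p * a)), h12, zero_mul, mul_zero]
    have hsum : (c₀ • (1 : B) + (c p • F p + z)) * F a = X + Y := by
      have : F a = F (p * a) + F ((1 - p) * a) := by rw [e2]; abel
      rw [hX, hY, this]
      have e3 : F p * F ((1 - p) * a) = 0 := by
        rw [e2, mul_sub, epp, ← e1, sub_self]
      simp only [add_mul, mul_add, smul_mul_assoc, one_mul, epp, e3, add_smul, smul_zero]
      abel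
    have hT1 : ((c₀ + c p) • (1 : A) + x) * (p * a) = ((c₀ • (1 : A) + (c p • p + x)) * a) * p := by
      rw [mul_assoc _ a p, ← hpa]
      have : p * (p * a) = p * a := by rw [← mul_assoc, hp.1]
      simp only [add_mul, smul_mul_assoc, one_mul, this, add_smul]
      abel
    have hT2 : (c₀ • (1 : A) + x) * ((1 - p) * a) =
        ((c₀ • (1 : A) + (c p • p + x)) * a) * (1 - p) := by
      rw [mul_assoc _ a (1 - p), ← hqa]
      have : p * ((1 - p) * a) = 0 := by
        rw [← mul_assoc, mul_sub, mul_one, hp.1, sub_self, zero_mul]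
      simp only [add_mul, smul_mul_assoc, one_mul, this, smul_zero]
      abel
    rw [hsum]
    refine (hORT B X Y o1 o2).trans (max_le ?_ ?_)
    · refine i1.trans ?_
      rw [hT1]
      refine (norm_mul_le _ _).trans ?_
      exact mul_le_of_le_one_right (norm_nonneg _) (norm_pr_le hp)
    · refine i2.trans ?_
      rw [hT2]
      refine (norm_mul_le _ _).trans ?_
      exact mul_le_of_le_one_right (norm_nonneg _) (norm_pr_le hq)

end Pool.Agent.Lib.MPdba3a1.RL
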