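import Mathlib

/-!
# MP_dba3a1_an, RealLinear: every morphism of Baer *-semigroups `P(A) → P(B)` extends to a
# real-linear *-homomorphism `A → B`.  Specification.

Captain helper18.  Every statement has its complete proof in the docstring.  The module `XXX` is the file
`Pool/Agent/Lib/MP_dba3a1_an/RL/XXX.lean`, namespace `Pool.Agent.Lib.MPdba3a1.RL`, which imports this file
and proves `theorem specXXX (h : SpecYYY) .. : SpecXXX`, where the hypotheses are the modules named after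
`from`, in this order (universes: `SpecXXX.{u}` or `SpecXXX.{u, v}` exactly as here).  Auxiliary lemmas go in the
namespace `XXXM`.

All algebras are unital C*-algebras (`CStarAlgebra A`: complex; the real scalars are the instance
`NormedAlgebra.complexToReal`, `(t : ℝ) • x`).  No order on `A` is used in the statements; the continuous
functional calculus of Mathlib (`cfc`, real version for self-adjoint elements) is used in `SPL`, `MEM`.
-/

set_option autoImplicit false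

namespace Pool.Agent.Lib.MPdba3a1.RL

universe u v

/-! ### definitions -/

/-- `e` is a projection (`e = e* = e²`) and the right annihilator `{y | x y = 0 for all x in S}` equals
`e M`. -/
def IsRann {M : Type u} [Mul M] [Zero M] [Star M] (S : Set M) (e : M) : Prop :=
  e * e = e ∧ star e = e ∧ ∀ y : M, (∀ x ∈ S, x * y = 0) ↔ ∃ z : M, y = e * z

/-- Every subset has an annihilating projection. -/
def HasRann (M : Type u) [Mul M] [Zero M] [Star M] : Prop := ∀ S : Set M, ∃ e : M, IsRann S e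

/-- Morphisms of Baer *-semigroups. -/
structure BaerHom (M : Type u) (N : Type v) [Mul M] [Zero M] [Star M] [Mul N] [Zero N] [Star N] where
  /-- the underlying map -/
  toFun : M → N
  map_mul : ∀ x y, toFun (x * y) = toFun x * toFun y
  map_star : ∀ x, toFun (star x) = star (toFun x)
  map_rann : ∀ (S : Set M) (e : M), IsRann S e → IsRann (toFun '' S) (toFun e)

/-- `p` is a projection. -/
def Pr {A : Type u} [CStarAlgebra A] (p : A) : Prop := p * p = p ∧ star p = p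

/-- The multiplicative submonoid `P(A)` of `A` generated by the projections of `A`. -/
def projMonoid (A : Type u) [CStarAlgebra A] : Submonoid A :=
  Submonoid.closure {p : A | p * p = p ∧ star p = p}

section projMonoid

variable {A : Type u} [CStarAlgebra A]

theorem proj_mem {p : A} (hp : p * p = p) (hs : star p = p) : p ∈ projMonoid A :=
  Submonoid.subset_closure ⟨hp, hs⟩

theorem zero_mem' : (0 : A) ∈ projMonoid A := proj_mem (mul_zero 0) (star_zero A)

theorem star_mem' {x : A} (hx : x ∈ projMonoid A) : star x ∈ projMonoid A := by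
  induction hx using Submonoid.closure_induction with
  | mem p hp =>
    rw [hp.2]
    exact proj_mem hp.1 hp.2
  | one => simp
  | mul x y _ _ hx hy =>
    rw [star_mul]
    exact (projMonoid A).mul_mem hy hx

/-- The zero of `A` is an element of `P(A)`. -/
instance : Zero (projMonoid A) := ⟨⟨0, zero_mem'⟩⟩

/-- The involution of `A` restricts to `P(A)`. -/
instance : Star (projMonoid A) := ⟨fun x => ⟨star (x : A), star_mem' x.2⟩⟩

@[simp] theorem coe_zero' : ((0 : projMonoid A) : A) = 0 := rfl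

@[simp] theorem coe_star' (x : projMonoid A) : ((star x : projMonoid A) : A) = star (x : A) := rfl

@[simp] theorem coe_mul' (x y : projMonoid A) : ((x * y : projMonoid A) : A) = (x : A) * y := rfl

end projMonoid

open Classical in
/-- The total function `A → B` of a map `P(A) → P(B)` (`0` outside of `P(A)`). -/
noncomputable def tot {A : Type u} {B : Type v} [CStarAlgebra A] [CStarAlgebra B]
    (φ : projMonoid A → projMonoid B) (x : A) : B :=
  if h : x ∈ projMonoid A then (φ ⟨x, h⟩ : B) else 0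

/-- What we use of the morphism `F : P(A) → P(B)` (a total function on `A`). -/
structure PHom {A : Type u} {B : Type v} [CStarAlgebra A] [CStarAlgebra B] (F : A → B) : Prop where
  mul : ∀ x ∈ projMonoid A, ∀ y ∈ projMonoid A, F (x * y) = F x * F y
  star : ∀ x ∈ projMonoid A, F (star x) = star (F x)
  zero : F 0 = 0
  one : F 1 = 1
  compl : ∀ p, Pr p → F (1 - p) = 1 - F p
  nrm : ∀ x ∈ projMonoid A, ‖F x‖ ≤ 1
  rann : ∀ (S : Set A) (e : A), S ⊆ projMonoid A → IsRann S e → IsRann (F '' S) (F e)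

/-- `x` is in the corner `e A e`. -/
def In {A : Type u} [CStarAlgebra A] (e x : A) : Prop := e * x = x ∧ x * e = x

/-- `e` is a projection, `w` is a partial isometry with final projection `e` and `w² = 0`. -/
structure Half {A : Type u} [CStarAlgebra A] (e w : A) : Prop where
  pr : Pr e
  ww : w * star w = e
  sq : w * w = 0

/-! ### the modules -/

/-- BAS (150 lines).

PROOF.  `mul`, `star`: the fields of `φ`.  (If `S ⊆ P(A)` and `IsRann S e` in `A` then `e ∈ P(A)` and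
`IsRann S' ⟨e, _⟩` in `P(A)`, `S'` the preimage of `S` under the coercion: if `x y = 0` for all `x ∈ S` then `y = e z` with
`z ∈ A`, so `e y = y` and `y = e y` with `y ∈ P(A)`.)  `rann`: by the remark and `map_rann`, `IsRann (φ '' S') (φ e)` in `P(B)`;
let `f` be the annihilating projection of `F '' S` in `B` (`HasRann B`); by the remark for `B` it is also the one in
`P(B)`; it is unique (`e = f z` gives `f e = e`, and `e f = f`, take `star`), so `F e = f`.
`one`: `IsRann ∅ 1`, so `IsRann ∅ (F 1)`: every `y ∈ B` is `F 1 * z`, so `F 1 * y = y`, `y = 1`.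
`zero`: `IsRann {0} 1`, so `IsRann {F 0} 1`, so `F 0 * 1 = 0`.
`compl`: `IsRann {p} (1 - p)`, so `IsRann {F p} (F (1 - p))`; `F p` is a projection, so also `IsRann {F p} (1 - F p)`;
uniqueness.  `nrm`: the elements of `P(B)` have norm at most `1` (`IsStarProjection.norm_le`, closure induction). -/
def SpecBAS : Prop :=
  ∀ (A : Type u) (B : Type v) [CStarAlgebra A] [CStarAlgebra B] (_ : HasRann A) (_ : HasRann B)
    (φ : BaerHom (projMonoid A) (projMonoid B)), PHom (tot φ.toFun)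

/-- ORT (80 lines).  The norm of an orthogonal sum.

PROOF.  Let `a = x* x`, `b = y* y`: `(x + y)* (x + y) = a + b`, `a b = x* (x y*) y = 0`, `b a = 0`.  So
`(a + b) ^ (2 ^ n) = a ^ (2 ^ n) + b ^ (2 ^ n)` for `n ≥ 0`, `‖a + b‖ ^ (2 ^ n) ≤ 2 M ^ (2 ^ n)`, `M = max ‖a‖ ‖b‖`
(`IsSelfAdjoint.norm_pow_two_pow` or `nnnorm_pow_two_pow`).  So `‖a + b‖ ≤ M` (otherwise `(‖a + b‖ / M) ^ (2 ^ n)` is
unbounded), and `M = (max ‖x‖ ‖y‖) ^ 2`. -/
def SpecORT : Prop :=
  ∀ (A : Type u) [CStarAlgebra A] (x y : A) (_ : star x * y = 0) (_ : x * star y = 0),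
    ‖x + y‖ ≤ max ‖x‖ ‖y‖

/-- The conclusion of the spectral lemma for `h = a* a` and `l > 0`. -/
structure Spl {A : Type u} [CStarAlgebra A] (h : A) (l : ℝ) (e m : A) : Prop where
  pr : Pr e
  sa : star m = m
  me : m * e = m
  inv : m * m * h = e
  ce : ∀ x, x * h = h * x → x * e = e * x
  cm : ∀ x, x * h = h * x → x * m = m * x
  small : ‖h * (1 - e)‖ ≤ l
  sub : ∃ b, h - l • e = star b * b
  nrm : ‖h‖ ≤ 2 * l → ‖h - l • e‖ ^ 2 ≤ 2 * l ^ 2

/-- SPL (250 lines).  The spectral lemma.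

PROOF.  `h = a* a` is self-adjoint with spectrum in `[0, ∞)`.  Functional calculus (real, for self-adjoint
elements): `k = (h - l)⁺`, `k' = (l - h)⁺`, `n = min(h, l)`, `r = 1 / max(h, l)`, `r' = 1 / √max(h, l)`
(`cfc (fun t => max (t - l) 0) h`, ..; all continuous on `ℝ`).  They commute with each other and with every `x`
that commutes with `h` (`Commute.cfc`: `x` commutes with `h` and `star h = h`).  Let `1 - e` be the annihilating
projection of `{k}` (`HasRann`): `k (1 - e) = 0`, so `k e = k`, and (`star`) `e k = k`; `k y = 0` gives `(1 - e) y = y`,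
`e y = 0`.  `k k' = 0`, so `e k' = 0`, also `k' e = 0`.
`ce`: `x h = h x`, so `x* h = h x*`; `k x (1 - e) = x k (1 - e) = 0`, so `e x (1 - e) = 0`; the same for `x*`, so
`(1 - e) x e = 0`: `x e = e x e = e x`.  So `e` commutes with `h` and with all the functions of `h`.
`m = r' e`: `sa`, `me`, `cm` are clear.  `inv`: `m m h = r h e = e - k' r e = e` (`t / max(t, l) = 1 - (l - t)⁺ / max(t, l)`).
`small`: `h (1 - e) = (h - k) (1 - e) = n (1 - e)`, `‖n‖ ≤ l` as `0 ≤ min(t, l) ≤ l` on the spectrum of `h`.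
`sub`: `h - l e = (h - l) e + h (1 - e) = k e + n (1 - e)` (`h - l = k - k'`), `b = √k e + √n (1 - e)`
(`√k = cfc (fun t => √(max (t - l) 0)) h`; `n` has a square root, `cfc (fun t => √(min t l)) h`, as `t ≥ 0`).
`nrm`: `x = k e + n (1 - e)` is self-adjoint, `‖x‖² = ‖x x‖ = ‖k k e + n n (1 - e)‖ ≤ ‖k‖² + ‖n‖² ≤ l² + l²` (the
spectrum of `h` is in `[0, 2 l]`). -/
def SpecSPL : Prop :=
  ∀ (A : Type u) [CStarAlgebra A] (_ : HasRann A) (a : A) (l : ℝ) (_ : 0 < l),
    ∃ e m : A, Spl (star a * a) l e m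

/-- POL (80 lines, from SPL).

PROOF.  `y = r x s ≠ 0`, `h = y* y ≠ 0`, `l = ‖h‖ / 2`, SPL: `e`, `m`.  `v = y m`: `v* v = m h m = m m h = e` (`cm`).  `e ≠ 0`,
otherwise `‖h‖ = ‖h (1 - e)‖ ≤ ‖h‖ / 2`.  `v v* v = v e = y m e = v`.  `r v = v`.  `h s = h`, so `e s = m m h s = e`,
`v s = y m e s = y m e = v`.  `v ≠ 0` as `v* v = e ≠ 0`. -/
def SpecPOL : Prop :=
  ∀ (A : Type u) [CStarAlgebra A] (_ : HasRann A) (r s x : A) (_ : Pr r) (_ : Pr s)
    (_ : r * x * s ≠ 0), ∃ v : A, v ≠ 0 ∧ v * star v * v = v ∧ r * v = v ∧ v * s = v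

/-- APX (150 lines, from SPL).

PROOF.  Let `S` be the closed span.  (1) If `h = a* a` is in `e A e` and `‖h‖ ≤ c`, `c > 0`, then SPL with `l = c / 2` gives
`p` with `p ≤ e` (`p e = m m h e = p`, take `star`), `h - (c / 2) p = b* b` is in `e A e`, of norm `≤ c / √2`.  Iterating, `h` is
in `S`.  (2) Polarization: `x = (1/4) ∑_{k < 4} i^k (x + i^k e)* (x + i^k e)` up to the order of the conjugation: for `x`
with `e x = x = x e`, `4 x = ∑ i^k ((i^k x + e)* .. )`; any version: `x` is a linear combination of the elements `a* a`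
with `a = x + z e`, `z ∈ {1, i, -1, -i}` (`a* a = x* x + z x* + z̄ x + e`; `∑_z z a* a = 4 x`), and `a* a ∈ e A e`. -/
def SpecAPX : Prop :=
  ∀ (A : Type u) [CStarAlgebra A] (_ : HasRann A) (e x : A) (_ : Pr e) (_ : In e x),
    x ∈ closure ((Submodule.span ℂ {p : A | Pr p ∧ e * p = p} : Submodule ℂ A) : Set A)

/-- A family of partial isometries all whose initial and final projections are orthogonal. -/
structure Fam {A : Type u} [CStarAlgebra A] (V : Set A) : Prop where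
  pi : ∀ v ∈ V, v * star v * v = v
  mm : ∀ v ∈ V, ∀ v' ∈ V, v * v' = 0
  ss : ∀ v ∈ V, ∀ v' ∈ V, v ≠ v' → star v * v' = 0 ∧ v * star v' = 0

/-- `w` is the sum of the family `V`, `p = w w*`, `q = w* w`. -/
structure Sum {A : Type u} [CStarAlgebra A] (V : Set A) (w p q : A) : Prop where
  pp : Pr p
  pq : Pr q
  ww : w * star w = p
  ww' : star w * w = q
  sq : w * w = 0
  rq : IsRann V (1 - q)
  rp : IsRann ((fun v => star v) '' V) (1 - p)

/-- ADD (250 lines).  The sum of a family of partial isometries.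

PROOF.  For `v ∈ V` let `p_v = v v*`, `q_v = v* v` (projections; `p_v v = v = v q_v`), `s_v = p_v + q_v`,
`g_v = ½ (p_v + q_v + v + v*)`.  All products of two different ones of the projections `p_v`, `q_v`, `p_{v'}`, `q_{v'}` are
`0`: `p_v q_{v'} = v v* v'* v' = 0` by `mm` (`v' v = 0`), `p_v p_{v'} = 0`, `q_v q_{v'} = 0` by `ss`.  `g_v` is a projection
(`v v = 0`), `g_v s_v = g_v`, `g_{v'} s_v = 0` for `v' ≠ v`.  Let `1 - p`, `1 - q`, `1 - G` be the annihilating
projections of `{v*}`, `V`, `{g_v}`.  So for a projection (or any element) `x`: `x v = 0` for all `v` iff `x p = 0` (take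
`star`), `v x = 0` for all `v` iff `q x = 0`, `x g_v = 0` for all `v` iff `x G = 0`.
`p v = v`, `v q = v`, `G g_v = g_v`.  `G s_v = g_v`: the element `x = s_v - g_v` has `x g_{v'} = 0` for all `v'`
(`v' = v`: `s_v g_v = g_v`), so `x G = 0`, `s_v G = g_v G = g_v`.  `q p_v = 0` (`v' p_v = 0` for all `v'`), so `p_v q = 0` for
all `v`, so `v* q = 0` for all `v`, `p q = 0`.
`w = 2 p G q`.  `w q_v = 2 p G s_v q_v = 2 p g_v q_v = p (q_v + v) = v` (`p q_v = 0`), in the same way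
`p_v w = v`: `2 p_v s_v G q = 2 p_v g_v q = (p_v + v) q = v`.
`w* w q_v = w* v = (v* w)* = (v* p_v w)* = (v* v)* = q_v`, so `(w* w - q) q_v = 0` for all `v`, `(w* w - q) v* = 0`, so (take
`star`: `v (w* w - q) = 0`) `q (w* w - q) = 0`, and `q w* = w*`: `w* w = q`.  In the same way `w w* = p`.
`w w = w q p w = 0`. -/
def SpecADD : Prop :=
  ∀ (A : Type u) [CStarAlgebra A] (_ : HasRann A) (V : Set A) (_ : Fam V),
    ∃ w p q : A, Sum V w p q

/-- DE1 (200 lines, from POL, APX, ADD).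

PROOF.  Zorn: there is a maximal set `V` with `Fam V` (`zorn_subset`; the union of a chain is a `Fam`: two elements are in
one of the sets) with `0 ∉ V`.  ADD: `w`, `p`, `q`, `e = p`, `k = 1 - p - q` (a projection, as `p q = 0`: `p q = w (w* w*) w = 0`).
For every projection `r` with `k r = r` and every `x`: `r x (k - r) = 0`.  Otherwise POL gives `v ≠ 0`, `v = r v`, `v = v (k - r)`; so
`v v = 0`; for `v' ∈ V`: `v' = p v' = v' q`, `k p = 0 = k q`, so `v' v = v' q k v = 0`, `v v' = v k p v' = 0`, `v'* v = 0`, `v' v* = 0`;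
so `insert v V` is a `Fam` without `0`, `v ∈ V` by maximality, `v = p v = p k v = 0`: contradiction.
With `x*`: `(k - r) x r = 0`.  So for `x ∈ k A k`: `r x = r x k = r x r = k x r = x r`.  By APX and continuity `x y = y x` for all
`x`, `y ∈ k A k`. -/
def SpecDE1 : Prop :=
  ∀ (A : Type u) [CStarAlgebra A] (_ : HasRann A),
    ∃ e w k : A, Half e w ∧ Pr k ∧ e + star w * w + k = 1 ∧ e * k = 0 ∧ k * w = 0 ∧ w * k = 0 ∧
      ∀ x y, In k x → In k y → x * y = y * x

/-- The decomposition `1 = g + e₁ + e₂ + e₃`. -/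
structure Dec {A : Type u} [CStarAlgebra A] (g e w u : A) : Prop where
  pg : Pr g
  half : Half e w
  pu : Pr (u * star u)
  uu : u * star u * u = u
  ue : u * e = u
  eu : e * u = 0
  wu : w * u = 0
  sum : g + e + star w * w + u * star u = 1
  ge : g * e = 0
  gw : g * w = 0
  wg : w * g = 0
  gu : g * u = 0
  cen : ∀ x, g * x = x * g
  com : ∀ x y, g * x * y = g * y * x

/-- DE2 (250 lines, from POL, ADD, DE1).

PROOF.  `e`, `w`, `k` as in DE1.  Let `U` be a maximal set such that `Fam U`, and `k u = u`, `u e = u` for all `u ∈ U`, `0 ∉ U`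
(Zorn).  ADD: `U` has the sum `u`, `f = u u*`, `c = u* u`.  `u' k' = ..`: `k u = u` (as `(1 - k) u' = 0` for all `u' ∈ U`: `u'* (1 - k) = 0`,
so `p (1 - k) = 0`, `f = f k`), `u e = u`.  `g = k - f`, a projection (`f ≤ k`), `g u = k u - f u = 0`.
(1) `g x (e - c) = 0` for all `x`: otherwise POL gives `v ≠ 0`, `v = g v`, `v = v (e - c)` (`e - c` is a projection); `k v = v`, `v e = v`,
for `u' ∈ U`: `u' = f u' = u' c`, so `v* u' = v* g f u' = 0`, `v u'* = v (e - c) c u'* = 0`, and products `v u'`, `u' v`, `v v` are `0`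
(`e k = 0`).  So `insert v U` contradicts the maximality.
(2) `g x c = g x u* u = (g x u*) u`; `g x u* = g (k x u* k)` is in `k A k`; `k x u* k = k x u* f` (`u* = u* f`); by commutativity
`g (k x u* k) f = f g (k x u* k) = 0`; and `(k x u* k) f = k x u* k`.  So `g x c = 0`, with (1) `g x e = 0`.
(3) `g x w = g x e w = 0` (`w = e w` by `w w* = e`: `w - e w` has `(w - e w) (w - e w)* = 0`), so `g x (w* w) = ((..)*`: `g x w* w = (g x w*) e w`,
that is `g y e w = 0` with `y = x w*` (`w* = w* e`).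
(4) `g x f = g (k x k) f = (k x k) g f = 0` by commutativity.
So `g x = g x (g + e + w* w + f) = g x g`, with `x*`: `x g = g x g`: `cen`.  `com`: `g x y = (g x g) (g y g)`, in `k A k`. -/
def SpecDE2 : Prop :=
  ∀ (A : Type u) [CStarAlgebra A] (_ : HasRann A), ∃ g e w u : A, Dec g e w u

/-- SCL (250 lines).  Scalars.

PROOF.  `w = e w` (`(w - e w) (w - e w)* = 0`), `w e = w w w* = 0`, `f = w* w`: `f f = w* e w = f`, `w f = w`, `f w = 0`, `e f = 0`.  For
`t ∈ [0, 1]`, `c = √(t - t²)`: `Q = t e + c (w + w*) + (1 - t) f` is a projection; `e Q e = t e`, `e (1 - Q) e = (1 - t) e`.  So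
`t e ∈ P(A)`, `τ(t) = F (t e) = F e F Q F e`, `τ(1 - t) = F e (1 - F Q) F e = F e - τ(t)`.  `τ(s t) = τ(s) τ(t)`.
Additivity for `s`, `t ≥ 0`, `0 < s + t ≤ 1`: `τ(s) + τ(t) = τ(s + t) (τ(s / (s + t)) + τ(t / (s + t))) = τ(s + t) F e = τ(s + t)`.
`‖τ‖ ≤ 1`; `n τ(t) = τ(n t)` if `n t ≤ 1`, so `‖τ(t)‖ ≤ 1 / n` if `t ≤ 1 / n`.  For `t ∈ [0, 1]`, `n ≥ 1`, `k = ⌊n t⌋`:
`τ(t) = τ(k / n) + τ(t - k / n)`, `τ(k / n) = k τ(1 / n) = (k / n) F e`, so `‖τ(t) - t F e‖ ≤ 2 / n`.
`mul`: `t y = (t e) y`. -/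
structure SpecSCL : Prop where
  mem : ∀ (A : Type u) [CStarAlgebra A] (e w : A) (_ : Half e w) (t : ℝ) (_ : 0 ≤ t) (_ : t ≤ 1)
    (y : A) (_ : y ∈ projMonoid A) (_ : e * y = y), t • y ∈ projMonoid A
  mul : ∀ (A : Type u) (B : Type v) [CStarAlgebra A] [CStarAlgebra B] (F : A → B) (_ : PHom F)
    (e w : A) (_ : Half e w) (t : ℝ) (_ : 0 ≤ t) (_ : t ≤ 1) (y : A) (_ : y ∈ projMonoid A)
    (_ : e * y = y), F (t • y) = t • F y

/-- MEM (250 lines).  Small elements of the corner are in `P(A)`.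

PROOF.  `w = e w`, `w e = 0` as in SCL, `f = w* w`, `w f = w`, `e f = 0`.  Let `G` be in `e A e`, `K = 1 + G G*` (invertible: `1 +` a
nonnegative element), `e K = K e`, `V = e + G w`: `V V* = e + G G* = e K`.  `q = V* K⁻¹ V` is a projection: `V* K⁻¹ e K K⁻¹ V`.
`e q = K⁻¹ V` (`e V* = e`, and `e` commutes with `K⁻¹`, `e V = V`).  `gr`: `L = e K⁻¹`.
`xw`: `y = √(1 - 4 X X*)` (functional calculus; the spectrum of `4 X X*` is in `[0, 1]`), it commutes with `e` (`e` commutes with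
`X X*`), `1 + y` is invertible, `G = 2 (1 + y)⁻¹ X` is in `e A e`; `G G* = (1 + y)⁻¹ (1 - y²) (1 + y)⁻¹ = (1 - y) (1 + y)⁻¹`,
`K = 1 + G G* = 2 (1 + y)⁻¹`, `K⁻¹ G = X`.  `e q f = K⁻¹ (e + G w) f = K⁻¹ G w = X w` is in `P(A)`.
`dd`: `½ w = (½ e) w ∈ P(A)` by `xw`, so `½ w* ∈ P(A)`; `(2 X) w ∈ P(A)`, `X = (2 X) w (½ w*)`.
`row`: `s (e + G w) = (s (e + G G*)) (L (e + G w)) = (s (e + G G*)) (e q)`, the first factor is in `P(A)` by `dd` if
`s (1 + ‖G‖²) ≤ 1 / 4`. -/
structure SpecMEM : Prop where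
  gr : ∀ (A : Type u) [CStarAlgebra A] (e w : A) (_ : Half e w) (G : A) (_ : In e G),
    ∃ q L : A, Pr q ∧ In e L ∧ L * (e + G * star G) = e ∧ (e + G * star G) * L = e ∧
      e * q = L * (e + G * w)
  xw : ∀ (A : Type u) [CStarAlgebra A] (e w : A) (_ : Half e w) (X : A) (_ : In e X)
    (_ : ‖X‖ ≤ 1 / 2), X * w ∈ projMonoid A
  dd : ∀ (A : Type u) [CStarAlgebra A] (e w : A) (_ : Half e w) (X : A) (_ : In e X)
    (_ : ‖X‖ ≤ 1 / 4), X ∈ projMonoid A
  row : ∀ (A : Type u) [CStarAlgebra A] (e w : A) (_ : Half e w) (G : A) (_ : In e G),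
    ∃ s : ℝ, 0 < s ∧ s • (e + G * w) ∈ projMonoid A

/-- `Φ` on the corner `e A e`, before additivity. -/
structure Pre {A : Type u} {B : Type v} [CStarAlgebra A] [CStarAlgebra B] (F : A → B) (e : A)
    (Φ : A → B) : Prop where
  eq : ∀ x, In e x → ∀ s : ℝ, 0 < s → s • x ∈ projMonoid A → F (s • x) = s • Φ x
  mul : ∀ x y, In e x → In e y → Φ (x * y) = Φ x * Φ y
  star : ∀ x, In e x → Φ (star x) = star (Φ x)
  pos : ∀ x, In e x → ∀ t : ℝ, 0 ≤ t → Φ (t • x) = t • Φ x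
  one : ∀ x, In e x → Φ (e + x) = F e + Φ x
  nrm : ∀ x, In e x → ‖Φ x‖ ≤ 4 * ‖x‖

/-- `Φ` on the corner `e A e`. -/
structure Cor {A : Type u} {B : Type v} [CStarAlgebra A] [CStarAlgebra B] (F : A → B) (e : A)
    (Φ : A → B) : Prop where
  eq : ∀ x, In e x → ∀ s : ℝ, 0 < s → s • x ∈ projMonoid A → F (s • x) = s • Φ x
  mul : ∀ x y, In e x → In e y → Φ (x * y) = Φ x * Φ y
  star : ∀ x, In e x → Φ (star x) = star (Φ x)
  add : ∀ x y, In e x → In e y → Φ (x + y) = Φ x + Φ y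
  smul : ∀ x, In e x → ∀ t : ℝ, Φ (t • x) = t • Φ x

/-- FA1 (250 lines, from SCL, MEM).

PROOF.  `Φ x = N F(N⁻¹ x)` with `N = 4 ‖x‖ + 1` (`‖N⁻¹ x‖ ≤ 1 / 4`, so `N⁻¹ x ∈ P(A)` by `dd`).
`eq`: if `s x`, `s' x ∈ P(A)`, `0 < s ≤ s'`, then `s x = (s / s') (s' x)`, so `F(s x) = (s / s') F(s' x)` by SCL (`e x = x`).  So `s⁻¹ F(s x)` does
not depend on `s`.  `mul`: `s x`, `s y ∈ P(A)` gives `s² x y ∈ P(A)`, `F(s² x y) = F(s x) F(s y)`.  `star`: clear.
`pos`: `t = 0`: `Φ 0 = F 0 = 0` (`eq` with `s = 1`).  `t > 0`: `s (t x) ∈ P(A)` for a small `s`, `F((s t) x) = s t Φ x`.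
`nrm`: `x = 0` clear; otherwise `s = 1 / (4 ‖x‖)`, `‖Φ x‖ = s⁻¹ ‖F(s x)‖ ≤ s⁻¹`.
`one`: let `f = w* w` (a projection, `e f = 0`), `e + f` is a projection, `F(e + f) = F e + F f`: in general for orthogonal
projections `p`, `q`: `1 - p - q = (1 - p) (1 - q)`, so `F(1 - p - q) = (1 - F p) (1 - F q) = 1 - F p - F q` (`F p F q = F(p q) = 0`).
Let `G = x`, `R = s (e + G w) ∈ P(A)` (`row`), `C = s' (e + w*) ∈ P(A)` (`row` for `G = e`, `star`; `e w = w`).  `R (e + f) = R`, so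
`F R = F R F e + F R F f = F(R e) + F(R f) = F(s e) + F(s G w)`; in the same way `F C = F(s' e) + F(s' w*)` (`(e + f) C = C`).
`R C = s s' (e + G)` (`e w* = 0`, `w e = 0`, `G w w* = G`).  `F R F C = F(s s' e) + F(s e s' w*) + F(s G w s' e) + F(s G w s' w*)
= F(s s' e) + 0 + 0 + F(s s' G)`.  So with `σ = s s'`: `F(σ (e + G)) = F(σ e) + F(σ G)`, all three elements are in `P(A)`, `eq`
gives `σ Φ(e + G) = σ Φ e + σ Φ G`, and `Φ e = F e`. -/
def SpecFA1 : Prop :=
  ∀ (A : Type u) (B : Type v) [CStarAlgebra A] [CStarAlgebra B] (F : A → B) (_ : PHom F)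
    (e w : A) (_ : Half e w), ∃ Φ : A → B, Pre F e Φ

/-- FA2 (120 lines).

PROOF.  (1) If `X`, `X'` are in `e A e`, `X X' = e`, then `Φ(X + Y) = Φ(X (e + X' Y)) = Φ X (Φ e + Φ(X' Y)) = Φ X + Φ Y`, where
`F e = Φ e` (`eq`, `s = 1`; `e ∈ P(A)`).  (2) So `Φ(s e + Y) = Φ(s e) + Φ Y` for all real `s ≠ 0` (and `Y ∈ e A e`), `Φ(s e) = s F e` for
`s ≥ 0`.  (3) Let `X ∈ e A e`, `s > ‖X‖`: `X + s e` is invertible in `e A e`: `X + s 1` is invertible in `A`, commutes with `e`,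
`X' = e (X + s 1)⁻¹`.  So `Φ(X + Y) + s F e = Φ(s e + (X + Y)) = Φ((X + s e) + Y) = Φ(X + s e) + Φ Y = Φ X + s F e + Φ Y`.
(4) `Φ(-x) = -Φ x` by additivity (`Φ 0 = 0`), so `smul` for `t < 0`. -/
def SpecFA2 : Prop :=
  ∀ (A : Type u) (B : Type v) [CStarAlgebra A] [CStarAlgebra B] (F : A → B) (e : A) (_ : Pr e)
    (Φ : A → B) (_ : Pre F e Φ), Cor F e Φ

/-- A real-linear *-homomorphism (not necessarily unital) `f` of `A` which factors through the central
projection `z`, and is `F` on the projections of `z A`. -/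
structure Part {A : Type u} {B : Type v} [CStarAlgebra A] [CStarAlgebra B] (F : A → B) (z : A)
    (f : A → B) : Prop where
  add : ∀ x y, f (x + y) = f x + f y
  smul : ∀ (t : ℝ) x, f (t • x) = t • f x
  mul : ∀ x y, f (x * y) = f x * f y
  star : ∀ x, f (star x) = star (f x)
  fac : ∀ x, f (z * x) = f x
  eq : ∀ p, Pr p → f p = F (z * p)

/-- FNF (300 lines, from SCL, MEM, FA1, FA2).

PROOF.  Let `Φ` be as in FA1, FA2.  `v₁ = e`, `v₂ = w*`, `v₃ = u`, `e_i = v_i v_i*`: `e`, `w* w`, `u u*` (pairwise orthogonal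
projections), `v_i e = v_i`, `v_i* v_j = 0` for `i ≠ j`, `1 - g = e₁ + e₂ + e₃`.  `½ v_i ∈ P(A)` (MEM `xw` with `X = ½ e_i`: `Half e w`,
`Half (w* w) w*`, `Half (u u*) u`; `v₁`: SCL `mem`).  `F(t e_i) = t F e_i` (SCL for the same `Half`s).  `M_i = 2 F(½ v_i)`.
`M_i* M_j = 4 F(¼ v_i* v_j)`, which is `0` for `i ≠ j` and `F(v_i* v_i) = Φ(v_i* v_i)` for `i = j` (SCL for `e`, `y = v_i* v_i`).
`f x = ∑_{i j} M_i Φ(v_i* x v_j) M_j*`.  `add`, `smul`, `star`: clear.  `mul`: `f x f y = ∑ M_i Φ(v_i* x v_j) Φ(v_j* v_j) Φ(v_j* y v_l) M_l*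
= ∑ M_i Φ(v_i* x e_j y v_l) M_l* = ∑ M_i Φ(v_i* x (1 - g) y v_l) M_l*`, and `(1 - g) y v_l = y (1 - g) v_l = y v_l` (`v_j v_j* v_j = v_j`;
`g v_l = 0`).  `fac`: `v_i* (1 - g) = v_i*`.
`eq`: let `p` be a projection, `P = (1 - g) p`, also a projection.  `(1 - g) P (1 - g) = P`, `F(1 - g) = ∑ F e_i` (additivity on
orthogonal projections, see FA1), so `F P = ∑_{i j} F e_i F P F e_j`.  `Φ(v_i* P v_j) = 4 F((½ v_i*) P (½ v_j))` (`eq` with `s = ¼`), so
`M_i Φ(v_i* P v_j) M_j* = 2 F(½ v_i) 4 F(½ v_i*) F P F(½ v_j) 2 F(½ v_j*) = 16 F(¼ e_i) F P F(¼ e_j) = F e_i F P F e_j`.  The sum is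
`f P = f p`. -/
def SpecFNF : Prop :=
  ∀ (A : Type u) (B : Type v) [CStarAlgebra A] [CStarAlgebra B] (F : A → B) (_ : PHom F)
    (g e w u : A) (_ : Dec g e w u), ∃ f : A → B, Part F (1 - g) f

/-- AB1 (150 lines, from ORT).  The norm estimate.

PROOF.  Induction on the finite set `s`, the statement for all `c₀`, `a`.  `s = ∅`: `‖c₀ F a‖ ≤ ‖c₀ a‖`: if `a = 0` then `F a = 0`, otherwise
`‖a‖ = 1` and `‖F a‖ ≤ 1`.  Step: `insert p s`, `c = c p`: let `z = c₀ 1 + ∑_{s} c_i F(p_i)`, `x = c₀ 1 + ∑_{s} c_i p_i`.  `p a` and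
`(1 - p) a = a - p a` are projections with `g ..  = ..` (commutativity `com`), `F a = F(p a) + F((1 - p) a)` (`F((1 - p) a) = (1 - F p) F a`).
`(z + c F p) F a = (z + c) F(p a) + z F((1 - p) a)` (`F p F(p a) = F(p a)`, `F p F((1 - p) a) = 0`).  By induction
`‖(z + c) F(p a)‖ ≤ ‖(x + c) (p a)‖ = ‖(x + c p) a p‖ ≤ ‖(x + c p) a‖`, `‖z F((1 - p) a)‖ ≤ ‖x (1 - p) a‖ = ‖(x + c p) a (1 - p)‖ ≤ ‖(x + c p) a‖`.
ORT for `X = (z + c) F(p a)`, `Y = z F((1 - p) a)`: all the elements `F(p_i)`, `F(p)`, `F(a)` commute (`F` of commuting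
projections of `g A`: `F p F q = F(p q) = F(q p)`), so `X = F(p a) X`, `Y = F((1 - p) a) Y` and `star X Y = 0`, `X star Y = 0`. -/
def SpecAB1 : Prop :=
  ∀ (A : Type u) (B : Type v) [CStarAlgebra A] [CStarAlgebra B] (F : A → B) (_ : PHom F)
    (g : A) (_ : Pr g) (_ : ∀ x, g * x = x * g) (_ : ∀ x y, g * x * y = g * y * x)
    (s : Finset A) (_ : ∀ p ∈ s, Pr p ∧ g * p = p) (c : A → ℂ) (c₀ : ℂ) (a : A) (_ : Pr a)
    (_ : g * a = a),
    ‖(c₀ • (1 : B) + ∑ p ∈ s, c p • F p) * F a‖ ≤ ‖(c₀ • (1 : A) + ∑ p ∈ s, c p • p) * a‖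

/-- AB2 (250 lines, from APX, AB1).

PROOF.  Let `𝒫 = {p | Pr p ∧ g p = p}`, `S = span ℂ 𝒫`.  By AB1 (`c₀ = 0`, `a = g`; `F p F g = F(p g) = F p`) `‖∑ c_p F p‖ ≤ ‖∑ c_p p‖` for
finitely supported `c`, so there is a linear map `T : S → B` with `T p = F p`, `‖T x‖ ≤ ‖x‖` (the linear maps `𝒫 →₀ ℂ → A`, `→ B`;
the kernel of the first is contained in the kernel of the second; the range of the first is `S`).  Extend `T` by
continuity to the closure of `S` (`ContinuousLinearMap.extend`, or: for `x` in the closure there is a unique `z` with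
`‖z - T y‖ ≤ ‖x - y‖` for all `y ∈ S`).  By APX `g x` is in the closure for every `x`.  `f x = T(g x)`.  `add`, `smul` (even complex):
clear.  `mul`: `T(p q) = F(p q) = F p F q = T p T q` for `p`, `q ∈ 𝒫` (`p q ∈ 𝒫` by commutativity), so `T` is multiplicative on
`S` and, by continuity, on the closure; `g x y = (g x) (g y)`.  `star`: in the same way.  `fac`: `g g = g`.  `eq`: `g p ∈ 𝒫`.
The last statement: `T` is complex linear. -/
def SpecAB2 : Prop :=
  ∀ (A : Type u) (B : Type v) [CStarAlgebra A] [CStarAlgebra B] (_ : HasRann A) (F : A → B)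
    (_ : PHom F) (g : A) (_ : Pr g) (_ : ∀ x, g * x = x * g) (_ : ∀ x y, g * x * y = g * y * x),
    ∃ f : A → B, Part F g f ∧ ∀ x, f (Complex.I • x) = Complex.I • f x

/-- NRM (200 lines, from SPL).  Annihilators.

PROOF.  (1) For `a ∈ A` let `1 - r` be the annihilating projection of `{a}`: `a r = a`, and `a x = 0` iff `r x = 0`.  Claim: for `y ∈ B`:
`f a y = 0` iff `F r y = 0`.  `←`: `f a = f a f r = f a F r`.  `→`: `h = a* a`, `f h y = (f a)* f a y = 0`.  SPL for `l = 1 / (n + 1)`: `e_n`, `m_n`.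
`F(e_n) y = f(e_n) y = f(m_n m_n) f h y = 0`.  `IsRann {e_n | n} (1 - r)`: if `e_n x = 0` for all `n` then `‖h x‖ = ‖h (1 - e_n) x‖ ≤ ‖x‖ / (n + 1)`,
so `h x = 0`, `a x = 0` (`(a x)* (a x) = x* h x`), `x = (1 - r) x`; if `x = (1 - r) z` then `h x = 0`, `e_n x = m_n m_n h x = 0`.
So `IsRann {F e_n | n} (F (1 - r))` by `PHom.rann`, so `y = F(1 - r) z'`, `F r y = F r (1 - F r) z' = 0`.
(2) Let `IsRann S e`.  For `a ∈ S` let `r_a` be as in (1), `R = {r_a | a ∈ S}`.  `IsRann R e` (`r_a x = 0` iff `a x = 0`).  So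
`IsRann (F '' R) (F e)`, and by (1) `f a y = 0` for all `a ∈ S` iff `F(r_a) y = 0` for all `a ∈ S`.  `f e = F e`. -/
def SpecNRM : Prop :=
  ∀ (A : Type u) (B : Type v) [CStarAlgebra A] [CStarAlgebra B] (_ : HasRann A) (F : A → B)
    (_ : PHom F) (f : A →⋆ₐ[ℝ] B) (_ : ∀ p, Pr p → f p = F p) (S : Set A) (e : A)
    (_ : IsRann S e), IsRann (f '' S) (f e)

/-- FI1 (150 lines).

PROOF.  `f x = f₁ x + f₂ x`.  Additive, real-linear, `star`: clear.  `f₁ x f₂ y = 0`: `f₁ x = f₁(x 1) = f₁ x f₁ 1`,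
`f₁ 1 = F((1 - g) 1) = F(1 - g) = 1 - F g` (`eq` for `p = 1`), `f₂ y = f₂ 1 f₂ y`, `f₂ 1 = F g`, and `(1 - F g) F g = 0`; in the same way
`f₂ x f₁ y = 0`.  So `f` is multiplicative.  For a projection `p`: `f p = F((1 - g) p) + F(g p) = (1 - F g) F p + F g F p = F p`.
`f 1 = F 1 = 1`.  So `f` is a real *-algebra homomorphism, `f x = F x` on `P(A)` by induction (`PHom.mul`). -/
def SpecFI1 : Prop :=
  ∀ (A : Type u) (B : Type v) [CStarAlgebra A] [CStarAlgebra B] (F : A → B) (_ : PHom F)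
    (g : A) (_ : Pr g) (_ : ∀ x, g * x = x * g) (f₁ f₂ : A → B) (_ : Part F (1 - g) f₁)
    (_ : Part F g f₂),
    ∃ f : A →⋆ₐ[ℝ] B, (∀ x, f x = f₁ x + f₂ x) ∧ ∀ x ∈ projMonoid A, f x = F x

/-- FI2 (80 lines).

PROOF.  `J = f(i 1)`: `J J = f(-1) = -1`, `J* = f(-i 1) = -J`, `J f x = f(i x) = f x J`.  `c = ½ (1 - i J)`: `c c = c`, `c* = c`, `c` commutes
with `f x`, `c J = i c`, `(1 - c) J = -i (1 - c)`.  For `z = a + i b`: `f(z x) = a f x + b J f x`, multiply by
`1 = c + (1 - c)`. -/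
def SpecFI2 : Prop :=
  ∀ (A : Type u) (B : Type v) [CStarAlgebra A] [CStarAlgebra B] (f : A →⋆ₐ[ℝ] B),
    ∃ c : B, c * c = c ∧ star c = c ∧ (∀ x, c * f x = f x * c) ∧
      ∀ (z : ℂ) (x : A), f (z • x) = c * (z • f x) + (1 - c) * ((starRingEnd ℂ) z • f x)

/-- The theorem: every morphism of Baer *-semigroups extends to a real-linear *-homomorphism which preserves
annihilating projections, and it extends to a complex-linear one iff it commutes with the multiplication by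
`i` whenever this is defined. -/
def Main : Prop :=
  ∀ (A : Type u) (B : Type v) [CStarAlgebra A] [CStarAlgebra B] (_ : HasRann A) (_ : HasRann B)
    (φ : BaerHom (projMonoid A) (projMonoid B)),
    (∃ f : A →⋆ₐ[ℝ] B, (∀ x : projMonoid A, f (x : A) = (φ.toFun x : B)) ∧
      (∀ (S : Set A) (e : A), IsRann S e → IsRann (f '' S) (f e)) ∧
      ∃ c : B, c * c = c ∧ star c = c ∧ (∀ x, c * f x = f x * c) ∧
        ∀ (z : ℂ) (x : A),
          f (z • x) = c * (z • f x) + (1 - c) * ((starRingEnd ℂ) z • f x)) ∧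
    ((∃ f : A →⋆ₐ[ℂ] B, (∀ x : projMonoid A, f (x : A) = (φ.toFun x : B)) ∧
      ∀ (S : Set A) (e : A), IsRann S e → IsRann (f '' S) (f e)) ↔
      ∀ x y : projMonoid A, (y : A) = Complex.I • (x : A) →
        (φ.toFun y : B) = Complex.I • (φ.toFun x : B))

/-- FIN (200 lines, from BAS, MEM, DE2, FNF, AB2, NRM, FI1, FI2).

PROOF.  `F = tot φ`, BAS.  DE2: `g`, ..; FNF: `f₁` for `1 - g`; AB2: `f₂` for `g` (`Dec.cen`, `Dec.com`).  FI1: `f`.  NRM, FI2.
The criterion.  `→`: clear.  `←`: `f` is complex linear: let `e'` be one of `e`, `w* w`, `u u*`: there is `Half e' _` (`w`, `w*`, `u`), so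
`¼ e'`, `(i/4) e' ∈ P(A)` (MEM `dd`), `f((i/4) e') = F((i/4) e') = i F(¼ e') = i f(¼ e')`, so `f(i e') = i f(e')`.
`f(i g) = f₁(i g) + f₂(i g) = i f₂ g = i f g` (`f₁(i g) = f₁((1 - g) (i g)) = f₁ 0 = 0`, `f₁ g = 0`).  By `Dec.sum` `f(i 1) = i 1`,
`f(i x) = f(i 1) f x = i f x`. -/
def SpecFIN : Prop := Main.{u, v}

end Pool.Agent.Lib.MPdba3a1.RL
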