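import Mathlib
import Pool.Agent.Lib.MP_dba3a1_an.RL.Spec

/-!
# MP_dba3a1_an, RealLinear, module AB2: the abelian part.

The closure `Γ` of the span of the pairs `(p, F p)`, `p` a projection of `g A`, is the graph of a
*-homomorphism by the norm estimate of AB1.
-/

set_option autoImplicit false

namespace Pool.Agent.Lib.MPdba3a1.RL

universe u v

namespace AB2M

variable {A : Type u} {B : Type v} [CStarAlgebra A] [CStarAlgebra B]

/-- the pairs `(p, F p)` -/
def gen (F : A → B) (g : A) : Set (A × B) := {z | ∃ p, Pr p ∧ g * p = p ∧ z = (p, F p)}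

/-- their span -/
noncomputable def G0 (F : A → B) (g : A) : Submodule ℂ (A × B) := Submodule.span ℂ (gen F g)

/-- the closure of the span -/
noncomputable def G1 (F : A → B) (g : A) : Submodule ℂ (A × B) := (G0 F g).topologicalClosure

theorem pr_mul {g p q : A} (com : ∀ x y, g * x * y = g * y * x) (hp : Pr p) (hgp : g * p = p)
    (hq : Pr q) (hgq : g * q = q) : Pr (p * q) ∧ g * (p * q) = p * q := by
  have h1 : p * q = q * p := by
    have := com p q
    rwa [hgp, hgq] at this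
  refine ⟨⟨?_, ?_⟩, ?_⟩
  · calc p * q * (p * q) = p * (q * p) * q := by simp only [mul_assoc]
      _ = p * (p * q) * q := by rw [← h1]
      _ = (p * p) * (q * q) := by simp only [mul_assoc]
      _ = p * q := by rw [hp.1, hq.1]
  · rw [star_mul, hp.2, hq.2, ← h1]
  · rw [← mul_assoc, hgp]

theorem gen_mul {F : A → B} (hF : PHom F) {g : A} (com : ∀ x y, g * x * y = g * y * x)
    {z w : A × B} (hz : z ∈ gen F g) (hw : w ∈ gen F g) : z * w ∈ gen F g := by
  obtain ⟨p, hp, hgp, rfl⟩ := hz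
  obtain ⟨q, hq, hgq, rfl⟩ := hw
  refine ⟨p * q, (pr_mul com hp hgp hq hgq).1, (pr_mul com hp hgp hq hgq).2, ?_⟩
  rw [Prod.mk_mul_mk, hF.mul p (proj_mem hp.1 hp.2) q (proj_mem hq.1 hq.2)]

theorem g0_mul {F : A → B} (hF : PHom F) {g : A} (com : ∀ x y, g * x * y = g * y * x)
    {z w : A × B} (hz : z ∈ G0 F g) (hw : w ∈ G0 F g) : z * w ∈ G0 F g := by
  have h1 : z * w ∈ G0 F g * G0 F g := Submodule.mul_mem_mul hz hw
  unfold G0 at h1 ⊢
  rw [Submodule.span_mul_span] at h1
  refine Submodule.span_mono ?_ h1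
  rintro _ ⟨a, ha, b, hb, rfl⟩
  exact gen_mul hF com ha hb

theorem g0_star {F : A → B} (hF : PHom F) {g : A} {z : A × B} (hz : z ∈ G0 F g) :
    star z ∈ G0 F g := by
  unfold G0 at hz ⊢
  induction hz using Submodule.span_induction with
  | mem z hz =>
    obtain ⟨p, hp, hgp, rfl⟩ := hz
    refine Submodule.subset_span ⟨p, hp, hgp, ?_⟩
    have h1 : star (F p) = F p := by
      rw [← hF.star p (proj_mem hp.1 hp.2), hp.2]
    rw [Prod.star_def]
    simp only [hp.2, h1]
  | zero => rw [star_zero]; exact Submodule.zero_mem _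
  | add x y _ _ hx hy => rw [star_add]; exact Submodule.add_mem _ hx hy
  | smul a x _ hx => rw [star_smul]; exact Submodule.smul_mem _ _ hx

theorem g1_mul {F : A → B} (hF : PHom F) {g : A} (com : ∀ x y, g * x * y = g * y * x)
    {z w : A × B} (hz : z ∈ G1 F g) (hw : w ∈ G1 F g) : z * w ∈ G1 F g :=
  map_mem_closure₂ continuous_mul hz hw (fun _ ha _ hb => g0_mul hF com ha hb)

theorem g1_star {F : A → B} (hF : PHom F) {g : A} {z : A × B} (hz : z ∈ G1 F g) :
    star z ∈ G1 F g :=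
  map_mem_closure continuous_star hz (fun _ ha => g0_star hF ha)

theorem g0_norm (h2 : SpecAB1.{u, v}) {F : A → B} (hF : PHom F) {g : A} (hg : Pr g)
    (cen : ∀ x, g * x = x * g) (com : ∀ x y, g * x * y = g * y * x)
    {z : A × B} (hz : z ∈ G0 F g) : ‖z.2‖ ≤ ‖z.1‖ := by
  classical
  have hr : gen F g = Set.range (fun p : {p : A // Pr p ∧ g * p = p} => ((p.1, F p.1) : A × B)) := by
    ext z
    constructor
    · rintro ⟨p, hp, hgp, rfl⟩
      exact ⟨⟨p, hp, hgp⟩, rfl⟩
    · rintro ⟨⟨p, hp, hgp⟩, rfl⟩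
      exact ⟨p, hp, hgp, rfl⟩
  unfold G0 at hz
  rw [hr, Finsupp.mem_span_range_iff_exists_finsupp] at hz
  obtain ⟨c, hc⟩ := hz
  set c' : A → ℂ := fun x => if h : Pr x ∧ g * x = x then c ⟨x, h⟩ else 0 with hc'
  set s : Finset A := c.support.map ⟨Subtype.val, Subtype.val_injective⟩ with hs
  have hcc : ∀ q : {p : A // Pr p ∧ g * p = p}, c' q.1 = c q := by
    intro q
    simp only [hc']
    rw [dif_pos q.2]
  have e1 : z.1 = ∑ p ∈ s, c' p • p := by
    rw [hs, Finset.sum_map, ← hc, Finsupp.sum, Prod.fst_sum]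
    refine Finset.sum_congr rfl (fun q _ => ?_)
    simp only [Function.Embedding.coeFn_mk, hcc, Prod.smul_fst]
  have e2 : z.2 = ∑ p ∈ s, c' p • F p := by
    rw [hs, Finset.sum_map, ← hc, Finsupp.sum, Prod.snd_sum]
    refine Finset.sum_congr rfl (fun q _ => ?_)
    simp only [Function.Embedding.coeFn_mk, hcc, Prod.smul_snd]
  have hsp : ∀ p ∈ s, Pr p ∧ g * p = p := by
    intro p hp
    rw [hs, Finset.mem_map] at hp
    obtain ⟨q, _, rfl⟩ := hp
    exact q.2
  have key := h2 A B F hF g hg cen com s hsp c' 0 g hg hg.1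
  rw [zero_smul, zero_add, zero_smul, zero_add, Finset.sum_mul, Finset.sum_mul] at key
  have k1 : ∑ p ∈ s, c' p • F p * F g = z.2 := by
    rw [e2]
    refine Finset.sum_congr rfl (fun p hp => ?_)
    have h3 := hsp p hp
    rw [smul_mul_assoc, ← hF.mul p (proj_mem h3.1.1 h3.1.2) g (proj_mem hg.1 hg.2), ← cen p, h3.2]
  have k2 : ∑ p ∈ s, c' p • p * g = z.1 := by
    rw [e1]
    refine Finset.sum_congr rfl (fun p hp => ?_)
    have h3 := hsp p hp
    rw [smul_mul_assoc, ← cen p, h3.2]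
  rwa [k1, k2] at key

theorem g1_norm (h2 : SpecAB1.{u, v}) {F : A → B} (hF : PHom F) {g : A} (hg : Pr g)
    (cen : ∀ x, g * x = x * g) (com : ∀ x y, g * x * y = g * y * x)
    {z : A × B} (hz : z ∈ G1 F g) : ‖z.2‖ ≤ ‖z.1‖ := by
  have hcl : IsClosed {z : A × B | ‖z.2‖ ≤ ‖z.1‖} :=
    isClosed_le (continuous_norm.comp continuous_snd) (continuous_norm.comp continuous_fst)
  exact closure_minimal (fun _ hw => g0_norm h2 hF hg cen com hw) hcl hz

theorem g1_unique (h2 : SpecAB1.{u, v}) {F : A → B} (hF : PHom F) {g : A} (hg : Pr g)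
    (cen : ∀ x, g * x = x * g) (com : ∀ x y, g * x * y = g * y * x)
    {x : A} {y y' : B} (h : (x, y) ∈ G1 F g) (h' : (x, y') ∈ G1 F g) : y = y' := by
  have h3 : ((x, y) - (x, y') : A × B) ∈ G1 F g := Submodule.sub_mem _ h h'
  have h4 := g1_norm h2 hF hg cen com h3
  simp only [Prod.fst_sub, Prod.snd_sub, sub_self, norm_zero] at h4
  exact sub_eq_zero.1 (norm_le_zero_iff.1 h4)

theorem g0_exists {F : A → B} {g : A} {x : A}
    (hx : x ∈ Submodule.span ℂ {p : A | Pr p ∧ g * p = p}) : ∃ y : B, (x, y) ∈ G0 F g := by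
  induction hx using Submodule.span_induction with
  | mem p hp => exact ⟨F p, Submodule.subset_span ⟨p, hp.1, hp.2, rfl⟩⟩
  | zero => exact ⟨0, Submodule.zero_mem _⟩
  | add x y _ _ hx hy =>
    obtain ⟨a, ha⟩ := hx
    obtain ⟨b, hb⟩ := hy
    exact ⟨a + b, Submodule.add_mem _ ha hb⟩
  | smul c x _ hx =>
    obtain ⟨a, ha⟩ := hx
    exact ⟨c • a, Submodule.smul_mem _ c ha⟩

theorem g1_exists (h2 : SpecAB1.{u, v}) {F : A → B} (hF : PHom F) {g : A} (hg : Pr g)
    (cen : ∀ x, g * x = x * g) (com : ∀ x y, g * x * y = g * y * x) {x : A}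
    (hx : x ∈ closure ((Submodule.span ℂ {p : A | Pr p ∧ g * p = p} : Submodule ℂ A) : Set A)) :
    ∃ y : B, (x, y) ∈ G1 F g := by
  obtain ⟨a, ha, hlim⟩ := mem_closure_iff_seq_limit.1 hx
  choose b hb using fun n => g0_exists (F := F) (ha n)
  have hd : ∀ m n, dist (b m) (b n) ≤ dist (a m) (a n) := by
    intro m n
    rw [dist_eq_norm, dist_eq_norm]
    have h3 : ((a m, b m) - (a n, b n) : A × B) ∈ G0 F g := Submodule.sub_mem _ (hb m) (hb n)
    exact g0_norm h2 hF hg cen com h3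
  have hca : CauchySeq a := hlim.cauchySeq
  have hcb : CauchySeq b := by
    rw [Metric.cauchySeq_iff] at hca ⊢
    intro ε hε
    obtain ⟨N, hN⟩ := hca ε hε
    exact ⟨N, fun m hm n hn => (hd m n).trans_lt (hN m hm n hn)⟩
  obtain ⟨y, hy⟩ := cauchySeq_tendsto_of_complete hcb
  refine ⟨y, ?_⟩
  exact mem_closure_of_tendsto (hlim.prodMk_nhds hy) (Filter.Eventually.of_forall hb)

end AB2M

open AB2M in
/-- **AB2.** -/
theorem specAB2 (h1 : SpecAPX.{u}) (h2 : SpecAB1.{u, v}) : SpecAB2.{u, v} := by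
  intro A B _ _ hA F hF g hg cen com
  have hin : ∀ x : A, In g (g * x) := by
    intro x
    refine ⟨by rw [← mul_assoc, hg.1], ?_⟩
    rw [mul_assoc, ← cen x, ← mul_assoc, hg.1]
  have hex : ∀ x : A, ∃ y : B, (g * x, y) ∈ G1 F g := fun x =>
    g1_exists h2 hF hg cen com (h1 A hA g (g * x) hg (hin x))
  choose f hf using hex
  have huq : ∀ (x : A) (y : B), (g * x, y) ∈ G1 F g → f x = y := fun x y hy =>
    g1_unique h2 hF hg cen com (hf x) hy
  have hsm : ∀ (c : ℂ) (x : A), f (c • x) = c • f x := by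
    intro c x
    refine huq _ _ ?_
    have h3 := Submodule.smul_mem (G1 F g) c (hf x)
    rw [Prod.smul_mk] at h3
    rwa [mul_smul_comm]
  refine ⟨f, ⟨?_, ?_, ?_, ?_, ?_, ?_⟩, fun x => hsm _ x⟩
  · intro x y
    refine huq _ _ ?_
    have h3 := Submodule.add_mem (G1 F g) (hf x) (hf y)
    rw [Prod.mk_add_mk] at h3
    rwa [mul_add]
  · intro t x
    have h3 := hsm (t : ℂ) x
    rwa [Complex.coe_smul, Complex.coe_smul] at h3
  · intro x y
    refine huq _ _ ?_
    have h3 := g1_mul hF com (hf x) (hf y)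
    rw [Prod.mk_mul_mk] at h3
    have h4 : g * x * (g * y) = g * (x * y) := by
      calc g * x * (g * y) = g * (x * g) * y := by simp only [mul_assoc]
        _ = g * (g * x) * y := by rw [← cen x]
        _ = (g * g) * (x * y) := by simp only [mul_assoc]
        _ = g * (x * y) := by rw [hg.1]
    rwa [h4] at h3
  · intro x
    refine huq _ _ ?_
    have h3 := g1_star hF (hf x)
    rw [Prod.star_def] at h3
    simp only [star_mul, hg.2] at h3
    rwa [cen (star x)]
  · intro x
    refine huq _ _ ?_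
    rw [← mul_assoc, hg.1]
    exact hf x
  · intro p hp
    refine huq _ _ ?_
    have h3 : Pr (g * p) := by
      refine ⟨?_, ?_⟩
      · calc g * p * (g * p) = g * (p * g) * p := by simp only [mul_assoc]
          _ = g * (g * p) * p := by rw [← cen p]
          _ = (g * g) * (p * p) := by simp only [mul_assoc]
          _ = g * p := by rw [hg.1, hp.1]
      · rw [star_mul, hp.2, hg.2, cen p]
    exact subset_closure (Submodule.subset_span ⟨g * p, h3, by rw [← mul_assoc, hg.1], rfl⟩)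

end Pool.Agent.Lib.MPdba3a1.RL
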