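import Pool.Agent.Lib.MP_dba3a1_an.RL.Spec

/-!
# ADD: the sum of a family of partial isometries
-/

set_option autoImplicit false
set_option linter.unusedSimpArgs false

namespace Pool.Agent.Lib.MPdba3a1.RL

universe u

namespace ADDM

variable {A : Type u} [CStarAlgebra A]

/-- The right support of a set. -/
theorem exists_supp (h : HasRann A) (S : Set A) :
    ∃ q : A, Pr q ∧ IsRann S (1 - q) ∧ (∀ x ∈ S, x * q = x) ∧
      ∀ y, (∀ x ∈ S, x * y = 0) → q * y = 0 := by
  obtain ⟨e, he, hs, hy⟩ := h S
  have h1 : (1 : A) - (1 - e) = e := sub_sub_cancel 1 e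
  refine ⟨1 - e, ⟨?_, ?_⟩, ?_, ?_, ?_⟩
  · rw [mul_sub, mul_one, sub_mul, one_mul, he, sub_self, sub_zero]
  · rw [star_sub, star_one, hs]
  · rw [h1]
    exact ⟨he, hs, hy⟩
  · intro x hx
    have := (hy e).2 ⟨1, (mul_one e).symm⟩ x hx
    rw [mul_sub, mul_one, this, sub_zero]
  · intro y hxy
    obtain ⟨z, rfl⟩ := (hy y).1 hxy
    rw [sub_mul, one_mul, ← mul_assoc, he, sub_self]

/-- `v v* + v* v`. -/
def sv (v : A) : A := v * star v + star v * v

/-- `v v* + v* v + v + v*`. -/
def gv (v : A) : A := v * star v + star v * v + v + star v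

theorem star_sv (v : A) : star (sv v) = sv v := by
  simp [sv, star_add, star_mul]

theorem star_gv (v : A) : star (gv v) = gv v := by
  simp only [gv, star_add, star_mul, star_star]
  abel

section one

variable {v : A} (h : v * star v * v = v) (h0 : v * v = 0)

include h in
theorem e1 : v * (star v * v) = v := by rw [← mul_assoc, h]

include h in
theorem e2 : star v * (v * star v) = star v := by
  have := congrArg star h
  simpa [star_mul, mul_assoc] using this

include h0 in
theorem e3 : star v * star v = 0 := by rw [← star_mul, h0, star_zero]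

include h h0 in
theorem gv_gv : gv v * gv v = gv v + gv v := by
  have a1 := e1 h
  have a2 := e2 h
  have a3 := e3 h0
  have b1 : ∀ x, v * (star v * (v * x)) = v * x := fun x => by
    rw [← mul_assoc (star v), ← mul_assoc v, a1]
  have b2 : ∀ x, star v * (v * (star v * x)) = star v * x := fun x => by
    rw [← mul_assoc v, ← mul_assoc (star v), a2]
  have b3 : ∀ x, star v * (star v * x) = 0 := fun x => by
    rw [← mul_assoc, a3, zero_mul]
  have b0 : ∀ x, v * (v * x) = 0 := fun x => by
    rw [← mul_assoc, h0, zero_mul]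
  simp only [gv, mul_add, add_mul, mul_assoc, a1, a2, a3, h0, b0, b1, b2, b3, add_zero, zero_add,
    mul_zero]
  abel

include h h0 in
theorem gv_sv : gv v * sv v = gv v := by
  have a1 := e1 h
  have a2 := e2 h
  have a3 := e3 h0
  have b1 : ∀ x, v * (star v * (v * x)) = v * x := fun x => by
    rw [← mul_assoc (star v), ← mul_assoc v, a1]
  have b2 : ∀ x, star v * (v * (star v * x)) = star v * x := fun x => by
    rw [← mul_assoc v, ← mul_assoc (star v), a2]
  have b3 : ∀ x, star v * (star v * x) = 0 := fun x => by
    rw [← mul_assoc, a3, zero_mul]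
  have b0 : ∀ x, v * (v * x) = 0 := fun x => by
    rw [← mul_assoc, h0, zero_mul]
  simp only [gv, sv, mul_add, add_mul, mul_assoc, a1, a2, a3, h0, b0, b1, b2, b3, add_zero,
    zero_add, mul_zero]
  abel

include h h0 in
theorem sv_q : sv v * (star v * v) = star v * v := by
  have a1 := e1 h
  have a2 := e2 h
  have a3 := e3 h0
  have b3 : ∀ x, star v * (star v * x) = 0 := fun x => by
    rw [← mul_assoc, a3, zero_mul]
  simp only [sv, add_mul, mul_assoc, a1, b3, add_zero, zero_add, mul_zero]

include h h0 in
theorem p_sv : v * star v * sv v = v * star v := by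
  have a1 := e1 h
  have a2 := e2 h
  have a3 := e3 h0
  have b3 : ∀ x, star v * (star v * x) = 0 := fun x => by
    rw [← mul_assoc, a3, zero_mul]
  simp only [sv, mul_add, mul_assoc, a2, b3, add_zero, mul_zero]

include h h0 in
theorem gv_q : gv v * (star v * v) = star v * v + v := by
  have a1 := e1 h
  have a2 := e2 h
  have a3 := e3 h0
  have b3 : ∀ x, star v * (star v * x) = 0 := fun x => by
    rw [← mul_assoc, a3, zero_mul]
  simp only [gv, add_mul, mul_assoc, a1, b3, add_zero, zero_add, mul_zero]

include h h0 in
theorem p_gv : v * star v * gv v = v * star v + v := by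
  have a1 := e1 h
  have a2 := e2 h
  have a3 := e3 h0
  have b3 : ∀ x, star v * (star v * x) = 0 := fun x => by
    rw [← mul_assoc, a3, zero_mul]
  simp only [gv, mul_add, mul_assoc, a1, a2, a3, b3, add_zero, mul_zero]

end one

/-- Orthogonality of two different members. -/
theorem gv_cross {v w : A} (h1 : w * v = 0) (h2 : star w * v = 0) (h3 : w * star v = 0)
    (h4 : star w * star v = 0) : gv w * gv v = 0 ∧ gv w * sv v = 0 := by
  have b1 : ∀ x, w * (v * x) = 0 := fun x => by rw [← mul_assoc, h1, zero_mul]
  have b2 : ∀ x, star w * (v * x) = 0 := fun x => by rw [← mul_assoc, h2, zero_mul]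
  have b3 : ∀ x, w * (star v * x) = 0 := fun x => by rw [← mul_assoc, h3, zero_mul]
  have b4 : ∀ x, star w * (star v * x) = 0 := fun x => by rw [← mul_assoc, h4, zero_mul]
  constructor
  · simp only [gv, mul_add, add_mul, mul_assoc, h1, h2, h3, h4, b1, b2, b3, b4, add_zero, mul_zero]
  · simp only [gv, sv, mul_add, add_mul, mul_assoc, b1, b2, b3, b4, add_zero,
      mul_zero]

end ADDM

open ADDM in
/-- The sum of a family of partial isometries. -/
theorem specADD : SpecADD.{u} := by
  intro A _ hA V hV
  obtain ⟨q, hq, hqr, hq1, hq2⟩ := exists_supp hA V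
  obtain ⟨p, hp, hpr, hp1, hp2⟩ := exists_supp hA ((fun v => star v) '' V)
  obtain ⟨G, hG, -, hG1, hG2⟩ := exists_supp hA (gv '' V)
  have hvv : ∀ v ∈ V, v * v = 0 := fun v hv => hV.mm v hv v hv
  -- supports
  have vq : ∀ v ∈ V, v * q = v := hq1
  have qv : ∀ v ∈ V, q * star v = star v := fun v hv => by
    have := congrArg star (vq v hv)
    rwa [star_mul, hq.2] at this
  have vp : ∀ v ∈ V, star v * p = star v := fun v hv => hp1 _ ⟨v, hv, rfl⟩
  have pv : ∀ v ∈ V, p * v = v := fun v hv => by
    have := congrArg star (vp v hv)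
    rwa [star_mul, hp.2, star_star] at this
  -- `q p_v = 0`, `p q = 0`
  have q_pv : ∀ v ∈ V, q * v = 0 := fun v hv => hq2 v fun v' hv' => hV.mm v' hv' v hv
  have pv_q : ∀ v ∈ V, star v * q = 0 := fun v hv => by
    have := congrArg star (q_pv v hv)
    rwa [star_mul, hq.2, star_zero] at this
  have pq : p * q = 0 := hp2 q (by
    rintro _ ⟨v, hv, rfl⟩
    exact pv_q v hv)
  have qp : q * p = 0 := by
    have := congrArg star pq
    rwa [star_mul, hq.2, hp.2, star_zero] at this
  -- `H = 2 G`
  have hGg : ∀ v ∈ V, G * gv v = gv v := fun v hv => by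
    have := congrArg star (hG1 (gv v) ⟨v, hv, rfl⟩)
    rwa [star_mul, hG.2, star_gv] at this
  have hGs : ∀ v ∈ V, (G + G) * sv v = gv v := fun v hv => by
    have h1 : G * (sv v + sv v - gv v) = 0 := by
      apply hG2
      rintro _ ⟨v', hv', rfl⟩
      by_cases hvv' : v' = v
      · subst hvv'
        rw [mul_sub, mul_add, gv_sv (hV.pi _ hv) (hvv _ hv), gv_gv (hV.pi _ hv) (hvv _ hv),
          sub_self]
      · obtain ⟨c1, c2⟩ := gv_cross (v := v) (w := v') (hV.mm v' hv' v hv)
          (hV.ss v' hv' v hv hvv').1 (hV.ss v' hv' v hv hvv').2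
          (by rw [← star_mul, hV.mm v hv v' hv', star_zero])
        rw [mul_sub, mul_add, c1, c2, add_zero, sub_zero]
    rw [mul_sub, mul_add, hGg v hv, sub_eq_zero] at h1
    rw [add_mul, h1]
  have hsG : ∀ v ∈ V, sv v * (G + G) = gv v := fun v hv => by
    have := congrArg star (hGs v hv)
    rwa [star_mul, star_gv, star_sv, star_add, hG.2] at this
  obtain ⟨H, hH⟩ : ∃ H : A, H = G + G := ⟨_, rfl⟩
  rw [← hH] at hGs hsG
  have hHs : star H = H := by rw [hH, star_add, hG.2]
  -- `w`
  obtain ⟨w, hw⟩ : ∃ w : A, w = p * H * q := ⟨_, rfl⟩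
  have wq : w * q = w := by rw [hw, mul_assoc, hq.1]
  have pw : p * w = w := by rw [hw, ← mul_assoc, ← mul_assoc, hp.1]
  have w_qv : ∀ v ∈ V, w * (star v * v) = v := fun v hv => by
    have h1 : q * (star v * v) = star v * v := by rw [← mul_assoc, qv v hv]
    have h2 : H * (star v * v) = star v * v + v := by
      calc H * (star v * v) = H * (sv v * (star v * v)) := by
            rw [sv_q (hV.pi _ hv) (hvv _ hv)]
        _ = star v * v + v := by
            rw [← mul_assoc, hGs v hv, gv_q (hV.pi _ hv) (hvv _ hv)]
    have h3 : p * (star v * v) = 0 := by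
      rw [← h1, ← mul_assoc, pq, zero_mul]
    rw [hw, mul_assoc, h1, mul_assoc, h2, mul_add, h3, zero_add, pv v hv]
  have pv_w : ∀ v ∈ V, v * star v * w = v := fun v hv => by
    have h1 : v * star v * p = v * star v := by rw [mul_assoc, vp v hv]
    have h2 : v * star v * H = v * star v + v := by
      calc v * star v * H = v * star v * sv v * H := by
            rw [p_sv (hV.pi _ hv) (hvv _ hv)]
        _ = v * star v + v := by
            rw [mul_assoc, hsG v hv, p_gv (hV.pi _ hv) (hvv _ hv)]
    have h3 : v * star v * q = 0 := by rw [mul_assoc, pv_q v hv, mul_zero]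
    rw [hw, ← mul_assoc, ← mul_assoc, h1, h2, add_mul, h3, zero_add, vq v hv]
  -- `w* w = q`
  have ws_v : ∀ v ∈ V, star w * v = star v * v := fun v hv => by
    have h1 : star w * (v * star v) = star v := by
      have := congrArg star (pv_w v hv)
      rwa [star_mul, star_mul, star_star] at this
    calc star w * v = star w * (v * star v * v) := by rw [hV.pi v hv]
      _ = star w * (v * star v) * v := by simp only [mul_assoc]
      _ = star v * v := by rw [h1]
  have ww' : star w * w = q := by
    have h1 : q * (star w * w - q) = 0 := by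
      apply hq2
      intro v hv
      have h2 : (star w * w - q) * (star v * v) = 0 := by
        rw [sub_mul, mul_assoc, w_qv v hv, ws_v v hv, ← mul_assoc, qv v hv, sub_self]
      have h3 : (star w * w - q) * star v = 0 := by
        have h4 : star v = star v * v * star v := by
          rw [mul_assoc, e2 (hV.pi v hv)]
        rw [h4, ← mul_assoc, h2, zero_mul]
      have h5 := congrArg star h3
      rwa [star_mul, star_star, star_sub, star_mul, star_star, hq.2, star_zero] at h5
    have h6 : q * star w = star w := by
      have := congrArg star wq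
      rwa [star_mul, hq.2] at this
    rw [mul_sub, ← mul_assoc, h6, hq.1, sub_eq_zero] at h1
    exact h1
  -- `w w* = p`
  have w_vs : ∀ v ∈ V, v * star w = v * star v := fun v hv => by
    have h1 : star v * v * star w = star v := by
      have := congrArg star (w_qv v hv)
      rwa [star_mul, star_mul, star_star] at this
    calc v * star w = v * star v * v * star w := by rw [hV.pi v hv]
      _ = v * (star v * v * star w) := by simp only [mul_assoc]
      _ = v * star v := by rw [h1]
  have ww : w * star w = p := by
    have h1 : p * (w * star w - p) = 0 := by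
      apply hp2
      rintro _ ⟨v, hv, rfl⟩
      have h2 : v * star v * (w * star w - p) = 0 := by
        rw [mul_sub, ← mul_assoc, pv_w v hv, w_vs v hv, mul_assoc, vp v hv, sub_self]
      have h4 : star v = star v * (v * star v) := (e2 (hV.pi v hv)).symm
      show star v * (w * star w - p) = 0
      rw [h4, mul_assoc, h2, mul_zero]
    rw [mul_sub, ← mul_assoc, pw, hp.1, sub_eq_zero] at h1
    exact h1
  refine ⟨w, p, q, hp, hq, ww, ww', ?_, hqr, hpr⟩
  calc w * w = w * q * (p * w) := by rw [wq, pw]
    _ = w * (q * p) * w := by simp only [mul_assoc]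
    _ = 0 := by rw [qp, mul_zero, zero_mul]

end Pool.Agent.Lib.MPdba3a1.RL
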