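import Pool.Agent.Lib.MP_dba3a1_an.RL.Spec

/-!
# RealLinear, module APX: the corner `e A e` is the closed span of the projections below `e`
-/

set_option autoImplicit false

namespace Pool.Agent.Lib.MPdba3a1.RL

universe u

namespace APXM

variable {A : Type u} [CStarAlgebra A]

/-- The iteration of the spectral lemma. -/
theorem approx (hS : SpecSPL.{u}) (hA : HasRann A) {e : A} (he : Pr e) (n : ℕ) :
    ∀ (a : A) (c : ℝ), 0 < c → In e (star a * a) → ‖star a * a‖ ≤ c →
      ∃ y ∈ (Submodule.span ℂ {p : A | Pr p ∧ e * p = p} : Submodule ℂ A),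
        ‖star a * a - y‖ ≤ c * (3 / 4) ^ n := by
  induction n with
  | zero =>
    intro a c _ _ hn
    exact ⟨0, Submodule.zero_mem _, by simpa using hn⟩
  | succ n ih =>
    intro a c hc hin hn
    obtain ⟨p, m, hs⟩ := hS A hA a (c / 2) (by positivity)
    have hpe : p * e = p := by
      rw [← hs.inv, mul_assoc, hin.2]
    have hep : e * p = p := by
      have := congrArg star hpe
      rwa [star_mul, he.2, hs.pr.2] at this
    obtain ⟨b, hb⟩ := hs.sub
    have hin' : In e (star b * b) := by
      rw [← hb]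
      constructor
      · rw [mul_sub, hin.1, mul_smul_comm, hep]
      · rw [sub_mul, hin.2, smul_mul_assoc, hpe]
    have hn' : ‖star b * b‖ ≤ 3 / 4 * c := by
      rw [← hb]
      have h1 := hs.nrm (by linarith)
      refine (sq_le_sq₀ (norm_nonneg _) (by positivity)).1 ?_
      nlinarith [sq_nonneg c]
    obtain ⟨y, hy, hyn⟩ := ih b (3 / 4 * c) (by positivity) hin' hn'
    refine ⟨(c / 2) • p + y, Submodule.add_mem _ ?_ hy, ?_⟩
    · have : ((c / 2 : ℝ) • p : A) = (((c / 2 : ℝ) : ℂ)) • p := (Complex.coe_smul _ _).symm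
      rw [this]
      exact Submodule.smul_mem _ _ (Submodule.subset_span ⟨hs.pr, hep⟩)
    · have h2 : star a * a - ((c / 2) • p + y) = star b * b - y := by
        rw [← hb]; abel
      rw [h2]
      refine hyn.trans (le_of_eq ?_)
      ring

theorem pos_mem (hS : SpecSPL.{u}) (hA : HasRann A) {e : A} (he : Pr e) (a : A)
    (hin : In e (star a * a)) :
    star a * a ∈ (Submodule.span ℂ {p : A | Pr p ∧ e * p = p} : Submodule ℂ A).topologicalClosure := by
  change _ ∈ closure _
  rw [Metric.mem_closure_iff]
  intro ε hε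
  set c : ℝ := ‖star a * a‖ + 1 with hcdef
  have hc : 0 < c := by positivity
  obtain ⟨n, hn⟩ := exists_pow_lt_of_lt_one (show (0 : ℝ) < ε / c by positivity)
    (show (3 / 4 : ℝ) < 1 by norm_num)
  obtain ⟨y, hy, hyn⟩ := approx hS hA he n a c hc hin (by linarith)
  refine ⟨y, hy, ?_⟩
  rw [dist_eq_norm]
  refine lt_of_le_of_lt hyn ?_
  calc c * (3 / 4) ^ n < c * (ε / c) := by
        exact mul_lt_mul_of_pos_left hn hc
    _ = ε := by field_simp

theorem pol_mem (hS : SpecSPL.{u}) (hA : HasRann A) {e x : A} (he : Pr e) (hx : In e x) (z : ℂ) :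
    star (x + z • e) * (x + z • e) ∈
      (Submodule.span ℂ {p : A | Pr p ∧ e * p = p} : Submodule ℂ A).topologicalClosure := by
  refine pos_mem hS hA he _ ?_
  have h1 : (x + z • e) * e = x + z • e := by
    rw [add_mul, hx.2, smul_mul_assoc, he.1]
  constructor
  · rw [← mul_assoc]
    congr 1
    have := congrArg star h1
    rwa [star_mul, he.2] at this
  · rw [mul_assoc, h1]

theorem pol_eq {e x : A} (he : Pr e) (hx : In e x) (z : ℂ) :
    star (x + z • e) * (x + z • e) =
      star x * x + z • star x + star z • x + (star z * z) • e := by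
  have h2 : star x * e = star x := by
    have := congrArg star hx.1
    rwa [star_mul, he.2] at this
  rw [star_add, star_smul, he.2, add_mul, mul_add, mul_add, smul_mul_assoc, smul_mul_assoc,
    mul_smul_comm, mul_smul_comm, h2, hx.1, he.1, smul_smul]
  abel

end APXM

open APXM in
theorem specAPX (hS : SpecSPL.{u}) : SpecAPX.{u} := by
  intro A _ hA e x he hx
  set S := (Submodule.span ℂ {p : A | Pr p ∧ e * p = p} : Submodule ℂ A).topologicalClosure with hSd
  change x ∈ S
  have key : x = (4⁻¹ : ℂ) • ((1 : ℂ) • (star (x + (1 : ℂ) • e) * (x + (1 : ℂ) • e)) +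
      Complex.I • (star (x + Complex.I • e) * (x + Complex.I • e)) +
      (-1 : ℂ) • (star (x + (-1 : ℂ) • e) * (x + (-1 : ℂ) • e)) +
      (-Complex.I) • (star (x + (-Complex.I) • e) * (x + (-Complex.I) • e))) := by
    simp only [pol_eq he hx]
    simp only [smul_add, smul_smul]
    have hI : Complex.I * Complex.I = -1 := Complex.I_mul_I
    have hs : star Complex.I = -Complex.I := Complex.conj_I
    have hsn : star (-Complex.I) = Complex.I := by rw [star_neg, hs, neg_neg]
    simp only [hs, hsn, star_one, star_neg]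
    match_scalars <;> (ring_nf; try (simp only [Complex.I_sq]; norm_num))
  rw [key]
  refine S.smul_mem _ (S.add_mem (S.add_mem (S.add_mem ?_ ?_) ?_) ?_)
  · exact S.smul_mem _ (pol_mem hS hA he hx _)
  · exact S.smul_mem _ (pol_mem hS hA he hx _)
  · exact S.smul_mem _ (pol_mem hS hA he hx _)
  · exact S.smul_mem _ (pol_mem hS hA he hx _)

end Pool.Agent.Lib.MPdba3a1.RL
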