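import Pool.Agent.Lib.MP_dba3a1_an.RL.Spec

/-!
# MP_dba3a1_an, RealLinear, module BAS (helper84)
-/

set_option autoImplicit false

namespace Pool.Agent.Lib.MPdba3a1.RL

universe u v

namespace BASM

variable {A : Type u} {B : Type v} [CStarAlgebra A] [CStarAlgebra B]

theorem rann_unique {M : Type u} [Semigroup M] [Zero M] [StarMul M] {S : Set M} {e f : M}
    (he : IsRann S e) (hf : IsRann S f) : e = f := by
  obtain ⟨e1, e2, e3⟩ := he
  obtain ⟨f1, f2, f3⟩ := hf
  obtain ⟨z, hz⟩ := (f3 e).1 ((e3 e).2 ⟨e, e1.symm⟩)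
  obtain ⟨w, hw⟩ := (e3 f).1 ((f3 f).2 ⟨f, f1.symm⟩)
  have h1 : f * e = e := by rw [hz, ← mul_assoc, f1]
  have h2 : e * f = f := by rw [hw, ← mul_assoc, e1]
  calc e = star e := e2.symm
    _ = star (f * e) := by rw [h1]
    _ = star e * star f := star_mul _ _
    _ = e * f := by rw [e2, f2]
    _ = f := h2

theorem rann_unique_proj {S : Set (projMonoid A)} {e f : projMonoid A}
    (he : IsRann S e) (hf : IsRann S f) : e = f := by
  obtain ⟨e1, e2, e3⟩ := he
  obtain ⟨f1, f2, f3⟩ := hf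
  obtain ⟨z, hz⟩ := (f3 e).1 ((e3 e).2 ⟨e, e1.symm⟩)
  obtain ⟨w, hw⟩ := (e3 f).1 ((f3 f).2 ⟨f, f1.symm⟩)
  have h1 : f * e = e := by rw [hz, ← mul_assoc, f1]
  have h2 : e * f = f := by rw [hw, ← mul_assoc, e1]
  have e2' : star (e : A) = e := congrArg Subtype.val e2
  have f2' : star (f : A) = f := congrArg Subtype.val f2
  have h1' : (f : A) * e = e := congrArg Subtype.val h1
  have h2' : (e : A) * f = f := congrArg Subtype.val h2
  apply Subtype.ext
  calc (e : A) = star (e : A) := e2'.symm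
    _ = star ((f : A) * e) := by rw [h1']
    _ = star (e : A) * star (f : A) := star_mul _ _
    _ = e * f := by rw [e2', f2']
    _ = f := h2'

theorem down {S : Set A} {e : A} (hS : S ⊆ projMonoid A) (h : IsRann S e) :
    IsRann {x : projMonoid A | (x : A) ∈ S} (⟨e, proj_mem h.1 h.2.1⟩ : projMonoid A) := by
  refine ⟨Subtype.ext h.1, Subtype.ext h.2.1, fun y => ⟨fun hy => ⟨y, Subtype.ext ?_⟩, ?_⟩⟩
  · obtain ⟨z, hz⟩ := (h.2.2 (y : A)).1 fun x hx =>
      congrArg Subtype.val (hy ⟨x, hS hx⟩ hx)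
    change (y : A) = e * y
    rw [hz, ← mul_assoc, h.1]
  · rintro ⟨z, rfl⟩ x hx
    exact Subtype.ext ((h.2.2 _).2 ⟨(z : A), rfl⟩ (x : A) hx)

theorem tot_of {φ : projMonoid A → projMonoid B} {x : A} (hx : x ∈ projMonoid A) :
    tot φ x = (φ ⟨x, hx⟩ : B) := by
  simp [tot, hx]

theorem tot_mem (φ : projMonoid A → projMonoid B) (x : A) : tot φ x ∈ projMonoid B := by
  by_cases hx : x ∈ projMonoid A
  · rw [tot_of hx]
    exact (φ ⟨x, hx⟩).2
  · simp only [tot, hx, dif_neg, not_false_eq_true]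
    exact zero_mem'

theorem norm_le_one {x : B} (hx : x ∈ projMonoid B) : ‖x‖ ≤ 1 := by
  induction hx using Submonoid.closure_induction with
  | mem p hp => exact IsStarProjection.norm_le p ⟨hp.1, hp.2⟩
  | one => exact IsStarProjection.norm_le 1 (IsStarProjection.one B)
  | mul x y _ _ hx hy =>
    calc ‖x * y‖ ≤ ‖x‖ * ‖y‖ := norm_mul_le _ _
      _ ≤ 1 * 1 := mul_le_mul hx hy (norm_nonneg _) zero_le_one
      _ = 1 := one_mul 1

theorem rann_compl {p : A} (hp : Pr p) : IsRann {p} (1 - p) := by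
  have h0 : p * (1 - p) = 0 := by rw [mul_sub, mul_one, hp.1, sub_self]
  refine ⟨?_, by rw [star_sub, star_one, hp.2], fun y => ⟨fun h => ⟨y, ?_⟩, ?_⟩⟩
  · rw [sub_mul, one_mul, h0, sub_zero]
  · rw [sub_mul, one_mul, h p rfl, sub_zero]
  · rintro ⟨z, rfl⟩ x hx
    rw [Set.mem_singleton_iff.1 hx, ← mul_assoc, h0, zero_mul]

theorem rann_empty : IsRann (∅ : Set A) 1 :=
  ⟨one_mul 1, star_one A, fun y => ⟨fun _ => ⟨y, (one_mul y).symm⟩, fun _ _ hx => absurd hx (Set.notMem_empty _)⟩⟩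

theorem rann_zero : IsRann ({0} : Set A) 1 :=
  ⟨one_mul 1, star_one A, fun y => ⟨fun _ => ⟨y, (one_mul y).symm⟩, fun _ x hx => by
    rw [Set.mem_singleton_iff.1 hx, zero_mul]⟩⟩

theorem rann_map (hB : HasRann B) (φ : BaerHom (projMonoid A) (projMonoid B)) (S : Set A) (e : A)
    (hS : S ⊆ projMonoid A) (h : IsRann S e) :
    IsRann (tot φ.toFun '' S) (tot φ.toFun e) := by
  have he : e ∈ projMonoid A := proj_mem h.1 h.2.1
  have h1 := φ.map_rann _ _ (down hS h)
  obtain ⟨f, hf⟩ := hB (tot φ.toFun '' S)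
  have hS' : tot φ.toFun '' S ⊆ projMonoid B := by
    rintro _ ⟨x, _, rfl⟩
    exact tot_mem _ x
  have h2 := down hS' hf
  have h3 : φ.toFun '' {x : projMonoid A | (x : A) ∈ S} =
      {x : projMonoid B | (x : B) ∈ tot φ.toFun '' S} := by
    ext y
    constructor
    · rintro ⟨x, hx, rfl⟩
      exact ⟨(x : A), hx, tot_of x.2⟩
    · rintro ⟨x, hx, hxy⟩
      refine ⟨⟨x, hS hx⟩, hx, Subtype.ext ?_⟩
      rw [← hxy, tot_of (hS hx)]
  rw [h3] at h1
  have h4 := rann_unique_proj h1 h2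
  rw [tot_of he, h4]
  exact hf

end BASM

open BASM

theorem specBAS : SpecBAS.{u, v} := by
  intro A B _ _ hA hB φ
  have hmul : ∀ x ∈ projMonoid A, ∀ y ∈ projMonoid A,
      tot φ.toFun (x * y) = tot φ.toFun x * tot φ.toFun y := by
    intro x hx y hy
    rw [tot_of hx, tot_of hy, tot_of ((projMonoid A).mul_mem hx hy)]
    exact congrArg Subtype.val (φ.map_mul ⟨x, hx⟩ ⟨y, hy⟩)
  have hstar : ∀ x ∈ projMonoid A, tot φ.toFun (star x) = star (tot φ.toFun x) := by
    intro x hx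
    rw [tot_of hx, tot_of (star_mem' hx)]
    exact congrArg Subtype.val (φ.map_star ⟨x, hx⟩)
  have hr := rann_map hB φ
  have hone : tot φ.toFun (1 : A) = 1 := by
    have h := hr ∅ 1 (Set.empty_subset _) rann_empty
    obtain ⟨z, hz⟩ := (h.2.2 1).1 (by simp)
    calc tot φ.toFun (1 : A) = tot φ.toFun (1 : A) * 1 := (mul_one _).symm
      _ = tot φ.toFun (1 : A) * (tot φ.toFun (1 : A) * z) := by rw [← hz]
      _ = 1 := by rw [← mul_assoc, h.1, ← hz]
  refine ⟨hmul, hstar, ?_, hone, ?_, ?_, hr⟩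
  · have h := hr {0} 1 (by simpa using zero_mem') rann_zero
    rw [hone] at h
    have h1 := (h.2.2 1).2 ⟨1, (one_mul 1).symm⟩ (tot φ.toFun 0) ⟨0, rfl, rfl⟩
    rwa [mul_one] at h1
  · intro p hp
    have hpm : p ∈ projMonoid A := proj_mem hp.1 hp.2
    have h := hr {p} (1 - p) (by simpa using hpm) (rann_compl hp)
    rw [Set.image_singleton] at h
    have hp' : Pr (tot φ.toFun p) := by
      constructor
      · rw [← hmul p hpm p hpm, hp.1]
      · rw [← hstar p hpm, hp.2]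
    exact rann_unique h (rann_compl hp')
  · intro x _
    exact norm_le_one (tot_mem _ x)

end Pool.Agent.Lib.MPdba3a1.RL
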