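import Pool.Agent.Lib.MP_dba3a1_an.RL.Spec

/-!
# MP_dba3a1_an, module DE1: the first Zorn decomposition `1 = e + w* w + k`, `k A k` commutative.
-/

set_option autoImplicit false

namespace Pool.Agent.Lib.MPdba3a1.RL

universe u

namespace DE1M

variable {A : Type u} [CStarAlgebra A]

theorem eq_zero_of_mul_star {x : A} (h : x * star x = 0) : x = 0 :=
  CStarRing.mul_star_self_eq_zero_iff x |>.1 h

/-- the union of a chain of families is a family -/
theorem fam_sUnion {c : Set (Set A)} (hc : ∀ V ∈ c, Fam V) (hch : IsChain (· ⊆ ·) c) :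
    Fam (⋃₀ c) := by
  have key : ∀ v ∈ ⋃₀ c, ∀ v' ∈ ⋃₀ c, ∃ V ∈ c, v ∈ V ∧ v' ∈ V := by
    rintro v ⟨V, hV, hv⟩ v' ⟨V', hV', hv'⟩
    rcases hch.total hV hV' with h | h
    · exact ⟨V', hV', h hv, hv'⟩
    · exact ⟨V, hV, hv, h hv'⟩
  refine ⟨?_, ?_, ?_⟩
  · rintro v ⟨V, hV, hv⟩
    exact (hc V hV).pi v hv
  · intro v hv v' hv'
    obtain ⟨V, hV, h1, h2⟩ := key v hv v' hv'
    exact (hc V hV).mm v h1 v' h2
  · intro v hv v' hv' hne
    obtain ⟨V, hV, h1, h2⟩ := key v hv v' hv'
    exact (hc V hV).ss v h1 v' h2 hne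

/-- adding one element -/
theorem fam_insert {V : Set A} (hV : Fam V) {v : A} (hv : v * star v * v = v) (hvv : v * v = 0)
    (h1 : ∀ v' ∈ V, v * v' = 0) (h2 : ∀ v' ∈ V, v' * v = 0) (h3 : ∀ v' ∈ V, star v' * v = 0)
    (h4 : ∀ v' ∈ V, v' * star v = 0) : Fam (insert v V) := by
  refine ⟨?_, ?_, ?_⟩
  · rintro x (rfl | hx)
    · exact hv
    · exact hV.pi x hx
  · rintro x (rfl | hx) y (rfl | hy)
    · exact hvv
    · exact h1 y hy
    · exact h2 x hx
    · exact hV.mm x hx y hy
  · rintro x (rfl | hx) y (rfl | hy) hne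
    · exact absurd rfl hne
    · refine ⟨?_, ?_⟩
      · have := congrArg star (h3 y hy)
        simpa using this
      · have := congrArg star (h4 y hy)
        simpa using this
    · exact ⟨h3 x hx, h4 x hx⟩
    · exact hV.ss x hx y hy hne

theorem sum_mul_q {V : Set A} {w p q : A} (h : Sum V w p q) {v : A} (hv : v ∈ V) : v * q = v := by
  have := (h.rq.2.2 (1 - q)).2 ⟨1, by simp⟩ v hv
  rw [mul_sub, mul_one, sub_eq_zero] at this
  exact this.symm

theorem sum_p_mul {V : Set A} {w p q : A} (h : Sum V w p q) {v : A} (hv : v ∈ V) : p * v = v := by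
  have := (h.rp.2.2 (1 - p)).2 ⟨1, by simp⟩ (star v) ⟨v, hv, rfl⟩
  rw [mul_sub, mul_one, sub_eq_zero] at this
  have h2 := congrArg star this
  rw [star_star, star_mul, star_star, h.pp.2] at h2
  exact h2.symm

theorem pw {w p : A} (hp : Pr p) (hw : w * star w = p) : p * w = w := by
  have : (w - p * w) * star (w - p * w) = 0 := by
    rw [star_sub, star_mul, hp.2, sub_mul, mul_sub, mul_sub, ← mul_assoc w, hw, mul_assoc p w,
      hw, mul_assoc p w, ← mul_assoc w, hw, hp.1, hp.1]
    simp
  exact (sub_eq_zero.1 (eq_zero_of_mul_star this)).symm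

/-- the complement of `p + q` -/
theorem compl_facts {p q : A} (hp : Pr p) (hq : Pr q) (h : p * q = 0) :
    Pr (1 - p - q) ∧ q * p = 0 ∧ p * (1 - p - q) = 0 ∧ (1 - p - q) * p = 0 ∧
      q * (1 - p - q) = 0 ∧ (1 - p - q) * q = 0 := by
  have h' : q * p = 0 := by
    have := congrArg star h
    simpa [hp.2, hq.2] using this
  have e1 : p * (1 - p - q) = 0 := by rw [mul_sub, mul_sub, mul_one, hp.1, h]; simp
  have e2 : (1 - p - q) * p = 0 := by rw [sub_mul, sub_mul, one_mul, hp.1, h']; simp
  have e3 : q * (1 - p - q) = 0 := by rw [mul_sub, mul_sub, mul_one, hq.1, h']; simp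
  have e4 : (1 - p - q) * q = 0 := by rw [sub_mul, sub_mul, one_mul, hq.1, h]; simp
  refine ⟨⟨?_, ?_⟩, h', e1, e2, e3, e4⟩
  · rw [sub_mul, sub_mul, one_mul, e1, e3]; simp
  · rw [star_sub, star_sub, star_one, hp.2, hq.2]

/-- a set of elements commuting with `x` that contains the projections of `k A k` contains `k A k` -/
theorem comm_of_span (hAPX : SpecAPX.{u}) (hA : HasRann A) {k x y : A} (hk : Pr k) (hy : In k y)
    (hx : ∀ r, Pr r → k * r = r → x * r = r * x) : x * y = y * x := by
  have hmem := hAPX A hA k y hk hy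
  have hsub : ((Submodule.span ℂ {p : A | Pr p ∧ k * p = p} : Submodule ℂ A) : Set A) ⊆
      {z : A | x * z = z * x} := by
    intro z hz
    induction hz using Submodule.span_induction with
    | mem p hp => exact hx p hp.1 hp.2
    | zero => simp
    | add a b _ _ ha hb =>
      show x * (a + b) = (a + b) * x
      rw [mul_add, add_mul]
      exact congrArg₂ _ ha hb
    | smul c a _ ha =>
      show x * (c • a) = (c • a) * x
      rw [mul_smul_comm, smul_mul_assoc]
      exact congrArg _ ha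
  have hcl : IsClosed {z : A | x * z = z * x} :=
    isClosed_eq (continuous_const.mul continuous_id) (continuous_id.mul continuous_const)
  exact closure_minimal hsub hcl hmem

end DE1M

open DE1M in
theorem specDE1 (hPOL : SpecPOL.{u}) (hAPX : SpecAPX.{u}) (hADD : SpecADD.{u}) : SpecDE1.{u} := by
  intro A _ hA
  obtain ⟨V, hmax⟩ := zorn_subset {V : Set A | Fam V ∧ (0 : A) ∉ V} (by
    intro c hc hch
    refine ⟨⋃₀ c, ⟨fam_sUnion (fun V hV => (hc hV).1) hch, ?_⟩, fun s hs => Set.subset_sUnion_of_mem hs⟩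
    rintro ⟨V, hV, h0⟩
    exact (hc hV).2 h0)
  obtain ⟨⟨hV, h0⟩, hmax⟩ := hmax
  obtain ⟨w, p, q, hS⟩ := hADD A hA V hV
  have hpq : p * q = 0 := by
    rw [← hS.ww, ← hS.ww']
    have : star w * star w = 0 := by rw [← star_mul, hS.sq, star_zero]
    rw [mul_assoc, ← mul_assoc (star w), this]
    simp
  obtain ⟨hk, hqp, hpk, hkp, hqk, hkq⟩ := compl_facts hS.pp hS.pq hpq
  obtain ⟨k, hkdef⟩ : ∃ k, k = 1 - p - q := ⟨_, rfl⟩
  rw [← hkdef] at hk hpk hkp hqk hkq
  have hpw : p * w = w := pw hS.pp hS.ww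
  have hwq : w * q = w := by
    have := pw (w := star w) hS.pq (by rw [star_star]; exact hS.ww')
    have h2 := congrArg star this
    rwa [star_mul, star_star, hS.pq.2] at h2
  have key : ∀ r x : A, Pr r → k * r = r → r * x * (k - r) = 0 := by
    intro r x hr hkr
    have hrk : r * k = r := by
      have := congrArg star hkr
      rwa [star_mul, hr.2, hk.2] at this
    by_contra hne
    have hkr' : Pr (k - r) := by
      refine ⟨?_, by rw [star_sub, hk.2, hr.2]⟩
      rw [mul_sub, sub_mul, sub_mul, hk.1, hrk, hkr, hr.1]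
      simp
    obtain ⟨v, hv0, hv, hrv, hvs⟩ := hPOL A hA r (k - r) x hr hkr' hne
    have hkv : k * v = v := by rw [← hrv, ← mul_assoc, hkr]
    have hvk : v * k = v := by
      rw [← hvs, mul_assoc, sub_mul, hk.1, hrk]
    have hvv : v * v = 0 := by
      calc v * v = (v * (k - r)) * (r * v) := by rw [hvs, hrv]
        _ = v * ((k - r) * r) * v := by simp only [mul_assoc]
        _ = 0 := by rw [sub_mul, hkr, hr.1]; simp
    have hF : Fam (insert v V) := by
      refine fam_insert hV hv hvv ?_ ?_ ?_ ?_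
      · intro v' hv'
        rw [← hvk, ← sum_p_mul hS hv', mul_assoc, ← mul_assoc k, hkp]
        simp
      · intro v' hv'
        rw [← hkv, ← sum_mul_q hS hv', mul_assoc, ← mul_assoc q, hqk]
        simp
      · intro v' hv'
        have e1 : star v' * p = star v' := by
          have := congrArg star (sum_p_mul hS hv')
          rwa [star_mul, hS.pp.2] at this
        rw [← hkv, ← e1, mul_assoc, ← mul_assoc p, hpk]
        simp
      · intro v' hv'
        have e1 : k * star v = star v := by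
          have := congrArg star hvk
          rwa [star_mul, hk.2] at this
        rw [← e1, ← sum_mul_q hS hv', mul_assoc, ← mul_assoc q, hqk]
        simp
    have hsub : insert v V ⊆ V := by
      refine hmax ⟨hF, ?_⟩ (Set.subset_insert v V)
      rintro (h | h)
      · exact hv0 h.symm
      · exact h0 h
    have hvV : v ∈ V := hsub (Set.mem_insert v V)
    apply hv0
    rw [← sum_p_mul hS hvV, ← hkv, ← mul_assoc, hpk, zero_mul]
  have hcomm : ∀ x r : A, In k x → Pr r → k * r = r → x * r = r * x := by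
    intro x r hx hr hkr
    have h1 := key r x hr hkr
    have h2 := congrArg star (key r (star x) hr hkr)
    rw [star_zero, star_mul, star_mul, star_star, star_sub, hk.2, hr.2] at h2
    rw [mul_sub, mul_assoc, hx.2, sub_eq_zero] at h1
    rw [sub_mul, ← mul_assoc, hx.1, sub_eq_zero] at h2
    rw [h2, h1, mul_assoc]
  refine ⟨p, w, k, ⟨hS.pp, hS.ww, hS.sq⟩, hk, ?_, hpk, ?_, ?_, ?_⟩
  · rw [hS.ww', hkdef]; abel
  · rw [← hpw, ← mul_assoc, hkp, zero_mul]
  · rw [← hwq, mul_assoc, hqk, mul_zero]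
  · intro x y hx hy
    exact comm_of_span hAPX hA hk hy (fun r hr hkr => hcomm x r hx hr hkr)

end Pool.Agent.Lib.MPdba3a1.RL
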