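import Pool.Agent.Lib.MP_dba3a1_an.RL.Spec

/-!
# DE2: the decomposition `1 = g + e₁ + e₂ + e₃`
-/

set_option autoImplicit false

namespace Pool.Agent.Lib.MPdba3a1.RL

universe u

namespace DE2M

variable {A : Type u} [CStarAlgebra A]

/-- `w w* = e` implies `e w = w`. -/
theorem left_id {e w : A} (he : Pr e) (h : w * star w = e) : e * w = w := by
  have h1 : (e * w - w) * star (e * w - w) = 0 := by
    rw [star_sub, star_mul, he.2]
    have : (e * w - w) * (star w * e - star w)
        = e * (w * star w) * e - e * (w * star w) - (w * star w) * e + w * star w := by noncomm_ring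
    rw [this, h, he.1, he.1]
    noncomm_ring
  have h2 := (CStarRing.mul_star_self_eq_zero_iff _).1 h1
  exact sub_eq_zero.1 h2

/-- the property of the families -/
def Good (e k : A) (V : Set A) : Prop :=
  Fam V ∧ (∀ v ∈ V, k * v = v ∧ v * e = v) ∧ (0 : A) ∉ V

theorem exists_max (e k : A) : ∃ V : Set A, Maximal (fun V => V ∈ {V : Set A | Good e k V}) V := by
  apply zorn_subset
  intro c hc hch
  refine ⟨⋃₀ c, ⟨⟨?_, ?_, ?_⟩, ?_, ?_⟩, fun s hs => Set.subset_sUnion_of_mem hs⟩
  · rintro v ⟨s, hs, hv⟩
    exact (hc hs).1.pi v hv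
  · rintro v ⟨s, hs, hv⟩ v' ⟨t, ht, hv'⟩
    rcases hch.total hs ht with h | h
    · exact (hc ht).1.mm v (h hv) v' hv'
    · exact (hc hs).1.mm v hv v' (h hv')
  · rintro v ⟨s, hs, hv⟩ v' ⟨t, ht, hv'⟩ hne
    rcases hch.total hs ht with h | h
    · exact (hc ht).1.ss v (h hv) v' hv' hne
    · exact (hc hs).1.ss v hv v' (h hv') hne
  · rintro v ⟨s, hs, hv⟩
    exact (hc hs).2.1 v hv
  · rintro ⟨s, hs, h0⟩
    exact (hc hs).2.2 h0

end DE2M

open DE2M

/-- DE2. -/
theorem specDE2 (hPOL : SpecPOL.{u}) (hADD : SpecADD.{u}) (hDE1 : SpecDE1.{u}) : SpecDE2.{u} := by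
  intro A _ hR
  obtain ⟨e, w, k, hHalf, hk, hsum, hek, hkw, hwk, hcomm⟩ := hDE1 A hR
  have he : Pr e := hHalf.pr
  have hke : k * e = 0 := by
    have := congrArg star hek
    rwa [star_mul, star_zero, hk.2, he.2] at this
  obtain ⟨U, hU⟩ := exists_max e k
  have hGood : Good e k U := hU.prop
  obtain ⟨hFam, hUk, hU0⟩ := hGood
  obtain ⟨u, f, c, hs⟩ := hADD A hR U hFam
  have hf : Pr f := hs.pp
  have hc : Pr c := hs.pq
  -- annihilators
  have A1 : ∀ y : A, (∀ v ∈ U, star v * y = 0) → f * y = 0 := by
    intro y hy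
    obtain ⟨z, hz⟩ := (hs.rp.2.2 y).1 (by
      rintro _ ⟨v, hv, rfl⟩
      exact hy v hv)
    rw [hz, ← mul_assoc, mul_sub, mul_one, hf.1, sub_self, zero_mul]
  have A2 : ∀ y : A, (∀ v ∈ U, v * y = 0) → c * y = 0 := by
    intro y hy
    obtain ⟨z, hz⟩ := (hs.rq.2.2 y).1 hy
    rw [hz, ← mul_assoc, mul_sub, mul_one, hc.1, sub_self, zero_mul]
  have A3 : ∀ v ∈ U, f * v = v := by
    intro v hv
    have h1 := (hs.rp.2.2 (1 - f)).2 ⟨1, by rw [mul_one]⟩ (star v) ⟨v, hv, rfl⟩
    rw [mul_sub, mul_one, sub_eq_zero] at h1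
    have h2 := congrArg star h1
    rw [star_mul, star_star, hf.2] at h2
    exact h2.symm
  have A4 : ∀ v ∈ U, v * c = v := by
    intro v hv
    have h1 := (hs.rq.2.2 (1 - c)).2 ⟨1, by rw [mul_one]⟩ v hv
    rw [mul_sub, mul_one, sub_eq_zero] at h1
    exact h1.symm
  have hfk : f * k = f := by
    have h1 := A1 (1 - k) (by
      intro v hv
      have h2 : (1 - k) * v = 0 := by rw [sub_mul, one_mul, (hUk v hv).1, sub_self]
      have h3 := congrArg star h2
      rwa [star_mul, star_zero, star_sub, star_one, hk.2] at h3)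
    rw [mul_sub, mul_one, sub_eq_zero] at h1
    exact h1.symm
  have hkf : k * f = f := by
    have h1 := congrArg star hfk
    rwa [star_mul, hf.2, hk.2] at h1
  have hce : c * e = c := by
    have h1 := A2 (1 - e) (by
      intro v hv
      rw [mul_sub, mul_one, (hUk v hv).2, sub_self])
    rw [mul_sub, mul_one, sub_eq_zero] at h1
    exact h1.symm
  have hec : e * c = c := by
    have h1 := congrArg star hce
    rwa [star_mul, hc.2, he.2] at h1
  have hfu : f * u = u := left_id hf hs.ww
  have huc : u * c = u := by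
    rw [← hs.ww', ← mul_assoc, hs.ww, hfu]
  have hku : k * u = u := by
    rw [← hfu, ← mul_assoc, hkf]
  have hue : u * e = u := by
    rw [← huc, mul_assoc, hce]
  have hsuf : star u * f = star u := by
    have h1 := congrArg star hfu
    rwa [star_mul, hf.2] at h1
  have hsuk : star u * k = star u := by
    have h1 := congrArg star hku
    rwa [star_mul, hk.2] at h1
  have hew : e * w = w := left_id he hHalf.ww
  -- the projection `g`
  obtain ⟨g, hg⟩ : ∃ g : A, g = k - f := ⟨_, rfl⟩
  have hgg : Pr g := by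
    refine ⟨?_, ?_⟩
    · rw [hg]
      have : (k - f) * (k - f) = k * k - k * f - f * k + f * f := by noncomm_ring
      rw [this, hk.1, hkf, hfk, hf.1]
      abel
    · rw [hg, star_sub, hk.2, hf.2]
  have hkg : k * g = g := by rw [hg, mul_sub, hk.1, hkf]
  have hgk : g * k = g := by rw [hg, sub_mul, hk.1, hfk]
  have hgf : g * f = 0 := by rw [hg, sub_mul, hkf, hf.1, sub_self]
  have hfg : f * g = 0 := by rw [hg, mul_sub, hfk, hf.1, sub_self]
  have hgu : g * u = 0 := by rw [hg, sub_mul, hku, hfu, sub_self]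
  have hge : g * e = 0 := by
    rw [hg, sub_mul, hke, ← hfk, mul_assoc, hke, mul_zero, sub_self]
  have hgw : g * w = 0 := by
    rw [hg, sub_mul, hkw, ← hfk, mul_assoc, hkw, mul_zero, sub_self]
  have hwg : w * g = 0 := by
    rw [hg, mul_sub, hwk, ← hkf, ← mul_assoc, hwk, zero_mul, sub_self]
  have hpec : Pr (e - c) := by
    refine ⟨?_, ?_⟩
    · have : (e - c) * (e - c) = e * e - e * c - c * e + c * c := by noncomm_ring
      rw [this, he.1, hec, hce, hc.1]
      abel
    · rw [star_sub, he.2, hc.2]
  -- (1)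
  have B1 : ∀ x : A, g * x * (e - c) = 0 := by
    intro x
    by_contra hne
    obtain ⟨v, hv0, hpi, hgv, hvs⟩ := hPOL A hR g (e - c) x hgg hpec hne
    have hkv : k * v = v := by rw [← hgv, ← mul_assoc, hkg]
    have hve : v * e = v := by
      rw [← hvs, mul_assoc, sub_mul, he.1, hce]
    have hvv : v * v = 0 := by
      calc v * v = (v * e) * (k * v) := by rw [hve, hkv]
        _ = v * (e * k) * v := by noncomm_ring
        _ = 0 := by rw [hek, mul_zero, zero_mul]
    have h1 : ∀ v' ∈ U, v * v' = 0 := by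
      intro v' hv'
      calc v * v' = (v * e) * (k * v') := by rw [hve, (hUk v' hv').1]
        _ = v * (e * k) * v' := by noncomm_ring
        _ = 0 := by rw [hek, mul_zero, zero_mul]
    have h2 : ∀ v' ∈ U, v' * v = 0 := by
      intro v' hv'
      calc v' * v = (v' * e) * (k * v) := by rw [hkv, (hUk v' hv').2]
        _ = v' * (e * k) * v := by noncomm_ring
        _ = 0 := by rw [hek, mul_zero, zero_mul]
    have h3 : ∀ v' ∈ U, star v * v' = 0 := by
      intro v' hv'
      calc star v * v' = star (g * v) * (f * v') := by rw [hgv, A3 v' hv']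
        _ = star v * (g * f) * v' := by rw [star_mul, hgg.2]; noncomm_ring
        _ = 0 := by rw [hgf, mul_zero, zero_mul]
    have h4 : ∀ v' ∈ U, v * star v' = 0 := by
      intro v' hv'
      calc v * star v' = (v * (e - c)) * star (v' * c) := by rw [hvs, A4 v' hv']
        _ = v * ((e - c) * c) * star v' := by rw [star_mul, hc.2]; noncomm_ring
        _ = 0 := by rw [sub_mul, hec, hc.1, sub_self, mul_zero, zero_mul]
    have hins : Good e k (insert v U) := by
      refine ⟨⟨?_, ?_, ?_⟩, ?_, ?_⟩
      · rintro a (rfl | ha)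
        · exact hpi
        · exact hFam.pi a ha
      · rintro a (rfl | ha) b (rfl | hb)
        · exact hvv
        · exact h1 b hb
        · exact h2 a ha
        · exact hFam.mm a ha b hb
      · rintro a (rfl | ha) b (rfl | hb) hab
        · exact absurd rfl hab
        · exact ⟨h3 b hb, h4 b hb⟩
        · refine ⟨?_, ?_⟩
          · have := congrArg star (h3 a ha)
            rwa [star_mul, star_star, star_zero] at this
          · have := congrArg star (h4 a ha)
            rwa [star_mul, star_star, star_zero] at this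
        · exact hFam.ss a ha b hb hab
      · rintro a (rfl | ha)
        · exact ⟨hkv, hve⟩
        · exact hUk a ha
      · rintro (h | h)
        · exact hv0 h.symm
        · exact hU0 h
    have hmem : v ∈ U := hU.2 hins (Set.subset_insert v U) (Set.mem_insert v U)
    apply hv0
    rw [← A3 v hmem, ← hgv, ← mul_assoc, hfg, zero_mul]
  -- (2)
  have B2 : ∀ x : A, g * x * star u = 0 := by
    intro x
    obtain ⟨y, hy⟩ : ∃ y : A, y = k * (x * star u) := ⟨_, rfl⟩
    have hyk : In k y := by
      refine ⟨?_, ?_⟩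
      · rw [hy, ← mul_assoc, hk.1]
      · rw [hy, mul_assoc, mul_assoc, hsuk]
    have hyf : y * f = y := by
      rw [hy, mul_assoc, mul_assoc, hsuf]
    have h1 : y * f = f * y := hcomm y f hyk ⟨hkf, hfk⟩
    calc g * x * star u = g * k * (x * star u) := by rw [hgk, mul_assoc]
      _ = g * y := by rw [hy, mul_assoc]
      _ = g * (f * y) := by rw [← h1, hyf]
      _ = 0 := by rw [← mul_assoc, hgf, zero_mul]
  have B3 : ∀ x : A, g * x * e = 0 := by
    intro x
    have h1 : g * x * c = 0 := by
      rw [← hs.ww', ← mul_assoc, B2, zero_mul]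
    have h2 := B1 x
    rwa [mul_sub, h1, sub_zero] at h2
  -- (3)
  have B4 : ∀ x : A, g * x * w = 0 := by
    intro x
    rw [← hew, ← mul_assoc, B3, zero_mul]
  have B5 : ∀ x : A, g * x * (star w * w) = 0 := by
    intro x
    rw [← mul_assoc, mul_assoc g x (star w), B4]
  -- (4)
  have B6 : ∀ x : A, g * x * f = 0 := by
    intro x
    have hz : In k (k * x * k) := by
      refine ⟨?_, ?_⟩
      · rw [← mul_assoc, ← mul_assoc, hk.1]
      · rw [mul_assoc, hk.1]
    have h1 : (k * x * k) * f = f * (k * x * k) := hcomm _ f hz ⟨hkf, hfk⟩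
    calc g * x * f = (g * k) * x * (k * f) := by rw [hgk, hkf]
      _ = g * ((k * x * k) * f) := by noncomm_ring
      _ = (g * f) * (k * x * k) := by rw [h1, ← mul_assoc]
      _ = 0 := by rw [hgf, zero_mul]
  have hone : g + e + star w * w + f = 1 := by
    rw [← hsum, hg]
    abel
  have C1 : ∀ x : A, g * x = g * x * g := by
    intro x
    calc g * x = g * x * (g + e + star w * w + f) := by rw [hone, mul_one]
      _ = g * x * g := by
        rw [mul_add, mul_add, mul_add, B3, B5, B6, add_zero, add_zero, add_zero]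
  have C2 : ∀ x : A, x * g = g * x * g := by
    intro x
    have h1 := congrArg star (C1 (star x))
    rw [star_mul, star_mul, star_mul, star_star, hgg.2] at h1
    rw [h1, mul_assoc]
  have hcen : ∀ x : A, g * x = x * g := fun x => by rw [C1 x, ← C2 x]
  refine ⟨g, e, w, u, ?_⟩
  refine
    { pg := hgg
      half := hHalf
      pu := by rw [hs.ww]; exact hf
      uu := by rw [hs.ww]; exact hfu
      ue := hue
      eu := by rw [← hku, ← mul_assoc, hek, zero_mul]
      wu := by rw [← hku, ← mul_assoc, hwk, zero_mul]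
      sum := by rw [hs.ww]; exact hone
      ge := hge
      gw := hgw
      wg := hwg
      gu := hgu
      cen := hcen
      com := ?_ }
  have hIn : ∀ x : A, In k (g * x) := by
    intro x
    refine ⟨?_, ?_⟩
    · rw [← mul_assoc, hkg]
    · rw [hcen x, mul_assoc, hgk]
  have hP : ∀ x y : A, (g * x) * (g * y) = g * x * y := by
    intro x y
    calc (g * x) * (g * y) = (g * x * g) * y := by noncomm_ring
      _ = g * x * y := by rw [← C1]
  intro x y
  rw [← hP x y, ← hP y x]
  exact hcomm _ _ (hIn x) (hIn y)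

end Pool.Agent.Lib.MPdba3a1.RL
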