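import Pool.Agent.Lib.MP_dba3a1_an.RL.Spec

/-! # MP_dba3a1_an, RealLinear, module FA1 -/

set_option autoImplicit false

namespace Pool.Agent.Lib.MPdba3a1.RL

universe u v

namespace FA1M

section Half

variable {A : Type u} [CStarAlgebra A] {e w : A}

theorem ew (h : Half e w) : e * w = w := by
  have h1 : (w - e * w) * star (w - e * w) = 0 := by
    have h2 : star (w - e * w) = star w - star w * e := by
      rw [star_sub, star_mul, h.pr.2]
    rw [h2, sub_mul, mul_sub, mul_sub, ← mul_assoc w (star w) e, h.ww, mul_assoc e w (star w),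
      h.ww, mul_assoc e w (star w * e), ← mul_assoc w (star w) e, h.ww, h.pr.1, h.pr.1, sub_self]
  have h3 := CStarRing.mul_star_self_eq_zero_iff (w - e * w) |>.1 h1
  exact (sub_eq_zero.1 h3).symm

theorem we (h : Half e w) : w * e = 0 := by
  rw [← h.ww, ← mul_assoc, h.sq, zero_mul]

theorem sw_e (h : Half e w) : star w * e = star w := by
  have := congrArg star (ew h)
  rwa [star_mul, h.pr.2] at this

theorem e_sw (h : Half e w) : e * star w = 0 := by
  have := congrArg star (we h)
  rwa [star_mul, h.pr.2, star_zero] at this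

theorem In_e (h : Pr e) : In e e := ⟨h.1, h.1⟩

theorem In_smul {x : A} (h : In e x) (t : ℝ) : In e (t • x) :=
  ⟨by rw [mul_smul_comm, h.1], by rw [smul_mul_assoc, h.2]⟩

theorem In_mul {x y : A} (hx : In e x) (hy : In e y) : In e (x * y) :=
  ⟨by rw [← mul_assoc, hx.1], by rw [mul_assoc, hy.2]⟩

theorem In_add {x y : A} (hx : In e x) (hy : In e y) : In e (x + y) :=
  ⟨by rw [mul_add, hx.1, hy.1], by rw [add_mul, hx.2, hy.2]⟩

theorem In_star (he : Pr e) {x : A} (hx : In e x) : In e (star x) := by
  constructor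
  · have := congrArg star hx.2
    rwa [star_mul, he.2] at this
  · have := congrArg star hx.1
    rwa [star_mul, he.2] at this

end Half

theorem oms {R : Type u} [Ring R] (a b : R) : (1 - a) * (1 - b) = 1 - a - b + a * b := by
  noncomm_ring

section Two

variable {A : Type u} {B : Type v} [CStarAlgebra A] [CStarAlgebra B] {F : A → B}

theorem orth (hF : PHom F) {p q : A} (hp : Pr p) (hq : Pr q) (h : p * q = 0) :
    F (p + q) = F p + F q := by
  have hqp : q * p = 0 := by
    have := congrArg star h
    rwa [star_mul, hp.2, hq.2, star_zero] at this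
  have hpq : Pr (p + q) := by
    constructor
    · rw [add_mul, mul_add, mul_add, hp.1, hq.1, h, hqp, add_zero, zero_add]
    · rw [star_add, hp.2, hq.2]
  have h1p : Pr (1 - p) := by
    constructor
    · rw [oms, hp.1]
      abel
    · rw [star_sub, star_one, hp.2]
  have h1q : Pr (1 - q) := by
    constructor
    · rw [oms, hq.1]
      abel
    · rw [star_sub, star_one, hq.2]
  have e1 : (1 : A) - (p + q) = (1 - p) * (1 - q) := by
    rw [oms, h]
    abel
  have e2 := hF.compl (p + q) hpq
  rw [e1, hF.mul _ (proj_mem h1p.1 h1p.2) _ (proj_mem h1q.1 h1q.2), hF.compl p hp,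
    hF.compl q hq] at e2
  have e3 : F p * F q = 0 := by
    rw [← hF.mul p (proj_mem hp.1 hp.2) q (proj_mem hq.1 hq.2), h, hF.zero]
  rw [oms, e3, add_zero] at e2
  have e4 : F (p + q) = 1 - (1 - F (p + q)) := by abel
  rw [e4, ← e2]
  abel

/-- the factor -/
noncomputable def Nn (x : A) : ℝ := 4 * ‖x‖ + 1

theorem Nn_pos (x : A) : 0 < Nn x := by
  unfold Nn
  positivity

theorem Nn_mem (hM : SpecMEM.{u}) {e w : A} (h : Half e w) {x : A} (hx : In e x) :
    (Nn x)⁻¹ • x ∈ projMonoid A := by
  refine hM.dd A e w h _ (In_smul hx _) ?_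
  rw [norm_smul, Real.norm_of_nonneg (inv_nonneg.2 (Nn_pos x).le), inv_mul_le_iff₀ (Nn_pos x)]
  unfold Nn
  have := norm_nonneg x
  linarith

/-- the extension -/
noncomputable def Ph (F : A → B) (x : A) : B := Nn x • F ((Nn x)⁻¹ • x)

theorem scl (hS : SpecSCL.{u, v}) (hF : PHom F) {e w : A} (h : Half e w) {x : A} (hx : In e x)
    {s s' : ℝ} (hs : 0 < s) (hs' : 0 < s') (hle : s ≤ s') (hm' : s' • x ∈ projMonoid A) :
    F (s • x) = (s / s') • F (s' • x) := by
  have h1 : s • x = (s / s') • (s' • x) := by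
    rw [smul_smul, div_mul_cancel₀ _ hs'.ne']
  rw [h1]
  refine hS.mul A B F hF e w h (s / s') (by positivity) ((div_le_one hs').2 hle) _ hm' ?_
  rw [mul_smul_comm, hx.1]

theorem Ph_eq (hS : SpecSCL.{u, v}) (hM : SpecMEM.{u}) (hF : PHom F) {e w : A} (h : Half e w)
    {x : A} (hx : In e x) {s : ℝ} (hs : 0 < s) (hm : s • x ∈ projMonoid A) :
    F (s • x) = s • Ph F x := by
  have hN := Nn_pos x
  have hN' : 0 < (Nn x)⁻¹ := inv_pos.2 hN
  have hm' := Nn_mem hM h hx
  unfold Ph
  rcases le_total s (Nn x)⁻¹ with hle | hle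
  · rw [scl hS hF h hx hs hN' hle hm', smul_smul, div_inv_eq_mul]
  · rw [scl hS hF h hx hN' hs hle hm, smul_smul, smul_smul]
    have : s * Nn x * ((Nn x)⁻¹ / s) = 1 := by
      field_simp
    rw [this, one_smul]

end Two

end FA1M

open FA1M

theorem specFA1 (hS : SpecSCL.{u, v}) (hM : SpecMEM.{u}) : SpecFA1.{u, v} := by
  intro A B _ _ F hF e w h
  have he := h.pr
  have heP : e ∈ projMonoid A := proj_mem he.1 he.2
  have eq : ∀ x, In e x → ∀ s : ℝ, 0 < s → s • x ∈ projMonoid A → F (s • x) = s • Ph F x :=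
    fun x hx s hs hm => Ph_eq hS hM hF h hx hs hm
  have Ph0 : Ph F (0 : A) = 0 := by
    have h1 := eq 0 ⟨by rw [mul_zero], by rw [zero_mul]⟩ 1 one_pos
      (by rw [smul_zero]; exact zero_mem')
    rw [smul_zero, one_smul, hF.zero] at h1
    exact h1.symm
  refine ⟨Ph F, eq, ?_, ?_, ?_, ?_, ?_⟩
  · -- mul
    intro x y hx hy
    have hs := inv_pos.2 (Nn_pos x)
    have hs' := inv_pos.2 (Nn_pos y)
    have m1 := Nn_mem hM h hx
    have m2 := Nn_mem hM h hy
    have e1 : ((Nn x)⁻¹ • x) * ((Nn y)⁻¹ • y) = ((Nn x)⁻¹ * (Nn y)⁻¹) • (x * y) := by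
      rw [smul_mul_assoc, mul_smul_comm, smul_smul]
    have m3 : ((Nn x)⁻¹ * (Nn y)⁻¹) • (x * y) ∈ projMonoid A := by
      rw [← e1]
      exact (projMonoid A).mul_mem m1 m2
    have e2 := eq (x * y) (In_mul hx hy) _ (mul_pos hs hs') m3
    rw [← e1, hF.mul _ m1 _ m2, eq x hx _ hs m1, eq y hy _ hs' m2, smul_mul_assoc,
      mul_smul_comm, smul_smul] at e2
    exact (smul_right_injective B (mul_pos hs hs').ne' e2).symm
  · -- star
    intro x hx
    have hs := inv_pos.2 (Nn_pos x)
    have m1 := Nn_mem hM h hx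
    have e1 : star ((Nn x)⁻¹ • x) = (Nn x)⁻¹ • star x := by
      rw [star_smul, star_trivial]
    have m2 : (Nn x)⁻¹ • star x ∈ projMonoid A := by
      rw [← e1]
      exact star_mem' m1
    have e2 := eq (star x) (In_star he hx) _ hs m2
    rw [← e1, hF.star _ m1, eq x hx _ hs m1, star_smul, star_trivial] at e2
    exact (smul_right_injective B hs.ne' e2).symm
  · -- pos
    intro x hx t ht
    rcases ht.eq_or_lt with rfl | ht
    · rw [zero_smul, zero_smul, Ph0]
    · have hs := inv_pos.2 (Nn_pos (t • x))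
      have m1 := Nn_mem hM h (In_smul hx t)
      have e1 := eq (t • x) (In_smul hx t) _ hs m1
      have m2 := m1
      rw [smul_smul] at m2
      have e2 := eq x hx _ (mul_pos hs ht) m2
      rw [← smul_smul, e1, mul_smul] at e2
      exact smul_right_injective B hs.ne' e2
  · -- one
    intro x hx
    have hsq := h.sq
    have ew := FA1M.ew h
    have we := FA1M.we h
    have swe := FA1M.sw_e h
    have esw := FA1M.e_sw h
    -- the final projection
    have hf : Pr (star w * w) := by
      constructor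
      · rw [mul_assoc, ← mul_assoc w (star w) w, h.ww, ew]
      · rw [star_mul, star_star]
    have hef : e * (star w * w) = 0 := by
      rw [← mul_assoc, esw, zero_mul]
    have hfe : (star w * w) * e = 0 := by
      rw [mul_assoc, we, mul_zero]
    have hwf : w * (star w * w) = w := by
      rw [← mul_assoc, h.ww, ew]
    have hfw : (star w * w) * star w = star w := by
      rw [mul_assoc, h.ww, swe]
    have hP : Pr (e + star w * w) := by
      constructor
      · rw [add_mul, mul_add, mul_add, he.1, hf.1, hef, hfe, add_zero, zero_add]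
      · rw [star_add, he.2, hf.2]
    have hPm := proj_mem hP.1 hP.2
    have hfm := proj_mem hf.1 hf.2
    have hFP := orth hF he hf hef
    obtain ⟨s, hs, hR⟩ := hM.row A e w h x hx
    obtain ⟨s', hs', hC0⟩ := hM.row A e w h e (In_e he)
    rw [ew] at hC0
    have hC : s' • (e + star w) ∈ projMonoid A := by
      have h1 := star_mem' hC0
      rwa [star_smul, star_trivial, star_add, he.2] at h1
    -- products
    have r1 : (s • (e + x * w)) * (e + star w * w) = s • (e + x * w) := by
      rw [smul_mul_assoc, add_mul, mul_add, mul_add, he.1, hef, mul_assoc x w e, we, mul_zero,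
        mul_assoc x w, hwf, add_zero, zero_add]
    have r2 : (s • (e + x * w)) * e = s • e := by
      rw [smul_mul_assoc, add_mul, he.1, mul_assoc x w e, we, mul_zero, add_zero]
    have r3 : (s • (e + x * w)) * (star w * w) = s • (x * w) := by
      rw [smul_mul_assoc, add_mul, hef, mul_assoc x w, hwf, zero_add]
    have c1 : (e + star w * w) * (s' • (e + star w)) = s' • (e + star w) := by
      rw [mul_smul_comm, add_mul, mul_add, mul_add, he.1, esw, hfe, hfw, add_zero, zero_add]
    have c2 : e * (s' • (e + star w)) = s' • e := by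
      rw [mul_smul_comm, mul_add, he.1, esw, add_zero]
    have c3 : (star w * w) * (s' • (e + star w)) = s' • star w := by
      rw [mul_smul_comm, mul_add, hfe, hfw, zero_add]
    have m1 : s • e ∈ projMonoid A := r2 ▸ (projMonoid A).mul_mem hR heP
    have m2 : s • (x * w) ∈ projMonoid A := r3 ▸ (projMonoid A).mul_mem hR hfm
    have m3 : s' • e ∈ projMonoid A := c2 ▸ (projMonoid A).mul_mem heP hC
    have m4 : s' • star w ∈ projMonoid A := c3 ▸ (projMonoid A).mul_mem hfm hC
    have FR : F (s • (e + x * w)) = F (s • e) + F (s • (x * w)) := by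
      have h1 := hF.mul _ hR _ hPm
      rw [r1, hFP, mul_add, ← hF.mul _ hR _ heP, ← hF.mul _ hR _ hfm, r2, r3] at h1
      exact h1
    have FC : F (s' • (e + star w)) = F (s' • e) + F (s' • star w) := by
      have h1 := hF.mul _ hPm _ hC
      rw [c1, hFP, add_mul, ← hF.mul _ heP _ hC, ← hF.mul _ hfm _ hC, c2, c3] at h1
      exact h1
    have RC : (s • (e + x * w)) * (s' • (e + star w)) = (s * s') • (e + x) := by
      rw [smul_mul_assoc, mul_smul_comm, smul_smul, add_mul, mul_add, mul_add, he.1, esw,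
        mul_assoc x w e, we, mul_zero, mul_assoc x w (star w), h.ww, hx.2, add_zero, zero_add]
    have p1 : (s • e) * (s' • e) = (s * s') • e := by
      rw [smul_mul_assoc, mul_smul_comm, smul_smul, he.1]
    have p2 : (s • e) * (s' • star w) = 0 := by
      rw [smul_mul_assoc, mul_smul_comm, esw, smul_zero, smul_zero]
    have p3 : (s • (x * w)) * (s' • e) = 0 := by
      rw [smul_mul_assoc, mul_smul_comm, mul_assoc x w e, we, mul_zero, smul_zero, smul_zero]
    have p4 : (s • (x * w)) * (s' • star w) = (s * s') • x := by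
      rw [smul_mul_assoc, mul_smul_comm, smul_smul, mul_assoc x w (star w), h.ww, hx.2]
    have m5 : (s * s') • (e + x) ∈ projMonoid A := RC ▸ (projMonoid A).mul_mem hR hC
    have m6 : (s * s') • e ∈ projMonoid A := p1 ▸ (projMonoid A).mul_mem m1 m3
    have m7 : (s * s') • x ∈ projMonoid A := p4 ▸ (projMonoid A).mul_mem m2 m4
    have main : F ((s * s') • (e + x)) = F ((s * s') • e) + F ((s * s') • x) := by
      have h1 := hF.mul _ hR _ hC
      rw [RC, FR, FC, add_mul, mul_add, mul_add, ← hF.mul _ m1 _ m3, ← hF.mul _ m1 _ m4,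
        ← hF.mul _ m2 _ m3, ← hF.mul _ m2 _ m4, p1, p2, p3, p4, hF.zero, add_zero, zero_add] at h1
      exact h1
    have hσ := mul_pos hs hs'
    rw [eq _ (In_add (In_e he) hx) _ hσ m5, eq e (In_e he) _ hσ m6, eq x hx _ hσ m7,
      ← smul_add] at main
    have h2 := smul_right_injective B hσ.ne' main
    have h3 := eq e (In_e he) 1 one_pos (by rw [one_smul]; exact heP)
    rw [one_smul, one_smul] at h3
    rw [h3]
    exact h2
  · -- nrm
    intro x hx
    by_cases h0 : x = 0
    · rw [h0, Ph0, norm_zero, norm_zero, mul_zero]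
    · have hn : 0 < ‖x‖ := norm_pos_iff.2 h0
      have hs : 0 < (4 * ‖x‖)⁻¹ := by positivity
      have m1 : (4 * ‖x‖)⁻¹ • x ∈ projMonoid A := by
        refine hM.dd A e w h _ (In_smul hx _) ?_
        rw [norm_smul, Real.norm_of_nonneg hs.le]
        have : (4 * ‖x‖)⁻¹ * ‖x‖ = 1 / 4 := by
          field_simp
        rw [this]
      have h1 := hF.nrm _ m1
      rw [eq x hx _ hs m1, norm_smul, Real.norm_of_nonneg hs.le, inv_mul_le_iff₀ (by positivity)]
        at h1
      linarith

end Pool.Agent.Lib.MPdba3a1.RL
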