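import Pool.Agent.Lib.MP_dba3a1_an.RL.Spec

/-!
# MP_dba3a1_an, RealLinear, module FA2: additivity on the corner
-/

set_option autoImplicit false

namespace Pool.Agent.Lib.MPdba3a1.RL

universe u v

namespace FA2M

variable {A : Type u} {B : Type v} [CStarAlgebra A] [CStarAlgebra B]

theorem in_self {e : A} (he : Pr e) : In e e := ⟨he.1, he.1⟩

theorem in_mul {e x y : A} (hx : In e x) (hy : In e y) : In e (x * y) :=
  ⟨by rw [← mul_assoc, hx.1], by rw [mul_assoc, hy.2]⟩

theorem in_add {e x y : A} (hx : In e x) (hy : In e y) : In e (x + y) :=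
  ⟨by rw [mul_add, hx.1, hy.1], by rw [add_mul, hx.2, hy.2]⟩

theorem in_smul {e x : A} (hx : In e x) (t : ℝ) : In e (t • x) :=
  ⟨by rw [mul_smul_comm, hx.1], by rw [smul_mul_assoc, hx.2]⟩

/-- `F e = Φ e`. -/
theorem fe {F : A → B} {e : A} {Φ : A → B} (he : Pr e) (h : Pre F e Φ) : F e = Φ e := by
  have h1 := h.eq e (in_self he) 1 one_pos (by rw [one_smul]; exact proj_mem he.1 he.2)
  rwa [one_smul, one_smul] at h1

/-- Additivity if the first summand is invertible in the corner. -/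
theorem s1 {F : A → B} {e : A} {Φ : A → B} (he : Pr e) (h : Pre F e Φ) {X X' Y : A}
    (hX : In e X) (hX' : In e X') (hXX : X * X' = e) (hY : In e Y) :
    Φ (X + Y) = Φ X + Φ Y := by
  have h1 : X + Y = X * (e + X' * Y) := by
    rw [mul_add, hX.2, ← mul_assoc, hXX, hY.1]
  have hXY : In e (X' * Y) := in_mul hX' hY
  have h2 : X * (X' * Y) = Y := by rw [← mul_assoc, hXX, hY.1]
  rw [h1, h.mul X (e + X' * Y) hX (in_add (in_self he) hXY), h.one _ hXY, mul_add, fe he h,
    ← h.mul X e hX (in_self he), ← h.mul X (X' * Y) hX hXY, hX.2, h2]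

theorem s2 {F : A → B} {e : A} {Φ : A → B} (he : Pr e) (h : Pre F e Φ) {s : ℝ} (hs : s ≠ 0)
    {Y : A} (hY : In e Y) : Φ (s • e + Y) = Φ (s • e) + Φ Y :=
  s1 he h (in_smul (in_self he) s) (in_smul (in_self he) s⁻¹)
    (by rw [smul_mul_smul_comm, mul_inv_cancel₀ hs, one_smul, he.1]) hY

/-- `X + s e` is invertible in the corner if `s` is large. -/
theorem inv {e X : A} (he : Pr e) (hX : In e X) {s : ℝ} (hs : ‖X‖ < s) :
    ∃ X' : A, In e X' ∧ (X + s • e) * X' = e := by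
  have hs0 : 0 < s := lt_of_le_of_lt (norm_nonneg X) hs
  have hu : IsUnit (X + s • (1 : A)) := by
    have h1 : ‖-(s⁻¹ • X)‖ < 1 := by
      rw [norm_neg, norm_smul, norm_inv, Real.norm_eq_abs, abs_of_pos hs0, inv_mul_lt_iff₀ hs0,
        mul_one]
      exact hs
    have h2 : IsUnit (1 - -(s⁻¹ • X)) := isUnit_one_sub_of_norm_lt_one h1
    have h3 : X + s • (1 : A) = (algebraMap ℝ A s) * (1 - -(s⁻¹ • X)) := by
      rw [sub_neg_eq_add, ← Algebra.smul_def, smul_add, smul_smul, mul_inv_cancel₀ hs0.ne',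
        one_smul, add_comm]
    rw [h3]
    exact ((IsUnit.mk0 s hs0.ne').map (algebraMap ℝ A)).mul h2
  obtain ⟨U, hU⟩ := hu
  have hc : Commute e (U : A) := by
    rw [hU]
    show e * (X + s • 1) = (X + s • 1) * e
    rw [mul_add, add_mul, hX.1, hX.2, mul_smul_comm, smul_mul_assoc, mul_one, one_mul]
  have hc' : e * ((U⁻¹ : Aˣ) : A) = ((U⁻¹ : Aˣ) : A) * e := (hc.units_inv_right).eq
  refine ⟨e * ((U⁻¹ : Aˣ) : A), ⟨?_, ?_⟩, ?_⟩
  · rw [← mul_assoc, he.1]
  · rw [mul_assoc, ← hc', ← mul_assoc, he.1]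
  · have h4 : (X + s • e) * e = e * (X + s • (1 : A)) := by
      rw [add_mul, mul_add, hX.1, hX.2, mul_smul_comm, smul_mul_assoc, mul_one, he.1]
    rw [← mul_assoc, h4, ← hU, mul_assoc, Units.mul_inv, mul_one]

theorem add {F : A → B} {e : A} {Φ : A → B} (he : Pr e) (h : Pre F e Φ) {X Y : A}
    (hX : In e X) (hY : In e Y) : Φ (X + Y) = Φ X + Φ Y := by
  have hs : ‖X‖ < ‖X‖ + 1 := lt_add_one _
  have hs0 : ‖X‖ + 1 ≠ 0 := by positivity
  obtain ⟨X', hX', hXX⟩ := inv he hX hs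
  have h1 := s2 he h hs0 (in_add hX hY)
  have h2 := s2 he h hs0 hX
  have h3 := s1 he h (in_add hX (in_smul (in_self he) (‖X‖ + 1))) hX' hXX hY
  have h4 : X + (‖X‖ + 1) • e + Y = (‖X‖ + 1) • e + (X + Y) := by abel
  have h5 : X + (‖X‖ + 1) • e = (‖X‖ + 1) • e + X := add_comm _ _
  rw [h4, h1, h5, h2, add_assoc] at h3
  exact add_left_cancel h3

theorem smul {F : A → B} {e : A} {Φ : A → B} (he : Pr e) (h : Pre F e Φ) {X : A}
    (hX : In e X) (t : ℝ) : Φ (t • X) = t • Φ X := by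
  rcases le_or_gt 0 t with ht | ht
  · exact h.pos X hX t ht
  · have h0 : Φ 0 = 0 := by
      have := h.pos X hX 0 le_rfl
      rwa [zero_smul, zero_smul] at this
    have h1 := add he h (in_smul hX t) (in_smul hX (-t))
    rw [← add_smul, add_neg_cancel, zero_smul, h0, h.pos X hX (-t) (by linarith), neg_smul] at h1
    exact (sub_eq_zero.1 (by rw [sub_eq_add_neg]; exact h1.symm))

end FA2M

theorem specFA2 : SpecFA2.{u, v} := by
  intro A B _ _ F e he Φ h
  exact
    { eq := h.eq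
      mul := h.mul
      star := h.star
      add := fun x y hx hy => FA2M.add he h hx hy
      smul := fun x hx t => FA2M.smul he h hx t }

end Pool.Agent.Lib.MPdba3a1.RL
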