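import Pool.Agent.Lib.MP_dba3a1_an.RL.Spec

/-!
# MP_dba3a1_an, RealLinear: module FI1 (helper77)

The sum of the two parts is a real-linear *-homomorphism which extends `F`.
-/

set_option autoImplicit false

namespace Pool.Agent.Lib.MPdba3a1.RL

universe u v

theorem specFI1 : SpecFI1.{u, v} := by
  intro A B _ _ F hF g hg hcen f₁ f₂ h₁ h₂
  have hgm : g ∈ projMonoid A := proj_mem hg.1 hg.2
  have hg1 : Pr (1 - g) := by
    refine ⟨?_, ?_⟩
    · have h := hg.1
      have : (1 - g) * (1 - g) = 1 - g - g + g * g := by noncomm_ring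
      rw [this, h]
      abel
    · rw [star_sub, star_one, hg.2]
  have hg1m : (1 - g) ∈ projMonoid A := proj_mem hg1.1 hg1.2
  have hFg : F g * F g = F g := by
    rw [← hF.mul g hgm g hgm, hg.1]
  have hF1g : F (1 - g) = 1 - F g := hF.compl g hg
  have p1 : Pr (1 : A) := ⟨one_mul 1, star_one A⟩
  have e1 : f₁ 1 = 1 - F g := by
    rw [h₁.eq 1 p1, mul_one, hF1g]
  have e2 : f₂ 1 = F g := by
    rw [h₂.eq 1 p1, mul_one]
  have l1 : ∀ x, f₁ x * (1 - F g) = f₁ x := by
    intro x
    rw [← e1, ← h₁.mul, mul_one]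
  have r1 : ∀ x, (1 - F g) * f₁ x = f₁ x := by
    intro x
    rw [← e1, ← h₁.mul, one_mul]
  have l2 : ∀ x, f₂ x * F g = f₂ x := by
    intro x
    rw [← e2, ← h₂.mul, mul_one]
  have r2 : ∀ x, F g * f₂ x = f₂ x := by
    intro x
    rw [← e2, ← h₂.mul, one_mul]
  have z1 : (1 - F g) * F g = 0 := by
    rw [sub_mul, one_mul, hFg, sub_self]
  have z2 : F g * (1 - F g) = 0 := by
    rw [mul_sub, mul_one, hFg, sub_self]
  have c12 : ∀ x y, f₁ x * f₂ y = 0 := by
    intro x y
    rw [← l1 x, ← r2 y, mul_assoc, ← mul_assoc (1 - F g) (F g), z1, zero_mul, mul_zero]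
  have c21 : ∀ x y, f₂ x * f₁ y = 0 := by
    intro x y
    rw [← l2 x, ← r1 y, mul_assoc, ← mul_assoc (F g) (1 - F g), z2, zero_mul, mul_zero]
  have hone : f₁ 1 + f₂ 1 = 1 := by
    rw [e1, e2, sub_add_cancel]
  have hzero : f₁ 0 + f₂ 0 = 0 := by
    have a1 := h₁.smul 0 0
    have a2 := h₂.smul 0 0
    rw [zero_smul, zero_smul] at a1 a2
    rw [a1, a2, add_zero]
  let f : A →⋆ₐ[ℝ] B :=
    { toFun := fun x => f₁ x + f₂ x
      map_one' := hone
      map_mul' := by
        intro x y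
        show f₁ (x * y) + f₂ (x * y) = (f₁ x + f₂ x) * (f₁ y + f₂ y)
        rw [h₁.mul, h₂.mul, add_mul, mul_add, mul_add, c12, c21, add_zero, zero_add]
      map_zero' := hzero
      map_add' := by
        intro x y
        show f₁ (x + y) + f₂ (x + y) = (f₁ x + f₂ x) + (f₁ y + f₂ y)
        rw [h₁.add, h₂.add]
        abel
      commutes' := by
        intro t
        show f₁ (algebraMap ℝ A t) + f₂ (algebraMap ℝ A t) = algebraMap ℝ B t
        rw [Algebra.algebraMap_eq_smul_one, Algebra.algebraMap_eq_smul_one, h₁.smul, h₂.smul,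
          ← smul_add, hone]
      map_star' := by
        intro x
        show f₁ (star x) + f₂ (star x) = star (f₁ x + f₂ x)
        rw [h₁.star, h₂.star, star_add] }
  have hf : ∀ x, f x = f₁ x + f₂ x := fun x => rfl
  refine ⟨f, hf, ?_⟩
  have hfp : ∀ p, Pr p → f p = F p := by
    intro p hp
    have hpm : p ∈ projMonoid A := proj_mem hp.1 hp.2
    rw [hf, h₁.eq p hp, h₂.eq p hp, hF.mul _ hg1m _ hpm, hF.mul _ hgm _ hpm, hF1g, ← add_mul,
      sub_add_cancel, one_mul]
  intro x hx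
  induction hx using Submonoid.closure_induction with
  | mem p hp => exact hfp p hp
  | one => rw [map_one, hF.one]
  | mul x y hx hy ihx ihy => rw [map_mul, ihx, ihy, hF.mul x hx y hy]

end Pool.Agent.Lib.MPdba3a1.RL
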