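import Pool.Agent.Lib.MP_dba3a1_an.RL.Spec

/-!
# MP_dba3a1_an, RealLinear, module FI2: a real *-homomorphism is linear on one part, conjugate linear on the other
-/

set_option autoImplicit false

namespace Pool.Agent.Lib.MPdba3a1.RL

universe u v

/-- **FI2** -/
theorem specFI2 : SpecFI2.{u, v} := by
  intro A B _ _ f
  set J : B := f (Complex.I • (1 : A)) with hJ
  have hJx : ∀ x, J * f x = f (Complex.I • x) := by
    intro x
    rw [hJ, ← map_mul, smul_mul_assoc, one_mul]
  have hxJ : ∀ x, f x * J = f (Complex.I • x) := by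
    intro x
    rw [hJ, ← map_mul, mul_smul_comm, mul_one]
  have hJJ : J * J = -1 := by
    rw [hJ, ← map_mul, smul_mul_assoc, one_mul, smul_smul, Complex.I_mul_I, neg_smul, one_smul,
      map_neg, map_one]
  have hJs : star J = -J := by
    rw [hJ, ← map_star, star_smul, star_one, ← map_neg]
    congr 1
    rw [← neg_smul]
    congr 1
    exact Complex.conj_I
  set K : B := Complex.I • J with hK
  have hKK : K * K = 1 := by
    rw [hK, smul_mul_assoc, mul_smul_comm, smul_smul, hJJ, Complex.I_mul_I, neg_smul, one_smul,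
      neg_neg]
  have hKs : star K = K := by
    rw [hK, star_smul, hJs]
    have : star Complex.I = -Complex.I := Complex.conj_I
    rw [this, neg_smul, smul_neg, neg_neg]
  have hJK : J = -(Complex.I • K) := by
    rw [hK, smul_smul, Complex.I_mul_I, neg_smul, one_smul, neg_neg]
  have hKx : ∀ x, K * f x = f x * K := by
    intro x
    rw [hK, smul_mul_assoc, mul_smul_comm, hJx, hxJ]
  refine ⟨(1 / 2 : ℂ) • (1 - K), ?_, ?_, ?_, ?_⟩
  · rw [smul_mul_assoc, mul_smul_comm, smul_smul, sub_mul, mul_sub, mul_sub, hKK, one_mul, mul_one,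
      one_mul]
    module
  · rw [star_smul, star_sub, star_one, hKs]
    congr 1
    simp
  · intro x
    rw [smul_mul_assoc, mul_smul_comm, sub_mul, mul_sub, hKx, one_mul, mul_one]
  · intro z x
    have hz : z • x = z.re • x + z.im • (Complex.I • x) := by
      conv_lhs => rw [← Complex.re_add_im z]
      rw [add_smul, mul_smul]
      rfl
    have h2 : f (z • x) = z.re • f x + z.im • (J * f x) := by
      rw [hz, map_add, map_smul, map_smul, hJx]
    have h3 : (starRingEnd ℂ) z = (z.re : ℂ) - (z.im : ℂ) * Complex.I := by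
      apply Complex.ext <;> simp
    have h5 : ∀ (t : ℝ) (y : B), t • y = (t : ℂ) • y := fun t y => rfl
    have key : ∀ a b : ℂ, a • f x + b • (-(Complex.I • K) * f x) =
        ((1 / 2 : ℂ) • (1 - K)) * ((a + b * Complex.I) • f x) +
          (1 - (1 / 2 : ℂ) • (1 - K)) * ((a - b * Complex.I) • f x) := by
      intro a b
      simp only [smul_mul_assoc, mul_smul_comm, sub_mul, one_mul, neg_mul]
      module
    have h6 := key z.re z.im
    rw [Complex.re_add_im] at h6
    rw [h2, h3, h5, h5]
    rw [← hJK] at h6
    exact h6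

end Pool.Agent.Lib.MPdba3a1.RL
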