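import Pool.Agent.Lib.MP_dba3a1_an.RL.Spec

/-!
# MP_dba3a1_an, RealLinear, module FIN: the theorem
-/

set_option autoImplicit false

namespace Pool.Agent.Lib.MPdba3a1.RL

universe u v

namespace FINM

variable {A : Type u} [CStarAlgebra A]

lemma pr_norm {p : A} (hp : Pr p) : ‖p‖ ≤ 1 := by
  have h : IsStarProjection p := ⟨hp.1, hp.2⟩
  exact h.norm_le

/-- the projection `w* w` -/
lemma half_left {e w : A} (h : Half e w) : Half (star w * w) (star w) := by
  have hew : e * w = w := by
    have h0 : (w - e * w) * star (w - e * w) = 0 := by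
      have : star (w - e * w) = star w - star w * e := by
        rw [star_sub, star_mul, h.pr.2]
      rw [this, sub_mul, mul_sub, mul_sub, h.ww]
      have h1 : w * (star w * e) = e := by rw [← mul_assoc, h.ww, h.pr.1]
      have h2 : e * w * star w = e := by rw [mul_assoc, h.ww, h.pr.1]
      have h3 : e * w * (star w * e) = e := by rw [← mul_assoc, h2, h.pr.1]
      rw [h1, h2, h3, sub_self]
    have h1 := CStarRing.mul_star_self_eq_zero_iff (w - e * w) |>.1 h0
    exact (sub_eq_zero.1 h1).symm
  refine ⟨⟨?_, ?_⟩, ?_, ?_⟩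
  · have : star w * w * (star w * w) = star w * (w * star w * w) := by noncomm_ring
    rw [this, h.ww, hew]
  · rw [star_mul, star_star]
  · rw [star_star]
  · rw [← star_mul, h.sq, star_zero]

/-- the quarter of `e` and `i` times it are in `P(A)` -/
lemma quarter (hMEM : SpecMEM.{u}) {e w : A} (h : Half e w) (z : ℂ) (hz : ‖z‖ ≤ 1 / 4) :
    z • e ∈ projMonoid A := by
  refine hMEM.dd A e w h (z • e) ⟨?_, ?_⟩ ?_
  · rw [mul_smul_comm, h.pr.1]
  · rw [smul_mul_assoc, h.pr.1]
  · rw [norm_smul]
    have h1 := pr_norm h.pr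
    have h2 := norm_nonneg e
    have h3 := norm_nonneg z
    nlinarith

end FINM

/-- **FIN** -/
theorem specFIN (hBAS : SpecBAS.{u, v}) (hMEM : SpecMEM.{u}) (hDE2 : SpecDE2.{u})
    (hFNF : SpecFNF.{u, v}) (hAB2 : SpecAB2.{u, v}) (hNRM : SpecNRM.{u, v})
    (hFI1 : SpecFI1.{u, v}) (hFI2 : SpecFI2.{u, v}) : SpecFIN.{u, v} := by
  intro A B _ _ hA hB φ
  have hF : PHom (tot φ.toFun) := hBAS A B hA hB φ
  obtain ⟨g, e, w, u', hD⟩ := hDE2 A hA
  obtain ⟨f1, h1⟩ := hFNF A B (tot φ.toFun) hF g e w u' hD
  obtain ⟨f2, h2, h2I⟩ := hAB2 A B hA (tot φ.toFun) hF g hD.pg hD.cen hD.com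
  obtain ⟨f, hf, hfF⟩ := hFI1 A B (tot φ.toFun) hF g hD.pg hD.cen f1 f2 h1 h2
  have hfx : ∀ x : projMonoid A, f (x : A) = (φ.toFun x : B) := by
    intro x
    rw [hfF x x.2]
    unfold tot
    rw [dif_pos x.2]
  have hfp : ∀ p, Pr p → f p = tot φ.toFun p := fun p hp => hfF p (proj_mem hp.1 hp.2)
  have hrann := hNRM A B hA (tot φ.toFun) hF f hfp
  refine ⟨⟨f, hfx, hrann, hFI2 A B f⟩, ?_, ?_⟩
  · rintro ⟨f', hf', _⟩ x y hxy
    rw [← hf' y, hxy, map_smul, hf' x]
  · intro H
    have key : ∀ e' w' : A, Half e' w' → f (Complex.I • e') = Complex.I • f e' := by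
      intro e' w' h
      have m1 : (1 / 4 : ℂ) • e' ∈ projMonoid A := FINM.quarter hMEM h _ (by norm_num)
      have m2 : Complex.I • ((1 / 4 : ℂ) • e') ∈ projMonoid A := by
        rw [smul_smul]
        exact FINM.quarter hMEM h _ (by rw [norm_mul, Complex.norm_I]; norm_num)
      have h3 := H ⟨_, m1⟩ ⟨_, m2⟩ rfl
      rw [← hfx, ← hfx] at h3
      have h4 : e' = (4 : ℝ) • ((1 / 4 : ℂ) • e') := by
        rw [show (4 : ℝ) • ((1 / 4 : ℂ) • e') = (4 : ℂ) • ((1 / 4 : ℂ) • e') from by
          rw [← Complex.coe_smul]; norm_num]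
        rw [smul_smul]
        norm_num
      have h5 : Complex.I • e' = (4 : ℝ) • (Complex.I • ((1 / 4 : ℂ) • e')) := by
        conv_lhs => rw [h4]
        rw [smul_comm]
      rw [h5, map_smul]
      conv_rhs => rw [h4, map_smul]
      rw [h3]
      simp only
      rw [smul_comm]
    have k1 := key e w hD.half
    have k2 := key _ _ (FINM.half_left hD.half)
    have k3 : f (Complex.I • (u' * star u')) = Complex.I • f (u' * star u') := by
      refine key _ u' ⟨hD.pu, rfl, ?_⟩
      calc u' * u' = u' * e * u' := by rw [hD.ue]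
        _ = u' * (e * u') := mul_assoc _ _ _
        _ = 0 := by rw [hD.eu, mul_zero]
    have z1 : f1 0 = 0 := by
      have := h1.smul 0 0
      rwa [zero_smul, zero_smul] at this
    have k4 : f (Complex.I • g) = Complex.I • f g := by
      have a1 : f1 (Complex.I • g) = 0 := by
        rw [← h1.fac, mul_smul_comm, sub_mul, one_mul, hD.pg.1, sub_self, smul_zero, z1]
      have a2 : f1 g = 0 := by
        rw [← h1.fac, sub_mul, one_mul, hD.pg.1, sub_self, z1]
      rw [hf, hf, a1, a2, h2I, zero_add, zero_add]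
    have k5 : f (Complex.I • (1 : A)) = Complex.I • (1 : B) := by
      rw [← map_one f, ← hD.sum]
      simp only [smul_add, map_add, k1, k2, k3, k4]
    have k6 : ∀ x, f (Complex.I • x) = Complex.I • f x := by
      intro x
      calc f (Complex.I • x) = f (Complex.I • (1 : A) * x) := by rw [smul_mul_assoc, one_mul]
        _ = Complex.I • f x := by rw [map_mul, k5, smul_mul_assoc, one_mul]
    have k7 : ∀ (z : ℂ) (x : A), f (z • x) = z • f x := by
      intro z x
      have hA1 : z • x = z.re • x + z.im • (Complex.I • x) := by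
        conv_lhs => rw [← Complex.re_add_im z]
        rw [add_smul, mul_smul]
        rfl
      have hB1 : z • f x = z.re • f x + z.im • (Complex.I • f x) := by
        conv_lhs => rw [← Complex.re_add_im z]
        rw [add_smul, mul_smul]
        rfl
      rw [hA1, hB1, map_add, map_smul, map_smul, k6]
    refine ⟨{ toFun := f
              map_one' := map_one f
              map_mul' := map_mul f
              map_zero' := map_zero f
              map_add' := map_add f
              commutes' := ?_
              map_star' := map_star f }, ?_, ?_⟩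
    · intro r
      rw [Algebra.algebraMap_eq_smul_one, Algebra.algebraMap_eq_smul_one, k7, map_one]
    · intro x
      exact hfx x
    · intro S p hS
      exact hrann S p hS

end Pool.Agent.Lib.MPdba3a1.RL
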