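import Pool.Agent.Lib.MP_dba3a1_an.RL.Spec

/-!
# FNF: the part of the homomorphism which lives on the non-abelian corner
-/

set_option autoImplicit false

namespace Pool.Agent.Lib.MPdba3a1.RL

universe u v

namespace FNFM

/-- Multiplication of matrices. -/
theorem sum4 {R : Type*} [Ring R] {ι : Type*} [Fintype ι] [DecidableEq ι] (M N : ι → R)
    (a b c : ι → ι → R) (d : ι → R) (h1 : ∀ j k, j ≠ k → N j * M k = 0)
    (h2 : ∀ j, N j * M j = d j) (h3 : ∀ i l, ∑ j, a i j * d j * b j l = c i l) :
    (∑ i, ∑ j, M i * a i j * N j) * (∑ k, ∑ l, M k * b k l * N l) =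
      ∑ i, ∑ l, M i * c i l * N l := by
  rw [Finset.sum_mul]
  refine Finset.sum_congr rfl fun i _ => ?_
  have h4 : ∀ j, M i * a i j * N j * (∑ k, ∑ l, M k * b k l * N l) =
      ∑ l, M i * (a i j * d j * b j l) * N l := by
    intro j
    rw [Finset.mul_sum, Finset.sum_eq_single j]
    · rw [Finset.mul_sum]
      refine Finset.sum_congr rfl fun l _ => ?_
      rw [← h2 j]
      noncomm_ring
    · intro k _ hk
      rw [Finset.mul_sum]
      refine Finset.sum_eq_zero fun l _ => ?_
      have h5 : M i * a i j * N j * (M k * b k l * N l) =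
          M i * a i j * (N j * M k) * b k l * N l := by noncomm_ring
      rw [h5, h1 j k hk.symm]
      simp
    · intro hj
      exact absurd (Finset.mem_univ j) hj
  rw [Finset.sum_mul]
  simp_rw [h4]
  rw [Finset.sum_comm]
  refine Finset.sum_congr rfl fun l _ => ?_
  rw [← h3, Finset.mul_sum, Finset.sum_mul]

section phom

variable {A : Type u} {B : Type v} [CStarAlgebra A] [CStarAlgebra B] {F : A → B}

theorem pr_mem {p : A} (h : Pr p) : p ∈ projMonoid A := proj_mem h.1 h.2

theorem pr_swap {p q : A} (hp : Pr p) (hq : Pr q) (h : p * q = 0) : q * p = 0 := by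
  have := congrArg star h
  rwa [star_mul, hp.2, hq.2, star_zero] at this

theorem pr_add {p q : A} (hp : Pr p) (hq : Pr q) (h : p * q = 0) : Pr (p + q) := by
  constructor
  · rw [add_mul, mul_add, mul_add, hp.1, hq.1, h, pr_swap hp hq h]
    abel
  · rw [star_add, hp.2, hq.2]

theorem pr_compl {p : A} (hp : Pr p) : Pr (1 - p) := by
  constructor
  · rw [mul_sub, sub_mul, sub_mul, hp.1]
    simp
  · rw [star_sub, star_one, hp.2]

/-- additivity on orthogonal projections -/
theorem orth_add (hF : PHom F) {p q : A} (hp : Pr p) (hq : Pr q) (h : p * q = 0) :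
    F (p + q) = F p + F q := by
  have h1 : (1 - p) * (1 - q) = 1 - (p + q) := by
    have : (1 - p) * (1 - q) = 1 - (p + q) + p * q := by noncomm_ring
    rw [this, h, add_zero]
  have h2 := hF.mul (1 - p) (pr_mem (pr_compl hp)) (1 - q) (pr_mem (pr_compl hq))
  rw [h1, hF.compl _ (pr_add hp hq h), hF.compl _ hp, hF.compl _ hq] at h2
  have h3 : F p * F q = 0 := by
    rw [← hF.mul _ (pr_mem hp) _ (pr_mem hq), h, hF.zero]
  have h4 : (1 - F p) * (1 - F q) = 1 - (F p + F q) + F p * F q := by noncomm_ring
  rw [h4, h3, add_zero] at h2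
  exact sub_right_injective h2

/-- what we use of the family `v` -/
structure Fr {ι : Type} [Fintype ι] (F : A → B) (g e : A) (v : ι → A) : Prop where
  ve : ∀ i, v i * e = v i
  orth : ∀ i j, i ≠ j → star (v i) * v j = 0
  part : ∀ i, v i * star (v i) * v i = v i
  half : ∀ i, (1 / 2 : ℝ) • v i ∈ projMonoid A
  prj : ∀ i, Pr (v i * star (v i))
  sc : ∀ i, F ((1 / 4 : ℝ) • (v i * star (v i))) = (1 / 4 : ℝ) • F (v i * star (v i))
  sum : ∑ i, v i * star (v i) = 1 - g
  gv : ∀ i, g * v i = 0
  Fsum : F (1 - g) = ∑ i, F (v i * star (v i))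

set_option linter.unusedSectionVars false

variable {ι : Type} [Fintype ι] [DecidableEq ι] {g e : A} {v : ι → A} {Φ : A → B}

theorem evs (he : Pr e) (hv : Fr F g e v) (i : ι) : e * star (v i) = star (v i) := by
  have := congrArg star (hv.ve i)
  rwa [star_mul, he.2] at this

theorem in_mid (he : Pr e) (hv : Fr F g e v) (i j : ι) (x : A) :
    In e (star (v i) * x * v j) := by
  constructor
  · rw [← mul_assoc, ← mul_assoc, evs he hv]
  · rw [mul_assoc, hv.ve]

theorem cor_zero (hc : Cor F e Φ) : Φ 0 = 0 := by
  have h := hc.smul 0 ⟨mul_zero e, zero_mul e⟩ 0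
  rwa [zero_smul, zero_smul] at h

theorem cor_sum (hc : Cor F e Φ) (s : Finset ι) (x : ι → A) (hx : ∀ i, In e (x i)) :
    Φ (∑ i ∈ s, x i) = ∑ i ∈ s, Φ (x i) ∧ In e (∑ i ∈ s, x i) := by
  classical
  induction s using Finset.induction_on with
  | empty =>
    simp only [Finset.sum_empty]
    exact ⟨cor_zero hc, mul_zero e, zero_mul e⟩
  | insert i s hi ih =>
    rw [Finset.sum_insert hi, Finset.sum_insert hi]
    refine ⟨?_, ?_, ?_⟩
    · rw [hc.add _ _ (hx i) ih.2, ih.1]
    · rw [mul_add, (hx i).1, ih.2.1]
    · rw [add_mul, (hx i).2, ih.2.2]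

/-- the columns -/
noncomputable def M (F : A → B) (v : ι → A) (i : ι) : B := (2 : ℝ) • F ((1 / 2 : ℝ) • v i)

theorem star_half (hF : PHom F) (hv : Fr F g e v) (i : ι) :
    star (F ((1 / 2 : ℝ) • v i)) = F ((1 / 2 : ℝ) • star (v i)) := by
  rw [← hF.star _ (hv.half i), star_smul, star_trivial]

theorem half_star_mem (hv : Fr F g e v) (i : ι) : (1 / 2 : ℝ) • star (v i) ∈ projMonoid A := by
  have := star_mem' (hv.half i)
  rwa [star_smul, star_trivial] at this

theorem star_M (hF : PHom F) (hv : Fr F g e v) (i : ι) :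
    star (M F v i) = (2 : ℝ) • F ((1 / 2 : ℝ) • star (v i)) := by
  unfold M
  rw [star_smul, star_trivial, star_half hF hv]

theorem quarter (x y : A) : (1 / 2 : ℝ) • x * (1 / 2 : ℝ) • y = (1 / 4 : ℝ) • (x * y) := by
  rw [smul_mul_assoc, mul_smul_comm, smul_smul]
  norm_num

theorem NM (hF : PHom F) (hv : Fr F g e v) (i j : ι) :
    star (M F v i) * M F v j = (4 : ℝ) • F ((1 / 4 : ℝ) • (star (v i) * v j)) := by
  rw [star_M hF hv, M, smul_mul_assoc, mul_smul_comm, smul_smul,
    ← hF.mul _ (half_star_mem hv i) _ (hv.half j), quarter]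
  norm_num

theorem NM_ne (hF : PHom F) (hv : Fr F g e v) (i j : ι) (h : i ≠ j) :
    star (M F v i) * M F v j = 0 := by
  rw [NM hF hv, hv.orth i j h, smul_zero, hF.zero, smul_zero]

theorem NM_eq (hF : PHom F) (he : Pr e) (hv : Fr F g e v) (hc : Cor F e Φ) (i : ι) :
    star (M F v i) * M F v i = Φ (star (v i) * v i) := by
  have h1 : In e (star (v i) * v i) := by
    have := in_mid he hv i i 1
    rwa [mul_one] at this
  have h2 : (1 / 4 : ℝ) • (star (v i) * v i) ∈ projMonoid A := by
    rw [← quarter]
    exact mul_mem (half_star_mem hv i) (hv.half i)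
  rw [NM hF hv, hc.eq _ h1 _ (by norm_num) h2, smul_smul]
  norm_num

/-- the homomorphism -/
noncomputable def f (F Φ : A → B) (v : ι → A) (x : A) : B :=
  ∑ i, ∑ j, M F v i * Φ (star (v i) * x * v j) * star (M F v j)

theorem main (hF : PHom F) (hg : Pr g) (hcen : ∀ x, g * x = x * g) (he : Pr e)
    (hv : Fr F g e v) (hc : Cor F e Φ) : Part F (1 - g) (f F Φ v) := by
  have hvg : ∀ i, star (v i) * g = 0 := by
    intro i
    have := congrArg star (hv.gv i)
    rwa [star_mul, hg.2, star_zero] at this
  have hfac : ∀ x, f F Φ v ((1 - g) * x) = f F Φ v x := by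
    intro x
    unfold f
    refine Finset.sum_congr rfl fun i _ => Finset.sum_congr rfl fun j _ => ?_
    rw [← mul_assoc, mul_sub, mul_one, hvg, sub_zero]
  refine ⟨?_, ?_, ?_, ?_, hfac, ?_⟩
  · -- add
    intro x y
    unfold f
    rw [← Finset.sum_add_distrib]
    refine Finset.sum_congr rfl fun i _ => ?_
    rw [← Finset.sum_add_distrib]
    refine Finset.sum_congr rfl fun j _ => ?_
    have h1 : star (v i) * (x + y) * v j = star (v i) * x * v j + star (v i) * y * v j := by
      noncomm_ring
    rw [h1, hc.add _ _ (in_mid he hv i j x) (in_mid he hv i j y)]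
    noncomm_ring
  · -- smul
    intro t x
    unfold f
    rw [Finset.smul_sum]
    refine Finset.sum_congr rfl fun i _ => ?_
    rw [Finset.smul_sum]
    refine Finset.sum_congr rfl fun j _ => ?_
    rw [mul_smul_comm, smul_mul_assoc, hc.smul _ (in_mid he hv i j x), mul_smul_comm,
      smul_mul_assoc]
  · -- mul
    intro x y
    unfold f
    refine (sum4 (M F v) (fun j => star (M F v j)) (fun i j => Φ (star (v i) * x * v j))
      (fun i j => Φ (star (v i) * y * v j)) (fun i j => Φ (star (v i) * (x * y) * v j))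
      (fun j => Φ (star (v j) * v j)) (fun j k h => NM_ne hF hv j k h)
      (fun j => NM_eq hF he hv hc j) ?_).symm
    intro i l
    have hin : ∀ j, In e (star (v j) * v j) := fun j => by
      have := in_mid he hv j j 1
      rwa [mul_one] at this
    have h1 : ∀ j, Φ (star (v i) * x * v j) * Φ (star (v j) * v j) * Φ (star (v j) * y * v l) =
        Φ (star (v i) * (x * (v j * star (v j)) * y) * v l) := by
      intro j
      have h2 : In e (star (v i) * x * v j * (star (v j) * v j)) := by
        constructor
        · rw [← mul_assoc, (in_mid he hv i j x).1]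
        · rw [mul_assoc, (hin j).2]
      rw [← hc.mul _ _ (in_mid he hv i j x) (hin j), ← hc.mul _ _ h2 (in_mid he hv j l y)]
      congr 1
      calc star (v i) * x * v j * (star (v j) * v j) * (star (v j) * y * v l)
          = star (v i) * x * ((v j * star (v j) * v j) * star (v j)) * y * v l := by noncomm_ring
        _ = star (v i) * (x * (v j * star (v j)) * y) * v l := by
          rw [hv.part]
          noncomm_ring
    simp_rw [h1]
    rw [← (cor_sum hc Finset.univ _ fun j => in_mid he hv i l _).1]
    congr 1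
    have h3 : ∑ j, star (v i) * (x * (v j * star (v j)) * y) * v l =
        star (v i) * (x * (∑ j, v j * star (v j)) * y) * v l := by
      simp only [Finset.mul_sum, Finset.sum_mul]
    rw [h3, hv.sum]
    have h4 : star (v i) * (x * (1 - g) * y) * v l =
        star (v i) * (x * y) * v l - star (v i) * x * (g * y) * v l := by noncomm_ring
    rw [h4, hcen y]
    have h5 : star (v i) * x * (y * g) * v l = star (v i) * x * y * (g * v l) := by noncomm_ring
    rw [h5, hv.gv, mul_zero, sub_zero]
  · -- star
    intro x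
    unfold f
    rw [star_sum, Finset.sum_comm]
    refine Finset.sum_congr rfl fun i _ => ?_
    rw [star_sum]
    refine Finset.sum_congr rfl fun j _ => ?_
    rw [star_mul, star_mul, star_star, ← hc.star _ (in_mid he hv i j x), star_mul, star_mul,
      star_star]
    simp only [mul_assoc]
  · -- eq
    intro p hp
    have hP : Pr ((1 - g) * p) := by
      have hcen' : ∀ x, (1 - g) * x = x * (1 - g) := fun x => by
        rw [sub_mul, mul_sub, hcen x, one_mul, mul_one]
      constructor
      · calc (1 - g) * p * ((1 - g) * p) = (1 - g) * (p * (1 - g)) * p := by noncomm_ring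
          _ = (1 - g) * ((1 - g) * p) * p := by rw [← hcen' p]
          _ = ((1 - g) * (1 - g)) * (p * p) := by noncomm_ring
          _ = (1 - g) * p := by rw [(pr_compl hg).1, hp.1]
      · rw [star_mul, (pr_compl hg).2, hp.2, hcen']
    rw [← hfac p]
    set P := (1 - g) * p with hPdef
    have hPm := pr_mem hP
    have hgm := pr_mem (pr_compl hg)
    have h1 : (1 - g) * P * (1 - g) = P := by
      have hcP : P * (1 - g) = (1 - g) * P := by rw [mul_sub, sub_mul, hcen P, one_mul, mul_one]
      rw [mul_assoc, hcP, ← mul_assoc, (pr_compl hg).1, hPdef, ← mul_assoc, (pr_compl hg).1]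
    have h2 : F P = F (1 - g) * F P * F (1 - g) := by
      conv_lhs => rw [← h1]
      rw [hF.mul _ (mul_mem hgm hPm) _ hgm, hF.mul _ hgm _ hPm]
    have h3 : ∀ i j, M F v i * Φ (star (v i) * P * v j) * star (M F v j) =
        F (v i * star (v i)) * F P * F (v j * star (v j)) := by
      intro i j
      have hm1 := half_star_mem hv i
      have hm2 := hv.half j
      have h4 : (1 / 4 : ℝ) • (star (v i) * P * v j) =
          (1 / 2 : ℝ) • star (v i) * P * (1 / 2 : ℝ) • v j := by
        rw [smul_mul_assoc, smul_mul_assoc, mul_smul_comm, smul_smul]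
        norm_num
      have h5 : (1 / 4 : ℝ) • (star (v i) * P * v j) ∈ projMonoid A := by
        rw [h4]
        exact mul_mem (mul_mem hm1 hPm) hm2
      have h6 := hc.eq _ (in_mid he hv i j P) (1 / 4) (by norm_num) h5
      rw [h4, hF.mul _ (mul_mem hm1 hPm) _ hm2, hF.mul _ hm1 _ hPm] at h6
      have h7 : Φ (star (v i) * P * v j) = (4 : ℝ) •
          (F ((1 / 2 : ℝ) • star (v i)) * F P * F ((1 / 2 : ℝ) • v j)) := by
        rw [h6, smul_smul]
        norm_num
      have h8 : F ((1 / 2 : ℝ) • v i) * F ((1 / 2 : ℝ) • star (v i)) =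
          (1 / 4 : ℝ) • F (v i * star (v i)) := by
        rw [← hF.mul _ (hv.half i) _ hm1, quarter, hv.sc]
      have h9 : F ((1 / 2 : ℝ) • v j) * F ((1 / 2 : ℝ) • star (v j)) =
          (1 / 4 : ℝ) • F (v j * star (v j)) := by
        rw [← hF.mul _ hm2 _ (half_star_mem hv j), quarter, hv.sc]
      rw [h7, star_M hF hv, M]
      calc (2 : ℝ) • F ((1 / 2 : ℝ) • v i) * (4 : ℝ) •
            (F ((1 / 2 : ℝ) • star (v i)) * F P * F ((1 / 2 : ℝ) • v j)) *
            (2 : ℝ) • F ((1 / 2 : ℝ) • star (v j))
          = (16 : ℝ) • ((F ((1 / 2 : ℝ) • v i) * F ((1 / 2 : ℝ) • star (v i))) * F P *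
            (F ((1 / 2 : ℝ) • v j) * F ((1 / 2 : ℝ) • star (v j)))) := by
            simp only [smul_mul_assoc, mul_smul_comm, smul_smul, mul_assoc]
            norm_num
        _ = F (v i * star (v i)) * F P * F (v j * star (v j)) := by
            rw [h8, h9]
            simp only [smul_mul_assoc, mul_smul_comm, smul_smul, mul_assoc]
            norm_num
    unfold f
    simp_rw [h3]
    rw [hv.Fsum] at h2
    conv_rhs => rw [h2]
    simp only [Finset.sum_mul, Finset.mul_sum]
    rw [Finset.sum_comm]

end phom

end FNFM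

open FNFM in
theorem specFNF (hSCL : SpecSCL.{u, v}) (hMEM : SpecMEM.{u}) (hFA1 : SpecFA1.{u, v})
    (hFA2 : SpecFA2.{u, v}) : SpecFNF.{u, v} := by
  intro A B _ _ F hF g e w u hD
  obtain ⟨Φ, hΦ⟩ := hFA1 A B F hF e w hD.half
  have hc := hFA2 A B F e hD.half.pr Φ hΦ
  -- facts on `w`
  have hh := hD.half
  have hew : e * w = w := by
    have h1 : (w - e * w) * star (w - e * w) = 0 := by
      rw [star_sub, star_mul, hh.pr.2]
      have h2 : (w - e * w) * (star w - star w * e) =
          w * star w - (w * star w) * e - e * (w * star w) + e * (w * star w) * e := by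
        noncomm_ring
      rw [h2, hh.ww, hh.pr.1, hh.pr.1]
      abel
    exact (sub_eq_zero.1 ((CStarRing.mul_star_self_eq_zero_iff _).1 h1)).symm
  have hwe : w * e = 0 := by rw [← hh.ww, ← mul_assoc, hh.sq, zero_mul]
  have hews : e * star w = 0 := by
    have h1 := congrArg star hwe
    rwa [star_mul, hh.pr.2, star_zero] at h1
  have hwse : star w * e = star w := by
    have h1 := congrArg star hew
    rwa [star_mul, hh.pr.2] at h1
  have hpf : Pr (star w * w) := by
    refine ⟨?_, by rw [star_mul, star_star]⟩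
    rw [mul_assoc, ← mul_assoc w, hh.ww, hew]
  have hhf : Half (star w * w) (star w) := by
    refine ⟨hpf, by rw [star_star], ?_⟩
    rw [← star_mul, hh.sq, star_zero]
  have hhu : Half (u * star u) u := by
    refine ⟨hD.pu, rfl, ?_⟩
    have h1 : u * u = u * e * u := by rw [hD.ue]
    rw [h1, mul_assoc, hD.eu, mul_zero]
  have hue : star u * e = 0 := by
    have h1 := congrArg star hD.eu
    rwa [star_mul, hh.pr.2, star_zero] at h1
  have huw : star u * star w = 0 := by
    have h1 := congrArg star hD.wu
    rwa [star_mul, star_zero] at h1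
  have hgws : g * star w = 0 := by
    have h1 := congrArg star hD.wg
    rwa [star_mul, hD.pg.2, star_zero] at h1
  -- halves
  have m1 : (1 / 2 : ℝ) • e ∈ projMonoid A :=
    hSCL.mem A e w hh (1 / 2) (by norm_num) (by norm_num) e (pr_mem hh.pr) hh.pr.1
  have m2 : (1 / 2 : ℝ) • star w ∈ projMonoid A := by
    have h1 : (1 / 2 : ℝ) • w ∈ projMonoid A := by
      have h2 := hMEM.xw A e w hh ((1 / 2 : ℝ) • e)
        ⟨by rw [mul_smul_comm, hh.pr.1], by rw [smul_mul_assoc, hh.pr.1]⟩ (by
          rw [norm_smul, Real.norm_eq_abs, abs_of_pos (by norm_num)]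
          have := IsStarProjection.norm_le e ⟨hh.pr.1, hh.pr.2⟩
          linarith)
      rwa [smul_mul_assoc, hew] at h2
    have h3 := star_mem' h1
    rwa [star_smul, star_trivial] at h3
  have m3 : (1 / 2 : ℝ) • u ∈ projMonoid A := by
    have h2 := hMEM.xw A (u * star u) u hhu ((1 / 2 : ℝ) • (u * star u))
      ⟨by rw [mul_smul_comm, hD.pu.1], by rw [smul_mul_assoc, hD.pu.1]⟩ (by
        rw [norm_smul, Real.norm_eq_abs, abs_of_pos (by norm_num)]
        have := IsStarProjection.norm_le (u * star u) ⟨hD.pu.1, hD.pu.2⟩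
        linarith)
    rwa [smul_mul_assoc, hD.uu] at h2
  -- orthogonality
  have o12 : e * (star w * w) = 0 := by rw [← mul_assoc, hews, zero_mul]
  have o13 : e * (u * star u) = 0 := by rw [← mul_assoc, hD.eu, zero_mul]
  have o23 : star w * w * (u * star u) = 0 := by
    have h1 : star w * w * (u * star u) = star w * (w * u) * star u := by noncomm_ring
    rw [h1, hD.wu, mul_zero, zero_mul]
  have hsum : 1 - g = e + star w * w + u * star u := by
    rw [← hD.sum]
    abel
  have hFr : Fr F g e ![e, star w, u] := by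
    refine ⟨?_, ?_, ?_, ?_, ?_, ?_, ?_, ?_, ?_⟩
    · intro i
      fin_cases i
      · exact hh.pr.1
      · exact hwse
      · exact hD.ue
    · intro i j hij
      fin_cases i <;> fin_cases j <;> simp only [Fin.zero_eta, Fin.mk_one, Fin.reduceFinMk,
        ne_eq, not_true_eq_false] at hij
      · change star e * star w = 0
        rw [hh.pr.2, hews]
      · change star e * u = 0
        rw [hh.pr.2, hD.eu]
      · change star (star w) * e = 0
        rw [star_star, hwe]
      · change star (star w) * u = 0
        rw [star_star, hD.wu]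
      · exact hue
      · exact huw
    · intro i
      fin_cases i
      · change e * star e * e = e
        rw [hh.pr.2, hh.pr.1, hh.pr.1]
      · change star w * star (star w) * star w = star w
        rw [star_star, mul_assoc, hh.ww, hwse]
      · exact hD.uu
    · intro i
      fin_cases i
      · exact m1
      · exact m2
      · exact m3
    · intro i
      fin_cases i
      · change Pr (e * star e)
        rw [hh.pr.2, hh.pr.1]
        exact hh.pr
      · change Pr (star w * star (star w))
        rw [star_star]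
        exact hpf
      · exact hD.pu
    · intro i
      fin_cases i
      · change F ((1 / 4 : ℝ) • (e * star e)) = (1 / 4 : ℝ) • F (e * star e)
        rw [hh.pr.2, hh.pr.1]
        exact hSCL.mul A B F hF e w hh _ (by norm_num) (by norm_num) e (pr_mem hh.pr) hh.pr.1
      · change F ((1 / 4 : ℝ) • (star w * star (star w))) =
          (1 / 4 : ℝ) • F (star w * star (star w))
        rw [star_star]
        exact hSCL.mul A B F hF _ _ hhf _ (by norm_num) (by norm_num) _ (pr_mem hpf) hpf.1
      · exact hSCL.mul A B F hF _ _ hhu _ (by norm_num) (by norm_num) _ (pr_mem hD.pu) hD.pu.1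
    · rw [Fin.sum_univ_three, hsum]
      change e * star e + star w * star (star w) + u * star u = _
      rw [hh.pr.2, hh.pr.1, star_star]
    · intro i
      fin_cases i
      · exact hD.ge
      · exact hgws
      · exact hD.gu
    · rw [Fin.sum_univ_three, hsum]
      change F (e + star w * w + u * star u) =
        F (e * star e) + F (star w * star (star w)) + F (u * star u)
      rw [hh.pr.2, hh.pr.1, star_star, orth_add hF (pr_add hh.pr hpf o12) hD.pu (by
        rw [add_mul, o13, o23, add_zero]), orth_add hF hh.pr hpf o12]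
  exact ⟨_, main hF hD.pg hD.cen hh.pr hFr hc⟩

end Pool.Agent.Lib.MPdba3a1.RL
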