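import Pool.Agent.Lib.MP_dba3a1_an.RL.Spec

/-!
# MEM: small elements of the corner are products of projections
-/

set_option autoImplicit false

namespace Pool.Agent.Lib.MPdba3a1.RL

universe u v

namespace MEMM

section half

variable {A : Type u} [CStarAlgebra A] {e w : A}

theorem ew (h : Half e w) : e * w = w := by
  have h1 : (w - e * w) * star (w - e * w) = 0 := by
    rw [star_sub, star_mul, h.pr.2]
    have h2 : (w - e * w) * (star w - star w * e) =
        w * star w - (w * star w) * e - e * (w * star w) + e * (w * star w) * e := by noncomm_ring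
    rw [h2, h.ww, h.pr.1, h.pr.1]
    abel
  exact (sub_eq_zero.1 ((CStarRing.mul_star_self_eq_zero_iff _).1 h1)).symm

theorem we (h : Half e w) : w * e = 0 := by
  rw [← h.ww, ← mul_assoc, h.sq, zero_mul]

theorem ews (h : Half e w) : e * star w = 0 := by
  have h1 := congrArg star (we h)
  rwa [star_mul, h.pr.2, star_zero] at h1

theorem wse (h : Half e w) : star w * e = star w := by
  have h1 := congrArg star (ew h)
  rwa [star_mul, h.pr.2] at h1

theorem pf (h : Half e w) : Pr (star w * w) := by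
  refine ⟨?_, by rw [star_mul, star_star]⟩
  rw [mul_assoc, ← mul_assoc w, h.ww, ew h]

theorem wf (h : Half e w) : w * (star w * w) = w := by
  rw [← mul_assoc, h.ww, ew h]

theorem ef (h : Half e w) : e * (star w * w) = 0 := by
  rw [← mul_assoc, ews h, zero_mul]

theorem in_star {e x : A} (he : Pr e) (h : In e x) : In e (star x) := by
  constructor
  · have := congrArg star h.2
    rwa [star_mul, he.2] at this
  · have := congrArg star h.1
    rwa [star_mul, he.2] at this

theorem pr_mem {p : A} (h : Pr p) : p ∈ projMonoid A := proj_mem h.1 h.2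

theorem norm_pr_le {p : A} (h : Pr p) : ‖p‖ ≤ 1 :=
  IsStarProjection.norm_le p ⟨h.1, h.2⟩

/-- `1 + G G*` is invertible. -/
theorem isUnit_one_add (G : A) : IsUnit (1 + G * star G) := by
  have h : (-1 : ℝ) ∉ spectrum ℝ (G * star G) := by
    intro h1
    have h2 := spectrum_star_mul_self_nonneg (b := star G) (-1) (by rwa [star_star])
    norm_num at h2
  rw [spectrum.notMem_iff] at h
  have h3 : algebraMap ℝ A (-1) - G * star G = -(1 + G * star G) := by
    rw [map_neg, map_one]
    abel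
  rw [h3] at h
  exact (IsUnit.neg_iff _).1 h

end half

theorem gr {A : Type u} [CStarAlgebra A] {e w : A} (h : Half e w) {G : A} (hG : In e G) :
    ∃ q L : A, Pr q ∧ In e L ∧ L * (e + G * star G) = e ∧ (e + G * star G) * L = e ∧
      e * q = L * (e + G * w) := by
  have hGs := in_star h.pr hG
  obtain ⟨K, hK⟩ := isUnit_one_add G
  have heK : e * (K : A) = e + G * star G := by
    rw [hK, mul_add, mul_one, ← mul_assoc, hG.1]
  have hKe : (K : A) * e = e + G * star G := by
    rw [hK, add_mul, one_mul, mul_assoc, hGs.2]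
  have hcom : Commute e (K : A) := heK.trans hKe.symm
  have hcom' : Commute e (↑K⁻¹ : A) := hcom.units_inv_right
  have hKs : star (K : A) = K := by rw [hK]; simp
  have hKs' : star (↑K⁻¹ : A) = ↑K⁻¹ := by
    have h1 : star K = K := Units.ext hKs
    have h2 : star K⁻¹ = K⁻¹ := by rw [star_inv, h1]
    exact congrArg Units.val h2
  -- `V = e + G w`
  have hVV : (e + G * w) * star (e + G * w) = e * K := by
    rw [heK, star_add, star_mul, h.pr.2]
    have h2 : (e + G * w) * (e + star w * star G) =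
        e * e + (e * star w) * star G + G * (w * e) + G * (w * star w) * star G := by
      noncomm_ring
    rw [h2, h.pr.1, ews h, we h, h.ww, hG.2, zero_mul, mul_zero, add_zero, add_zero]
  have heV : e * (e + G * w) = e + G * w := by
    rw [mul_add, h.pr.1, ← mul_assoc, hG.1]
  have hVe : (e + G * w) * e = e := by
    rw [add_mul, h.pr.1, mul_assoc, we h, mul_zero, add_zero]
  have heVs : e * star (e + G * w) = e := by
    have := congrArg star hVe
    rwa [star_mul, h.pr.2] at this
  refine ⟨star (e + G * w) * ↑K⁻¹ * (e + G * w), e * ↑K⁻¹, ⟨?_, ?_⟩, ⟨?_, ?_⟩, ?_, ?_, ?_⟩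
  · set V := e + G * w
    calc star V * ↑K⁻¹ * V * (star V * ↑K⁻¹ * V)
        = star V * ↑K⁻¹ * (V * star V) * ↑K⁻¹ * V := by noncomm_ring
      _ = star V * ↑K⁻¹ * (e * K) * ↑K⁻¹ * V := by rw [hVV]
      _ = star V * ↑K⁻¹ * e * (K * ↑K⁻¹) * V := by noncomm_ring
      _ = star V * ↑K⁻¹ * e * V := by rw [Units.mul_inv, mul_one]
      _ = star V * ↑K⁻¹ * V := by rw [mul_assoc _ e V, heV]
  · set V := e + G * w
    rw [star_mul, star_mul, star_star, hKs', mul_assoc]
  · rw [← mul_assoc, h.pr.1]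
  · rw [mul_assoc, ← hcom'.eq, ← mul_assoc, h.pr.1]
  · rw [← hKe]
    calc e * ↑K⁻¹ * (↑K * e) = e * (↑K⁻¹ * ↑K) * e := by noncomm_ring
      _ = e := by rw [Units.inv_mul, mul_one, h.pr.1]
  · rw [← heK]
    calc e * ↑K * (e * ↑K⁻¹) = e * (↑K * e) * ↑K⁻¹ := by noncomm_ring
      _ = e * (e * ↑K) * ↑K⁻¹ := by rw [hcom.eq]
      _ = (e * e) * (↑K * ↑K⁻¹) := by noncomm_ring
      _ = e := by rw [Units.mul_inv, mul_one, h.pr.1]
  · set V := e + G * w
    calc e * (star V * ↑K⁻¹ * V) = (e * star V) * ↑K⁻¹ * V := by noncomm_ring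
      _ = e * ↑K⁻¹ * V := by rw [heVs]

/-- the function `2 / (1 + √(1 - 4 t))` -/
noncomputable def hf (t : ℝ) : ℝ := 2 / (1 + Real.sqrt (1 - 4 * t))

theorem hf_pos (t : ℝ) : 0 < 1 + Real.sqrt (1 - 4 * t) := by positivity

theorem continuous_hf : Continuous hf := by
  unfold hf
  refine Continuous.div continuous_const (by fun_prop) fun t => (hf_pos t).ne'

theorem hf_eq {t : ℝ} (h : t ≤ 1 / 4) : t * hf t * hf t = hf t - 1 := by
  unfold hf
  have h1 := hf_pos t
  have h2 : Real.sqrt (1 - 4 * t) ^ 2 = 1 - 4 * t := Real.sq_sqrt (by linarith)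
  set y := Real.sqrt (1 - 4 * t)
  have h3 : t = (1 - y ^ 2) / 4 := by linarith
  rw [h3]
  field_simp
  ring

theorem xw {A : Type u} [CStarAlgebra A] {e w : A} (h : Half e w) {X : A} (hX : In e X)
    (hn : ‖X‖ ≤ 1 / 2) : X * w ∈ projMonoid A := by
  have hXs := in_star h.pr hX
  set a : A := X * star X with ha
  have hsa : IsSelfAdjoint a := IsSelfAdjoint.mul_star_self X
  have hea : Commute e a := by
    have h1 : e * a = a := by rw [ha, ← mul_assoc, hX.1]
    have h2 : a * e = a := by rw [ha, mul_assoc, hXs.2]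
    exact h1.trans h2.symm
  have hspec : ∀ t ∈ spectrum ℝ a, t ≤ 1 / 4 := by
    intro t ht
    have h1 := spectrum.norm_le_norm_mul_of_mem ht
    have h2 : ‖(1 : A)‖ ≤ 1 := norm_pr_le ⟨mul_one 1, star_one A⟩
    have h3 : ‖a‖ ≤ 1 / 4 := by
      rw [ha, CStarRing.norm_self_mul_star]
      nlinarith [norm_nonneg X]
    have h4 : t ≤ ‖t‖ := Real.le_norm_self t
    nlinarith [norm_nonneg a, norm_nonneg (1 : A)]
  set K : A := cfc hf a with hK
  have hKsa : IsSelfAdjoint K := cfc_predicate hf a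
  have hcf : ContinuousOn hf (spectrum ℝ a) := continuous_hf.continuousOn
  have hKK : a * K * K = K - 1 := by
    have h1 : a = cfc (fun t : ℝ => t) a := (cfc_id' ℝ a hsa).symm
    have h2 : a * K * K = cfc (fun t : ℝ => t * hf t * hf t) a := by
      rw [cfc_mul (fun t => t * hf t) hf a (by fun_prop) hcf, cfc_mul (fun t => t) hf a
        (by fun_prop) hcf, ← h1]
    have h3 : K - 1 = cfc (fun t : ℝ => hf t - 1) a := by
      rw [cfc_sub hf (fun _ => (1 : ℝ)) a hcf (by fun_prop), cfc_const_one ℝ a]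
    rw [h2, h3]
    exact cfc_congr fun t ht => hf_eq (hspec t ht)
  have heK : Commute e K := hea.symm.cfc_real hf |>.symm
  have haK : Commute a K := (Commute.refl a).cfc_real hf |>.symm
  set G : A := K * X with hGdef
  have hG : In e G := by
    constructor
    · rw [hGdef, ← mul_assoc, heK.eq, mul_assoc, hX.1]
    · rw [hGdef, mul_assoc, hX.2]
  have hGG : G * star G = K - 1 := by
    rw [hGdef, star_mul, hKsa.star_eq, ← hKK]
    calc K * X * (star X * K) = K * (X * star X) * K := by noncomm_ring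
      _ = a * K * K := by rw [← ha, haK.eq]
  have hsum : e + G * star G = e * K := by
    have h1 : G * star G = e * (K - 1) := by
      rw [← hGG, ← mul_assoc, hG.1]
    rw [h1, mul_sub, mul_one]
    abel
  obtain ⟨q, L, hq, hL, h1, -, h3⟩ := gr h hG
  have hLK : L * K = e := by
    rw [hsum, ← mul_assoc, hL.2] at h1
    exact h1
  have h4 : e * q * (star w * w) = X * w := by
    rw [h3]
    calc L * (e + G * w) * (star w * w)
        = L * (e * (star w * w)) + L * G * (w * (star w * w)) := by noncomm_ring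
      _ = L * G * w := by rw [ef h, wf h, mul_zero, zero_add]
      _ = (L * K) * X * w := by rw [hGdef]; noncomm_ring
      _ = X * w := by rw [hLK, hX.1]
  rw [← h4]
  exact mul_mem (mul_mem (pr_mem h.pr) (pr_mem hq)) (pr_mem (pf h))

theorem dd {A : Type u} [CStarAlgebra A] {e w : A} (h : Half e w) {X : A} (hX : In e X)
    (hn : ‖X‖ ≤ 1 / 4) : X ∈ projMonoid A := by
  have h1 : ((2 : ℝ) • X) * w ∈ projMonoid A := by
    refine xw h ⟨?_, ?_⟩ ?_
    · rw [mul_smul_comm, hX.1]
    · rw [smul_mul_assoc, hX.2]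
    · rw [norm_smul, Real.norm_eq_abs, abs_of_pos (by norm_num)]
      linarith
  have h2 : ((1 / 2 : ℝ) • e) * w ∈ projMonoid A := by
    refine xw h ⟨?_, ?_⟩ ?_
    · rw [mul_smul_comm, h.pr.1]
    · rw [smul_mul_assoc, h.pr.1]
    · rw [norm_smul, Real.norm_eq_abs, abs_of_pos (by norm_num)]
      linarith [norm_pr_le h.pr]
  have h3 := mul_mem h1 (star_mem' h2)
  have h4 : ((2 : ℝ) • X) * w * star (((1 / 2 : ℝ) • e) * w) = X := by
    rw [smul_mul_assoc (1 / 2 : ℝ) e w, ew h, star_smul, smul_mul_assoc, smul_mul_assoc,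
      mul_smul_comm, smul_smul, mul_assoc, h.ww, hX.2]
    norm_num
  rwa [h4] at h3

theorem row {A : Type u} [CStarAlgebra A] {e w : A} (h : Half e w) {G : A} (hG : In e G) :
    ∃ s : ℝ, 0 < s ∧ s • (e + G * w) ∈ projMonoid A := by
  have hGs := in_star h.pr hG
  obtain ⟨q, L, hq, hL, h1, h2, h3⟩ := gr h hG
  have hpos : 0 < 4 * (1 + ‖G‖ ^ 2) := by positivity
  refine ⟨(4 * (1 + ‖G‖ ^ 2))⁻¹, by positivity, ?_⟩
  set s : ℝ := (4 * (1 + ‖G‖ ^ 2))⁻¹ with hs
  have hs0 : 0 < s := by positivity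
  have h4 : s • (e + G * star G) ∈ projMonoid A := by
    refine dd h ⟨?_, ?_⟩ ?_
    · rw [mul_smul_comm, mul_add, h.pr.1, ← mul_assoc, hG.1]
    · rw [smul_mul_assoc, add_mul, h.pr.1, mul_assoc, hGs.2]
    · have h5 : ‖e + G * star G‖ ≤ 1 + ‖G‖ ^ 2 := by
        refine (norm_add_le _ _).trans ?_
        rw [CStarRing.norm_self_mul_star]
        nlinarith [norm_pr_le h.pr]
      rw [norm_smul, Real.norm_eq_abs, abs_of_pos hs0]
      calc s * ‖e + G * star G‖ ≤ s * (1 + ‖G‖ ^ 2) := mul_le_mul_of_nonneg_left h5 hs0.le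
        _ = 1 / 4 := by
          rw [hs]
          field_simp
  have h5 : s • (e + G * star G) * (e * q) = s • (e + G * w) := by
    rw [h3, smul_mul_assoc, ← mul_assoc, h2, mul_add, h.pr.1, ← mul_assoc, hG.1]
  rw [← h5]
  exact mul_mem h4 (mul_mem (pr_mem h.pr) (pr_mem hq))

end MEMM

open MEMM in
theorem specMEM : SpecMEM.{u} where
  gr := fun _ _ _ _ h _ hG => gr h hG
  xw := fun _ _ _ _ h _ hX hn => xw h hX hn
  dd := fun _ _ _ _ h _ hX hn => dd h hX hn
  row := fun _ _ _ _ h _ hG => row h hG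

end Pool.Agent.Lib.MPdba3a1.RL
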