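import Pool.Agent.Lib.MP_dba3a1_an.RL.Spec

/-!
# MP_dba3a1_an, RealLinear, module NRM: annihilators
-/

set_option autoImplicit false

namespace Pool.Agent.Lib.MPdba3a1.RL

universe u v

namespace NRMM

variable {A : Type u} {B : Type v} [CStarAlgebra A] [CStarAlgebra B]

/-- `1 - p` is a projection. -/
theorem pr_compl {p : A} (hp : p * p = p) (hs : star p = p) : Pr (1 - p) := by
  constructor
  · rw [mul_sub, mul_one, sub_mul, one_mul, hp, sub_self, sub_zero]
  · rw [star_sub, star_one, hs]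

theorem mul_self_rann {a p : A} (hp : IsRann {a} p) (z : A) : a * (p * z) = 0 :=
  (hp.2.2 (p * z)).2 ⟨z, rfl⟩ a rfl

/-- The annihilating projection of `{a}`. -/
theorem ann_iff {a p : A} (hp : IsRann {a} p) (x : A) : (1 - p) * x = 0 ↔ a * x = 0 := by
  constructor
  · intro h
    rw [sub_mul, one_mul, sub_eq_zero] at h
    rw [h]
    exact mul_self_rann hp x
  · intro h
    obtain ⟨z, hz⟩ := (hp.2.2 x).1 (fun t ht => by rw [Set.mem_singleton_iff.1 ht]; exact h)
    rw [hz, sub_mul, one_mul, ← mul_assoc, hp.1, sub_self]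

/-- `h x = 0` if `e_n x = 0` for all `n`. -/
theorem kill {h x : A} {e : ℕ → A} (he : ∀ n : ℕ, ‖h * (1 - e n)‖ ≤ 1 / ((n : ℝ) + 1))
    (hx : ∀ n, e n * x = 0) : h * x = 0 := by
  have h1 : ∀ n : ℕ, ‖h * x‖ ≤ 1 / ((n : ℝ) + 1) * ‖x‖ := by
    intro n
    have h2 : h * x = h * (1 - e n) * x := by
      rw [mul_assoc, sub_mul, one_mul, hx n, sub_zero]
    rw [h2]
    exact (norm_mul_le _ _).trans (mul_le_mul_of_nonneg_right (he n) (norm_nonneg x))
  have h3 : Filter.Tendsto (fun n : ℕ => 1 / ((n : ℝ) + 1) * ‖x‖) Filter.atTop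
      (nhds (0 * ‖x‖)) := tendsto_one_div_add_atTop_nhds_zero_nat.mul_const _
  rw [zero_mul] at h3
  have h4 : ‖h * x‖ ≤ 0 := ge_of_tendsto h3 (Filter.Eventually.of_forall h1)
  exact norm_le_zero_iff.1 h4

/-- The claim (1). -/
theorem claim (hSPL : SpecSPL.{u}) (hA : HasRann A) {F : A → B} (hF : PHom F)
    (f : A →⋆ₐ[ℝ] B) (hf : ∀ p, Pr p → f p = F p) {a p : A} (hp : IsRann {a} p) (y : B) :
    f a * y = 0 ↔ F (1 - p) * y = 0 := by
  have hap : a * (1 - p) = a := by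
    have h0 := mul_self_rann hp 1
    rw [mul_one] at h0
    rw [mul_sub, mul_one, h0, sub_zero]
  constructor
  · intro hy
    have hfh : f (star a * a) * y = 0 := by
      rw [map_mul, mul_assoc, hy, mul_zero]
    choose e m hem using fun n : ℕ => hSPL A hA a (1 / ((n : ℝ) + 1)) (by positivity)
    have hFe : ∀ n, F (e n) * y = 0 := by
      intro n
      rw [← hf (e n) (hem n).pr, ← (hem n).inv, map_mul, mul_assoc, hfh, mul_zero]
    have hR : IsRann (Set.range e) p := by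
      refine ⟨hp.1, hp.2.1, fun x => ⟨fun hx => ?_, ?_⟩⟩
      · have h1 : star a * a * x = 0 :=
          kill (fun n => (hem n).small) (fun n => hx (e n) ⟨n, rfl⟩)
        have h2 : a * x = 0 := by
          rw [← CStarRing.star_mul_self_eq_zero_iff, star_mul, mul_assoc, ← mul_assoc (star a),
            h1, mul_zero]
        exact (hp.2.2 x).1 (fun t ht => by rw [Set.mem_singleton_iff.1 ht]; exact h2)
      · rintro ⟨z, rfl⟩ _ ⟨n, rfl⟩
        rw [← (hem n).inv, mul_assoc, mul_assoc (star a), mul_self_rann hp, mul_zero, mul_zero]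
    have hsub : Set.range e ⊆ (projMonoid A : Set A) := by
      rintro _ ⟨n, rfl⟩
      exact proj_mem (hem n).pr.1 (hem n).pr.2
    have H := hF.rann (Set.range e) p hsub hR
    obtain ⟨z, hz⟩ := (H.2.2 y).1 (by
      rintro _ ⟨_, ⟨n, rfl⟩, rfl⟩
      exact hFe n)
    rw [hF.compl p ⟨hp.1, hp.2.1⟩, hz, sub_mul, one_mul, ← mul_assoc, H.1, sub_self]
  · intro hy
    rw [← hap, map_mul, hf (1 - p) (pr_compl hp.1 hp.2.1), mul_assoc, hy, mul_zero]

end NRMM

theorem specNRM (hSPL : SpecSPL.{u}) : SpecNRM.{u, v} := by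
  intro A B _ _ hA F hF f hf S e he
  choose p hp using fun a : A => hA {a}
  have hR : IsRann ((fun a => 1 - p a) '' S) e := by
    refine ⟨he.1, he.2.1, fun x => ?_⟩
    rw [← he.2.2 x]
    constructor
    · intro hx a ha
      exact (NRMM.ann_iff (hp a) x).1 (hx _ ⟨a, ha, rfl⟩)
    · rintro hx _ ⟨a, ha, rfl⟩
      exact (NRMM.ann_iff (hp a) x).2 (hx a ha)
  have hsub : ((fun a => 1 - p a) '' S) ⊆ (projMonoid A : Set A) := by
    rintro _ ⟨a, _, rfl⟩
    have h1 := NRMM.pr_compl (hp a).1 (hp a).2.1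
    exact proj_mem h1.1 h1.2
  have H := hF.rann _ e hsub hR
  rw [hf e ⟨he.1, he.2.1⟩]
  refine ⟨H.1, H.2.1, fun y => ?_⟩
  rw [← H.2.2 y]
  constructor
  · rintro hy _ ⟨_, ⟨a, ha, rfl⟩, rfl⟩
    exact (NRMM.claim hSPL hA hF f hf (hp a) y).1 (hy _ ⟨a, ha, rfl⟩)
  · rintro hy _ ⟨a, ha, rfl⟩
    exact (NRMM.claim hSPL hA hF f hf (hp a) y).2 (hy _ ⟨_, ⟨a, ha, rfl⟩, rfl⟩)

end Pool.Agent.Lib.MPdba3a1.RL
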