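import Pool.Agent.Lib.MP_dba3a1_an.RL.Spec

/-! # MP_dba3a1_an, RealLinear: module ORT (the norm of an orthogonal sum) -/

set_option autoImplicit false

namespace Pool.Agent.Lib.MPdba3a1.RL

universe u

theorem specORT : SpecORT.{u} := by
  intro A _ x y h1 h2
  have ha : IsSelfAdjoint (star x * x) := IsSelfAdjoint.star_mul_self x
  have hb : IsSelfAdjoint (star y * y) := IsSelfAdjoint.star_mul_self y
  have h3 : y * star x = 0 := by
    have := congrArg star h2
    rwa [star_mul, star_star, star_zero] at this
  have h4 : star y * x = 0 := by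
    have := congrArg star h1
    rwa [star_mul, star_star, star_zero] at this
  have hab : star x * x * (star y * y) = 0 := by
    rw [mul_assoc, ← mul_assoc x, h2, zero_mul, mul_zero]
  have hba : star y * y * (star x * x) = 0 := by
    rw [mul_assoc, ← mul_assoc y, h3, zero_mul, mul_zero]
  have hsum : star (x + y) * (x + y) = star x * x + star y * y := by
    rw [star_add, add_mul, mul_add, mul_add, h1, h4]
    simp
  have hn : ‖star x * x + star y * y‖ = max ‖star x * x‖ ‖star y * y‖ :=
    IsStarNormal.norm_add_eq_max ha.isStarNormal hb.isStarNormal (hab.trans hba.symm) hab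
  have hsq : ‖x + y‖ * ‖x + y‖ = max (‖x‖ * ‖x‖) (‖y‖ * ‖y‖) := by
    rw [← CStarRing.norm_star_mul_self, hsum, hn, CStarRing.norm_star_mul_self,
      CStarRing.norm_star_mul_self]
  rcases le_total ‖x‖ ‖y‖ with hxy | hxy
  · rw [max_eq_right hxy]
    rw [max_eq_right (mul_self_le_mul_self (norm_nonneg _) hxy)] at hsq
    exact le_of_eq ((mul_self_inj (norm_nonneg _) (norm_nonneg _)).1 hsq)
  · rw [max_eq_left hxy]
    rw [max_eq_left (mul_self_le_mul_self (norm_nonneg _) hxy)] at hsq
    exact le_of_eq ((mul_self_inj (norm_nonneg _) (norm_nonneg _)).1 hsq)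

end Pool.Agent.Lib.MPdba3a1.RL
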