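import Pool.Agent.Lib.MP_dba3a1_an.RL.Spec

/-!
# MP_dba3a1_an, RealLinear: module POL (helper58)

A nonzero corner `r x s` contains a nonzero partial isometry.
-/

set_option autoImplicit false

namespace Pool.Agent.Lib.MPdba3a1.RL

universe u

theorem specPOL (hS : SpecSPL.{u}) : SpecPOL.{u} := by
  intro A _ hR r s x hr hs hne
  obtain ⟨y, hy⟩ : ∃ y, y = r * x * s := ⟨_, rfl⟩
  rw [← hy] at hne
  have hh : 0 < ‖star y * y‖ := by
    rw [CStarRing.norm_star_mul_self]
    exact mul_pos (norm_pos_iff.2 hne) (norm_pos_iff.2 hne)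
  obtain ⟨e, m, H⟩ := hS A hR y (‖star y * y‖ / 2) (by linarith)
  have hry : r * y = y := by
    rw [hy, ← mul_assoc, ← mul_assoc, hr.1]
  have hys : y * s = y := by
    rw [hy, mul_assoc, hs.1]
  have hhm : star y * y * m = m * (star y * y) := H.cm _ rfl
  have hvv : star (y * m) * (y * m) = e := by
    calc star (y * m) * (y * m) = m * (star y * y * m) := by
          rw [star_mul, H.sa]
          simp only [mul_assoc]
      _ = m * m * (star y * y) := by rw [hhm, mul_assoc]
      _ = e := H.inv
  have hve : y * m * e = y * m := by rw [mul_assoc, H.me]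
  have hes : e * s = e := by
    calc e * s = m * m * (star y * y) * s := by rw [H.inv]
      _ = m * m * (star y * (y * s)) := by simp only [mul_assoc]
      _ = m * m * (star y * y) := by rw [hys]
      _ = e := H.inv
  have he : e ≠ 0 := by
    intro h0
    have h1 := H.small
    rw [h0, sub_zero, mul_one] at h1
    linarith
  refine ⟨y * m, ?_, ?_, ?_, ?_⟩
  · intro h0
    rw [h0, mul_zero] at hvv
    exact he hvv.symm
  · rw [mul_assoc, hvv, hve]
  · rw [← mul_assoc, hry]
  · calc y * m * s = y * m * e * s := by rw [hve]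
      _ = y * m * (e * s) := by rw [mul_assoc (y * m)]
      _ = y * m := by rw [hes, hve]

end Pool.Agent.Lib.MPdba3a1.RL
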