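import Pool.Agent.Lib.MP_dba3a1_an.RL.Spec

/-!
# MP_dba3a1_an, RealLinear, module SCL: scalars
-/

set_option autoImplicit false

namespace Pool.Agent.Lib.MPdba3a1.RL

universe u v

namespace SCLM

section rel

variable {A : Type u} [CStarAlgebra A] {e w : A}

theorem ew (h : Half e w) : e * w = w := by
  have h1 : (w - e * w) * star (w - e * w) = 0 := by
    have h2 : star (w - e * w) = star w - star w * e := by
      rw [star_sub, star_mul, h.pr.2]
    rw [h2]
    have h3 : w * star w = e := h.ww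
    have h4 : e * e = e := h.pr.1
    calc (w - e * w) * (star w - star w * e)
        = w * star w - (w * star w) * e - e * (w * star w) + e * (w * star w) * e := by
          noncomm_ring
      _ = 0 := by
          rw [h3, h4, h4]
          abel
  have h5 := CStarRing.mul_star_self_eq_zero_iff (w - e * w) |>.1 h1
  exact (sub_eq_zero.1 h5).symm

theorem we (h : Half e w) : w * e = 0 := by
  rw [← h.ww, ← mul_assoc, h.sq, zero_mul]

theorem es (h : Half e w) : e * star w = 0 := by
  have := congrArg star (we h)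
  rwa [star_mul, h.pr.2, star_zero] at this

theorem se (h : Half e w) : star w * e = star w := by
  have := congrArg star (ew h)
  rwa [star_mul, h.pr.2] at this

theorem ss (h : Half e w) : star w * star w = 0 := by
  have := congrArg star h.sq
  rwa [star_mul, star_zero] at this

/-- The projection with corner `t e`. -/
theorem exQ (h : Half e w) (t : ℝ) (h0 : 0 ≤ t) (h1 : t ≤ 1) :
    ∃ Q : A, Pr Q ∧ e * Q * e = t • e := by
  obtain ⟨c, hc⟩ : ∃ c : ℝ, c * c = t - t * t :=
    ⟨Real.sqrt (t - t * t), Real.mul_self_sqrt (by nlinarith)⟩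
  have r1 : e * e = e := h.pr.1
  have r2 : e * w = w := ew h
  have r3 : e * star w = 0 := es h
  have r4 : w * e = 0 := we h
  have r5 : w * w = 0 := h.sq
  have r6 : w * star w = e := h.ww
  have r7 : star w * e = star w := se h
  have r8 : star w * star w = 0 := ss h
  have f1 : e * (star w * w) = 0 := by rw [← mul_assoc, r3, zero_mul]
  have f2 : w * (star w * w) = w := by rw [← mul_assoc, r6, r2]
  have f3 : star w * (star w * w) = 0 := by rw [← mul_assoc, r8, zero_mul]
  have f4 : (star w * w) * e = 0 := by rw [mul_assoc, r4, mul_zero]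
  have f5 : (star w * w) * w = 0 := by rw [mul_assoc, r5, mul_zero]
  have f6 : (star w * w) * star w = star w := by rw [mul_assoc, r6, r7]
  have f7 : (star w * w) * (star w * w) = star w * w := by rw [← mul_assoc, f6]
  obtain ⟨f, hf⟩ : ∃ f : A, f = star w * w := ⟨_, rfl⟩
  rw [← hf] at f1 f2 f3 f4 f5 f6 f7
  have f8 : star f = f := by rw [hf, star_mul, star_star]
  refine ⟨t • e + c • w + c • star w + (1 - t) • f, ⟨?_, ?_⟩, ?_⟩
  · simp only [mul_add, add_mul, smul_mul_smul_comm, r1, r2, r3, r4, r5, r6, r7, r8, f1, f2, f3,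
      f4, f5, f6, f7, smul_zero, add_zero, zero_add, ← hf]
    match_scalars
    · linear_combination hc
    · ring
    · ring
    · linear_combination hc
  · simp only [star_add, star_smul, star_star, h.pr.2, f8, star_trivial]
    abel
  · simp only [mul_add, add_mul, mul_smul_comm, smul_mul_assoc, r1, r2, r3, r4, f1, r7, f4,
      smul_zero, add_zero, zero_add]

end rel

section tau

variable {B : Type v} [CStarAlgebra B]

/-- A bounded multiplicative map of the unit interval with `τ t + τ (1 - t) = E` is `t E`. -/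
theorem tau (τ : ℝ → B) (E : B)
    (hm : ∀ s t : ℝ, 0 ≤ s → s ≤ 1 → 0 ≤ t → t ≤ 1 → τ (s * t) = τ s * τ t)
    (hc : ∀ t : ℝ, 0 ≤ t → t ≤ 1 → τ (1 - t) = E - τ t) (h1 : τ 1 = E)
    (hn : ∀ t : ℝ, 0 ≤ t → t ≤ 1 → ‖τ t‖ ≤ 1) (t : ℝ) (ht0 : 0 ≤ t) (ht1 : t ≤ 1) :
    τ t = t • E := by
  have h0 : τ 0 = 0 := by
    have := hc 1 zero_le_one le_rfl
    rwa [sub_self, h1, sub_self] at this
  have hE : ∀ t : ℝ, 0 ≤ t → t ≤ 1 → τ t * E = τ t := by
    intro t a b
    have := hm t 1 a b zero_le_one le_rfl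
    rw [mul_one, h1] at this
    exact this.symm
  have hadd : ∀ s t : ℝ, 0 ≤ s → 0 ≤ t → s + t ≤ 1 → τ (s + t) = τ s + τ t := by
    intro s t a b c
    rcases (add_nonneg a b).eq_or_lt with h | h
    · have hs : s = 0 := by linarith
      have ht : t = 0 := by linarith
      rw [hs, ht, add_zero, h0, add_zero]
    · have e1 : s = (s + t) * (s / (s + t)) := by field_simp
      have e2 : t = (s + t) * (1 - s / (s + t)) := by field_simp; ring
      have l0 : 0 ≤ s / (s + t) := by positivity
      have l1 : s / (s + t) ≤ 1 := by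
        rw [div_le_one h]
        linarith
      have k1 := hm (s + t) (s / (s + t)) h.le c l0 l1
      have k2 := hm (s + t) (1 - s / (s + t)) h.le c (by linarith) (by linarith)
      rw [← e1] at k1
      rw [← e2, hc _ l0 l1, mul_sub, hE _ h.le c] at k2
      rw [k1, k2]
      abel
  have hmul : ∀ (n : ℕ) (t : ℝ), 0 ≤ t → n * t ≤ 1 → τ (n * t) = (n : ℝ) • τ t := by
    intro n t a
    induction n with
    | zero =>
      intro _
      simp [h0]
    | succ n ih =>
      intro b
      have b' : (n : ℝ) * t + t ≤ 1 := by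
        push_cast at b
        linarith
      have e1 : ((n + 1 : ℕ) : ℝ) * t = n * t + t := by
        push_cast
        ring
      rw [e1, hadd _ _ (by positivity) a b', ih (by linarith)]
      push_cast
      module
  have key : ∀ n : ℕ, 0 < n → ‖τ t - t • E‖ ≤ 2 / n := by
    intro n hn0
    have hnp : (0 : ℝ) < n := by exact_mod_cast hn0
    have e1 : τ (1 / n) = (1 / n : ℝ) • E := by
      have := hmul n (1 / n) (by positivity) (by field_simp; exact le_rfl)
      rw [mul_one_div_cancel hnp.ne', h1] at this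
      rw [this, smul_smul, one_div_mul_cancel hnp.ne', one_smul]
    have k0 : (⌊n * t⌋₊ : ℝ) ≤ n * t := Nat.floor_le (by positivity)
    have k1 : n * t < ⌊n * t⌋₊ + 1 := Nat.lt_floor_add_one _
    obtain ⟨k, hk⟩ : ∃ k : ℕ, k = ⌊n * t⌋₊ := ⟨_, rfl⟩
    rw [← hk] at k0 k1
    have k2 : (k : ℝ) * (1 / n) ≤ t := by
      rw [mul_one_div, div_le_iff₀ hnp]
      linarith
    have e2 : τ (k * (1 / n)) = (k * (1 / n) : ℝ) • E := by
      rw [hmul k (1 / n) (by positivity) (by linarith), e1, smul_smul]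
    have d0 : 0 ≤ t - k * (1 / n) := by linarith
    have d1 : n * (t - k * (1 / n)) ≤ 1 := by
      have : n * (t - k * (1 / n)) = n * t - k := by field_simp
      linarith
    have d2 : t - k * (1 / n) ≤ 1 / n := by
      rw [le_div_iff₀ hnp]
      linarith
    have e3 : τ t = (k * (1 / n) : ℝ) • E + τ (t - k * (1 / n)) := by
      rw [← e2, ← hadd _ _ (by positivity) d0 (by linarith)]
      congr 1
      ring
    have e4 : ‖τ (t - k * (1 / n))‖ ≤ 1 / n := by
      have h2 := hmul n _ d0 d1
      have h3 := hn (n * (t - k * (1 / n))) (by positivity) d1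
      rw [h2, norm_smul, Real.norm_of_nonneg hnp.le] at h3
      rw [le_div_iff₀ hnp]
      linarith
    have e5 : ‖E‖ ≤ 1 := by
      rw [← h1]
      exact hn 1 zero_le_one le_rfl
    have e6 : τ t - t • E = τ (t - k * (1 / n)) - (t - k * (1 / n)) • E := by
      rw [e3]
      module
    rw [e6]
    have e7 : ‖(t - k * (1 / n)) • E‖ ≤ 1 / n := by
      rw [norm_smul, Real.norm_of_nonneg d0]
      nlinarith [norm_nonneg E]
    calc ‖τ (t - k * (1 / n)) - (t - k * (1 / n)) • E‖
        ≤ ‖τ (t - k * (1 / n))‖ + ‖(t - k * (1 / n)) • E‖ := norm_sub_le _ _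
      _ ≤ 1 / n + 1 / n := add_le_add e4 e7
      _ = 2 / n := by ring
  have hz : ‖τ t - t • E‖ ≤ 0 := by
    by_contra hcon
    push Not at hcon
    obtain ⟨n, hn1⟩ := exists_nat_gt (2 / ‖τ t - t • E‖)
    have hn2 : (0 : ℝ) < n := lt_trans (by positivity) hn1
    have hn3 := key n (by exact_mod_cast hn2)
    rw [div_lt_iff₀ hcon] at hn1
    rw [le_div_iff₀ hn2] at hn3
    linarith
  exact sub_eq_zero.1 (norm_le_zero_iff.1 hz)

end tau

theorem te_mem {A : Type u} [CStarAlgebra A] {e w : A} (h : Half e w) (t : ℝ) (h0 : 0 ≤ t)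
    (h1 : t ≤ 1) : t • e ∈ projMonoid A := by
  obtain ⟨Q, hQ, hQe⟩ := exQ h t h0 h1
  rw [← hQe]
  have he : e ∈ projMonoid A := proj_mem h.pr.1 h.pr.2
  exact (projMonoid A).mul_mem ((projMonoid A).mul_mem he (proj_mem hQ.1 hQ.2)) he

theorem te_F {A : Type u} {B : Type v} [CStarAlgebra A] [CStarAlgebra B] {F : A → B}
    (hF : PHom F) {e w : A} (h : Half e w) (t : ℝ) (h0 : 0 ≤ t) (h1 : t ≤ 1) :
    F (t • e) = t • F e := by
  have he : e ∈ projMonoid A := proj_mem h.pr.1 h.pr.2
  have hee : F e * F e = F e := by rw [← hF.mul e he e he, h.pr.1]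
  have hpc : ∀ Q : A, Pr Q → Pr (1 - Q) := by
    intro Q hQ
    refine ⟨?_, ?_⟩
    · have := hQ.1
      calc (1 - Q) * (1 - Q) = 1 - Q - Q + Q * Q := by noncomm_ring
        _ = 1 - Q := by rw [this]; abel
    · rw [star_sub, star_one, hQ.2]
  have hQ2 : ∀ Q : A, Pr Q → F (e * Q * e) = F e * F Q * F e := by
    intro Q hQ
    have hq := proj_mem hQ.1 hQ.2
    rw [hF.mul _ ((projMonoid A).mul_mem he hq) _ he, hF.mul _ he _ hq]
  apply tau (fun t => F (t • e)) (F e) _ _ _ _ t h0 h1
  · intro s t a b c d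
    have : (s * t) • e = (s • e) * (t • e) := by
      rw [smul_mul_smul_comm, h.pr.1]
    show F ((s * t) • e) = F (s • e) * F (t • e)
    rw [this, hF.mul _ (te_mem h s a b) _ (te_mem h t c d)]
  · intro t a b
    obtain ⟨Q, hQ, hQe⟩ := exQ h t a b
    have h3 : e * (1 - Q) * e = (1 - t) • e := by
      rw [mul_sub, sub_mul, mul_one, h.pr.1, hQe, sub_smul, one_smul]
    show F ((1 - t) • e) = F e - F (t • e)
    rw [← h3, ← hQe, hQ2 _ (hpc Q hQ), hQ2 _ hQ, hF.compl Q hQ, mul_sub, sub_mul, mul_one, hee]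
  · show F ((1 : ℝ) • e) = F e
    rw [one_smul]
  · intro t a b
    exact hF.nrm _ (te_mem h t a b)

end SCLM

/-- Scalars. -/
theorem specSCL : SpecSCL.{u, v} where
  mem := by
    intro A _ e w h t h0 h1 y hy hey
    have : t • y = (t • e) * y := by rw [smul_mul_assoc, hey]
    rw [this]
    exact (projMonoid A).mul_mem (SCLM.te_mem h t h0 h1) hy
  mul := by
    intro A B _ _ F hF e w h t h0 h1 y hy hey
    have he : e ∈ projMonoid A := proj_mem h.pr.1 h.pr.2
    have : t • y = (t • e) * y := by rw [smul_mul_assoc, hey]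
    rw [this, hF.mul _ (SCLM.te_mem h t h0 h1) _ hy, SCLM.te_F hF h t h0 h1, smul_mul_assoc,
      ← hF.mul e he y hy, hey]

end Pool.Agent.Lib.MPdba3a1.RL
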