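import Pool.Agent.Lib.MP_dba3a1_an.RL.Spec

/-!
# MP_dba3a1_an, RealLinear, module SPL (helper54): the spectral lemma
-/

set_option autoImplicit false

namespace Pool.Agent.Lib.MPdba3a1.RL

universe u v

namespace SPLM

variable {A : Type u} [CStarAlgebra A]

/-- The consequences of the functional calculus. -/
theorem fc (a : A) (l : ℝ) (hl : 0 < l) : ∃ k k' n r r' s₁ s₂ : A,
    (star k = k ∧ star k' = k' ∧ star n = n ∧ star r = r ∧ star r' = r' ∧ star s₁ = s₁ ∧
      star s₂ = s₂) ∧
    (∀ x, x * (star a * a) = (star a * a) * x → x * k = k * x ∧ x * k' = k' * x ∧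
      x * n = n * x ∧ x * r = r * x ∧ x * r' = r' * x ∧ x * s₁ = s₁ * x ∧ x * s₂ = s₂ * x) ∧
    k * k' = 0 ∧ star a * a = k + n ∧ n = l • (1 : A) - k' ∧
    r' * r' * (star a * a) = 1 - r * k' ∧ s₁ * s₁ = k ∧ s₂ * s₂ = n ∧ ‖n‖ ≤ l ∧
    (‖star a * a‖ ≤ 2 * l → ‖k‖ ≤ l) := by
  have hsa : IsSelfAdjoint (star a * a) := IsSelfAdjoint.star_mul_self a
  have hpos : ∀ t ∈ spectrum ℝ (star a * a), 0 ≤ t := spectrum_star_mul_self_nonneg
  have hbd : ∀ t ∈ spectrum ℝ (star a * a), ‖t‖ ≤ ‖star a * a‖ := by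
    intro t ht
    have h1 := spectrum.norm_le_norm_mul_of_mem ht
    have h2 : ‖(1 : A)‖ ≤ 1 := IsStarProjection.norm_le 1 ⟨by simp [IsIdempotentElem], by simp⟩
    have h3 := mul_le_mul_of_nonneg_left h2 (norm_nonneg (star a * a))
    rw [mul_one] at h3
    exact h1.trans h3
  generalize star a * a = h at hsa hpos hbd
  have hM : ∀ t : ℝ, max t l ≠ 0 := fun t => (lt_of_lt_of_le hl (le_max_right t l)).ne'
  have hM' : ∀ t : ℝ, Real.sqrt (max t l) ≠ 0 := fun t =>
    (Real.sqrt_pos.2 (lt_of_lt_of_le hl (le_max_right t l))).ne'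
  have c1 : Continuous (fun t : ℝ => max (t - l) 0) := by fun_prop
  have c2 : Continuous (fun t : ℝ => max (l - t) 0) := by fun_prop
  have c3 : Continuous (fun t : ℝ => min t l) := by fun_prop
  have c4 : Continuous (fun t : ℝ => (max t l)⁻¹) :=
    Continuous.inv₀ (by fun_prop) hM
  have c5 : Continuous (fun t : ℝ => (Real.sqrt (max t l))⁻¹) :=
    Continuous.inv₀ (by fun_prop) hM'
  have c6 : Continuous (fun t : ℝ => Real.sqrt (max (t - l) 0)) := by fun_prop
  have c7 : Continuous (fun t : ℝ => Real.sqrt (min t l)) := by fun_prop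
  have st : ∀ f : ℝ → ℝ, star (cfc f h) = cfc f h := fun f =>
    (cfc_predicate f h : IsSelfAdjoint (cfc f h)).star_eq
  have cm : ∀ x, x * h = h * x → ∀ f : ℝ → ℝ, x * cfc f h = cfc f h * x := by
    intro x hx f
    exact (hsa.commute_cfc (show Commute h x from hx.symm) f).eq.symm
  have ml : ∀ f g : ℝ → ℝ, Continuous f → Continuous g →
      cfc f h * cfc g h = cfc (fun t => f t * g t) h := fun f g hf hg =>
    (cfc_mul f g h hf.continuousOn hg.continuousOn).symm
  have hid : cfc (fun t : ℝ => t) h = h := cfc_id' ℝ h hsa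
  refine ⟨cfc (fun t : ℝ => max (t - l) 0) h, cfc (fun t : ℝ => max (l - t) 0) h,
    cfc (fun t : ℝ => min t l) h, cfc (fun t : ℝ => (max t l)⁻¹) h,
    cfc (fun t : ℝ => (Real.sqrt (max t l))⁻¹) h, cfc (fun t : ℝ => Real.sqrt (max (t - l) 0)) h,
    cfc (fun t : ℝ => Real.sqrt (min t l)) h,
    ⟨st _, st _, st _, st _, st _, st _, st _⟩,
    fun x hx => ⟨cm x hx _, cm x hx _, cm x hx _, cm x hx _, cm x hx _, cm x hx _, cm x hx _⟩,
    ?_, ?_, ?_, ?_, ?_, ?_, ?_, ?_⟩
  · rw [ml _ _ c1 c2]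
    have : (fun t : ℝ => max (t - l) 0 * max (l - t) 0) = fun _ => 0 := by
      funext t
      rcases le_total t l with h1 | h1
      · rw [max_eq_right (by linarith : t - l ≤ 0), zero_mul]
      · rw [max_eq_right (by linarith : l - t ≤ 0), mul_zero]
    rw [this, cfc_const_zero]
  · rw [← cfc_add (a := h) _ _ c1.continuousOn c3.continuousOn]
    have : (fun t : ℝ => max (t - l) 0 + min t l) = fun t => t := by
      funext t
      rcases le_total t l with h1 | h1
      · rw [max_eq_right (by linarith : t - l ≤ 0), min_eq_left h1, zero_add]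
      · rw [max_eq_left (by linarith : 0 ≤ t - l), min_eq_right h1]; ring
    rw [this, hid]
  · have h1 : l • (1 : A) = cfc (fun _ : ℝ => l) h := by
      rw [cfc_const l h hsa, Algebra.algebraMap_eq_smul_one]
    rw [h1, ← cfc_sub _ _ h continuous_const.continuousOn c2.continuousOn]
    congr 1
    funext t
    rcases le_total t l with h1 | h1
    · rw [max_eq_left (by linarith : 0 ≤ l - t), min_eq_left h1]; ring
    · rw [max_eq_right (by linarith : l - t ≤ 0), min_eq_right h1, sub_zero]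
  · rw [ml _ _ c5 c5, ml _ _ c4 c2]
    nth_rewrite 2 [← hid]
    rw [ml (fun t => (Real.sqrt (max t l))⁻¹ * (Real.sqrt (max t l))⁻¹) (fun t => t) (c5.mul c5)
      continuous_id']
    have h1 : (1 : A) = cfc (fun _ : ℝ => (1 : ℝ)) h := by
      rw [cfc_const_one ℝ h hsa]
    nth_rewrite 1 [h1]
    rw [← cfc_sub (fun _ => (1 : ℝ)) (fun t => (max t l)⁻¹ * max (l - t) 0) h
      continuous_const.continuousOn (c4.mul c2).continuousOn]
    congr 1
    funext t
    have hq : (Real.sqrt (max t l))⁻¹ * (Real.sqrt (max t l))⁻¹ = (max t l)⁻¹ := by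
      rw [← mul_inv, Real.mul_self_sqrt (le_trans hl.le (le_max_right t l))]
    rw [hq]
    rcases le_total t l with h1 | h1
    · rw [max_eq_right h1, max_eq_left (by linarith : 0 ≤ l - t)]
      field_simp
      ring
    · rw [max_eq_left h1, max_eq_right (by linarith : l - t ≤ 0), mul_zero, sub_zero,
        inv_mul_cancel₀ (by linarith)]
  · rw [ml _ _ c6 c6]
    congr 1
    funext t
    exact Real.mul_self_sqrt (le_max_right _ _)
  · rw [ml _ _ c7 c7]
    refine cfc_congr fun t ht => ?_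
    exact Real.mul_self_sqrt (le_min (hpos t ht) hl.le)
  · refine norm_cfc_le hl.le fun t ht => ?_
    rw [Real.norm_of_nonneg (le_min (hpos t ht) hl.le)]
    exact min_le_right _ _
  · intro hn
    refine norm_cfc_le hl.le fun t ht => ?_
    rw [Real.norm_of_nonneg (le_max_right _ _)]
    have h1 := hbd t ht
    rw [Real.norm_of_nonneg (hpos t ht)] at h1
    exact max_le (by linarith) hl.le

end SPLM

theorem specSPL : SpecSPL.{u} := by
  intro A _ hR a l hl
  obtain ⟨k, k', n, r, r', s₁, s₂, ⟨sk, sk', sn, sr, sr', ss₁, ss₂⟩, com, kk', hkn, hn, hr, hs₁,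
    hs₂, nn, nk⟩ := SPLM.fc a l hl
  have hst : star (star a * a) = star a * a := by simp
  generalize star a * a = h at com hkn hr nk hst
  obtain ⟨p, hpp, hps, hp⟩ := hR {k}
  have hkp : k * p = 0 := (hp p).2 ⟨1, (mul_one p).symm⟩ k rfl
  have hky : ∀ y, k * y = 0 → p * y = y := by
    intro y hy
    obtain ⟨z, rfl⟩ := (hp y).1 (fun x hx => by rw [Set.mem_singleton_iff.1 hx]; exact hy)
    rw [← mul_assoc, hpp]
  have hpk : p * k = 0 := by
    have := congrArg star hkp
    rwa [star_mul, star_zero, sk, hps] at this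
  -- `e = 1 - p`
  have ce : ∀ x, x * h = h * x → x * p = p * x := by
    intro x hx
    have hx' : star x * h = h * star x := by
      have := congrArg star hx
      rw [star_mul, star_mul, hst] at this
      exact this.symm
    have h1 : p * (x * p) = x * p := by
      apply hky
      rw [← mul_assoc, ← (com x hx).1, mul_assoc, hkp, mul_zero]
    have h2 : p * (star x * p) = star x * p := by
      apply hky
      rw [← mul_assoc, ← (com _ hx').1, mul_assoc, hkp, mul_zero]
    have h3 := congrArg star h2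
    simp only [star_mul, star_star, hps] at h3
    rw [← h1, ← mul_assoc]
    exact h3
  have hh : p * h = h * p := (ce h rfl).symm
  have hk'p : k' * p = k' := by
    have h1 : p * k' = k' := hky k' kk'
    have := congrArg star h1
    rwa [star_mul, sk', hps] at this
  have cr' : r' * h = h * r' := (com h rfl).2.2.2.2.1.symm
  have cpr' : r' * p = p * r' := ce r' cr'
  have cr : r * h = h * r := (com h rfl).2.2.2.1.symm
  have cs₁ : s₁ * p = p * s₁ := ce s₁ (com h rfl).2.2.2.2.2.1.symm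
  have cs₂ : s₂ * p = p * s₂ := ce s₂ (com h rfl).2.2.2.2.2.2.symm
  have cn : n * p = p * n := ce n (com h rfl).2.2.1.symm
  have np : ‖p‖ ≤ 1 := IsStarProjection.norm_le p ⟨hpp, hps⟩
  have hq : (1 - p) * (1 - p) = 1 - p := by
    rw [mul_sub, sub_mul, sub_mul, one_mul, mul_one, hpp, one_mul]; abel
  have hqs : star (1 - p) = 1 - p := by rw [star_sub, star_one, hps]
  have nq : ‖1 - p‖ ≤ 1 := IsStarProjection.norm_le _ ⟨hq, hqs⟩
  have cq : ∀ x, x * p = p * x → (1 - p) * x = x * (1 - p) := fun x hx => by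
    rw [mul_sub, sub_mul, mul_one, one_mul, hx]
  have hne : n * (1 - p) = l • (1 - p) := by
    rw [hn, sub_mul, smul_mul_assoc, one_mul, mul_sub, mul_one, hk'p, sub_self, sub_zero]
  have hhe : h - l • (1 - p) = k + n * p := by
    rw [← hne, hkn, mul_sub, mul_one]; abel
  have hsmall : h * p = n * p := by rw [hkn, add_mul, hkp, zero_add]
  refine ⟨1 - p, r' * (1 - p), ⟨hq, hqs⟩, ?_, ?_, ?_, ?_, ?_, ?_, ?_, ?_⟩
  · rw [star_mul, hqs, sr', mul_sub, sub_mul, mul_one, one_mul, cpr']
  · rw [mul_assoc, hq]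
  · have h1 : r' * (1 - p) = (1 - p) * r' := by rw [mul_sub, sub_mul, mul_one, one_mul, cpr']
    calc r' * (1 - p) * (r' * (1 - p)) * h = r' * ((1 - p) * r') * ((1 - p) * h) := by
          simp only [mul_assoc]
      _ = r' * r' * ((1 - p) * (1 - p) * h) := by rw [← h1]; simp only [mul_assoc]
      _ = r' * r' * (h * (1 - p)) := by rw [hq, cq h hh.symm]
      _ = (1 - r * k') * (1 - p) := by rw [← hr]; simp only [mul_assoc]
      _ = 1 - p := by
          rw [sub_mul, one_mul, mul_assoc, mul_sub, mul_one, hk'p, sub_self, mul_zero, sub_zero]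
  · intro x hx
    rw [mul_sub, sub_mul, mul_one, one_mul, ce x hx]
  · intro x hx
    have h1 : x * (1 - p) = (1 - p) * x := by rw [mul_sub, sub_mul, mul_one, one_mul, ce x hx]
    rw [← mul_assoc, (com x hx).2.2.2.2.1, mul_assoc, h1, mul_assoc]
  · rw [sub_sub_cancel, hsmall]
    calc ‖n * p‖ ≤ ‖n‖ * ‖p‖ := norm_mul_le _ _
      _ ≤ l * 1 := mul_le_mul nn np (norm_nonneg _) hl.le
      _ = l := mul_one l
  · refine ⟨s₁ * (1 - p) + s₂ * p, ?_⟩
    have e1 : star (s₁ * (1 - p) + s₂ * p) = s₁ * (1 - p) + s₂ * p := by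
      rw [star_add, star_mul, star_mul, hqs, hps, ss₁, ss₂, sub_mul, mul_sub, one_mul, mul_one, cs₁,
        cs₂]
    rw [e1, hhe]
    have f1 : s₁ * (1 - p) * (s₁ * (1 - p)) = k := by
      calc s₁ * (1 - p) * (s₁ * (1 - p)) = s₁ * ((1 - p) * s₁) * (1 - p) := by
            simp only [mul_assoc]
        _ = s₁ * (s₁ * (1 - p)) * (1 - p) := by rw [cq s₁ cs₁]
        _ = s₁ * s₁ * ((1 - p) * (1 - p)) := by simp only [mul_assoc]
        _ = k := by rw [hq, hs₁, mul_sub, mul_one, hkp, sub_zero]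
    have f2 : s₂ * p * (s₂ * p) = n * p := by
      calc s₂ * p * (s₂ * p) = s₂ * (p * s₂) * p := by simp only [mul_assoc]
        _ = s₂ * (s₂ * p) * p := by rw [cs₂]
        _ = s₂ * s₂ * (p * p) := by simp only [mul_assoc]
        _ = n * p := by rw [hpp, hs₂]
    have f3 : s₁ * (1 - p) * (s₂ * p) = 0 := by
      calc s₁ * (1 - p) * (s₂ * p) = s₁ * ((1 - p) * (p * s₂)) := by
            rw [← cs₂]; simp only [mul_assoc]
        _ = 0 := by rw [← mul_assoc (1 - p), sub_mul, one_mul, hpp, sub_self, zero_mul, mul_zero]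
    have f4 : s₂ * p * (s₁ * (1 - p)) = 0 := by
      calc s₂ * p * (s₁ * (1 - p)) = s₂ * (p * s₁) * (1 - p) := by simp only [mul_assoc]
        _ = s₂ * (s₁ * p) * (1 - p) := by rw [cs₁]
        _ = s₂ * s₁ * (p * (1 - p)) := by simp only [mul_assoc]
        _ = 0 := by rw [mul_sub, mul_one, hpp, sub_self, mul_zero]
    rw [add_mul, mul_add, mul_add, f1, f2, f3, f4]
    abel
  · intro hb
    have hk := nk hb
    rw [hhe]
    have e1 : star (k + n * p) = k + n * p := by
      rw [star_add, star_mul, sk, sn, hps, cn]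
    have e2 : star (k + n * p) * (k + n * p) = k * k + n * (n * p) := by
      rw [e1, add_mul, mul_add, mul_add]
      have g1 : k * (n * p) = 0 := by rw [cn, ← mul_assoc, hkp, zero_mul]
      have g2 : n * p * k = 0 := by rw [mul_assoc, hpk, mul_zero]
      have g3 : n * p * (n * p) = n * (n * p) := by
        rw [mul_assoc, ← mul_assoc p n p, ← cn, mul_assoc n p p, hpp]
      rw [g1, g2, g3]
      abel
    have e3 : ‖k + n * p‖ ^ 2 = ‖k * k + n * (n * p)‖ := by
      rw [← e2, CStarRing.norm_star_mul_self, sq]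
    rw [e3]
    have n1 : ‖k * k‖ ≤ l * l := (norm_mul_le _ _).trans (mul_le_mul hk hk (norm_nonneg _) hl.le)
    have n2 : ‖n * p‖ ≤ l := by
      calc ‖n * p‖ ≤ ‖n‖ * ‖p‖ := norm_mul_le _ _
        _ ≤ l * 1 := mul_le_mul nn np (norm_nonneg _) hl.le
        _ = l := mul_one l
    have n3 : ‖n * (n * p)‖ ≤ l * l :=
      (norm_mul_le _ _).trans (mul_le_mul nn n2 (norm_nonneg _) hl.le)
    calc ‖k * k + n * (n * p)‖ ≤ ‖k * k‖ + ‖n * (n * p)‖ := norm_add_le _ _
      _ ≤ l * l + l * l := add_le_add n1 n3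
      _ = 2 * l ^ 2 := by ring

end Pool.Agent.Lib.MPdba3a1.RL
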