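import Pool.Agent.Lib.MP_dba3a1_an.RL.BAS
import Pool.Agent.Lib.MP_dba3a1_an.RL.ORT
import Pool.Agent.Lib.MP_dba3a1_an.RL.SPL
import Pool.Agent.Lib.MP_dba3a1_an.RL.POL
import Pool.Agent.Lib.MP_dba3a1_an.RL.APX
import Pool.Agent.Lib.MP_dba3a1_an.RL.ADD
import Pool.Agent.Lib.MP_dba3a1_an.RL.DE1
import Pool.Agent.Lib.MP_dba3a1_an.RL.DE2
import Pool.Agent.Lib.MP_dba3a1_an.RL.SCL
import Pool.Agent.Lib.MP_dba3a1_an.RL.MEM
import Pool.Agent.Lib.MP_dba3a1_an.RL.FA1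
import Pool.Agent.Lib.MP_dba3a1_an.RL.FA2
import Pool.Agent.Lib.MP_dba3a1_an.RL.FNF
import Pool.Agent.Lib.MP_dba3a1_an.RL.AB1
import Pool.Agent.Lib.MP_dba3a1_an.RL.AB2
import Pool.Agent.Lib.MP_dba3a1_an.RL.NRM
import Pool.Agent.Lib.MP_dba3a1_an.RL.FI1
import Pool.Agent.Lib.MP_dba3a1_an.RL.FI2
import Pool.Agent.Lib.MP_dba3a1_an.RL.FIN

/-!
# MP_dba3a1_an, RealLinear: assembly
-/

set_option autoImplicit false

namespace Pool.Agent.Lib.MPdba3a1.RL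

universe u v

theorem main : Main.{u, v} :=
  specFIN specBAS specMEM
    (specDE2 (specPOL specSPL) specADD (specDE1 (specPOL specSPL) (specAPX specSPL) specADD))
    (specFNF specSCL specMEM (specFA1 specSCL specMEM) specFA2)
    (specAB2 (specAPX specSPL) (specAB1 specORT)) (specNRM specSPL) specFI1 specFI2

end Pool.Agent.Lib.MPdba3a1.RL
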